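import Mathlib
import Pool.Agent.Work.MP_87745a_al_gs.Gr

/-!
# MP_87745a_al: spinal groups are not sections of groups with a crossed product division ring

Blocks. For a block `X` write the file `Pool/Agent/Work/MP_87745a_sp/B_X.lean`, which imports
`Pool.Agent.Work.MP_87745a_sp.Interface`, works in the namespace `Pool.Agent.Work.MP87745.SP`
(`open Pool.Agent.Work.MP87745.GS`) and proves `theorem p_X : Stmt_X` (with the statements listed in
the column `uses` of the table as hypotheses in that order, for instance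
`theorem p_ALG (hELM : Stmt_ELM.{uD, uA}) (hDEL : Stmt_DEL.{uG, uD, uB}) : Stmt_ALG.{uG, uD, uA, uB}`;
keep all universes free). Auxiliary lemmas get the prefix `X_`.

`Gr.lean` of helper92 has the graded calculus: `pr 𝒜 P` (projection to the degrees in `P`),
`W 𝒜 P` (its range), `WF 𝒜 U` (a subfield, `U` a subgroup), `pr_mul_left`, `pr_mul_right`,
`mul_mem_W`, `sum_pr`, `pr_zero_of`, `eq_zero_of`, `inv_mem_singleton`, `exists_finset`, ….
-/

set_option autoImplicit false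

universe uG uD uA uB uΓ

namespace Pool.Agent.Work.MP87745.SP

open Pool.Agent.Work.MP87745.GS

/-! ## Support sets for the directed group -/

/-- `Sg ⊆ B \ {1}` finite, `s ∈ Sg`, `s * s` is a product of two elements of `Sg ∪ {1}` only as
`s * s`, it is not in `Sg ∪ {1}`, and the quotients of elements of `Sg` generate `B`. -/
structure Good {B : Type uB} [CommGroup B] [DecidableEq B] (Sg : Finset B) (s : B) : Prop where
  mem : s ∈ Sg
  one : (1 : B) ∉ Sg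
  sq : s * s ∉ insert 1 Sg
  uniq : ∀ σ ∈ insert 1 Sg, ∀ σ' ∈ insert 1 Sg, σ * σ' = s * s → σ = s ∧ σ' = s
  gen : Subgroup.closure {u : B | ∃ σ ∈ Sg, ∃ σ' ∈ Sg, u = σ * σ'⁻¹} = ⊤

/-- Block GOD (about 60 lines). Proof. Choose a linear order on `B` (`Finite B`: use
`WellOrderingRel` or `linearOrderOfSTO`, or an injection to `ℕ`), let
`V = {u | u * u ≠ 1 ∧ u ≠ s ∧ u ≠ s⁻¹ ∧ u < u⁻¹}` and `Sg = {s} ∪ {s * u | u ∈ V}`. For `u` in the
given generating set `u ≠ u⁻¹`, so `u ∈ V` or `u⁻¹ ∈ V`; and `(s * u) * s⁻¹ = u`, so `gen`. `1 ∉ Sg`: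
`s ≠ 1` as `s * s ≠ 1`; `s * u = 1` gives `u = s⁻¹`. `s * s ≠ 1`, `s * s ≠ s`, `s * s = s * u` gives
`u = s`. `uniq`: write the elements of `insert 1 Sg` as `s * e` with `e = s⁻¹`, `e = 1` or `e ∈ V`;
the condition is `e * e' = 1`; `e = e' = 1` is the wanted case; `e = s⁻¹` needs `e' = s`: excluded for
`e' = s⁻¹` (`s * s ≠ 1`), `e' = 1`, `e' ∈ V` (`≠ s`); `e = 1`, `e' ∈ V`: `e' = 1` contradicts
`e' * e' ≠ 1`; `e, e' ∈ V`: `e' = e⁻¹`, but `e < e⁻¹ = e' < e'⁻¹ = e`. -/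
def Stmt_GOD : Prop :=
  ∀ (B : Type uB) [CommGroup B] [Finite B] [DecidableEq B] (s : B), s * s ≠ 1 →
    Subgroup.closure {u : B | u * u ≠ 1 ∧ u ≠ s ∧ u ≠ s⁻¹} = ⊤ → ∃ Sg : Finset B, Good Sg s

/-! ## Elimination -/

/-- Block ELM (about 150 lines, adapt `ELIM.lean` of helper92 in `Work/MP_87745a_al_gs`; there the
first three conclusions are proved by induction on `J0`, with
`κ' k l = κ₁ k l - κ₁ k i * (κ₁ i i + θ i)⁻¹ * κ₁ i l`). New: the columns `l ∈ J0` of `κ'` are put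
to `0` (so the equations have full sums and eliminations can be composed), the column `l` does not
change if it is zero in the rows of `J0`, and a property `Q` which is inherited by deleting one
index is inherited by deleting all of `J0`. (In the induction step the matrix `κ₁` with the columns
of `J` zero; the new matrix is `if l = i then 0 else κ₁ k l - κ₁ k i * P⁻¹ * κ₁ i l`, and `P ≠ 0`,
`P⁻¹` are as in `ELIM.lean`.) -/
def Stmt_ELM : Prop :=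
  ∀ (D : Type uD) [DivisionRing D] (I : Type uA) [Fintype I] [DecidableEq I] (κ : I → I → D)
    (θ : I → D) (K : Finset I → Subfield D), (∀ J J', J ⊆ J' → K J ≤ K J') →
    (∀ k l, κ k l ∈ K ∅) → ∀ (J0 : Finset I),
    (∀ J ⊆ J0, ∀ i ∈ J0, i ∉ J → θ i ∉ K J) → (∀ i ∈ J0, θ i ∈ K {i}) → ∀ (Q : D → Prop),
    (∀ J ⊆ J0, ∀ i ∈ J0, i ∉ J → ∀ f ρ e r : D, f ∈ K J → ρ ∈ K J → e ∈ K J → r ∈ K J →
      Q (f - ρ * (e + θ i)⁻¹ * r) → Q f) →
    ∃ κ' : I → I → D, (∀ k l, κ' k l ∈ K J0) ∧ (∀ k, ∀ l ∈ J0, κ' k l = 0) ∧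
      (∀ y : I → D, (∀ i ∈ J0, (∑ l, κ i l * y l) + θ i * y i = 0) →
        ∀ k ∉ J0, ∑ l, κ k l * y l = ∑ l, κ' k l * y l) ∧
      (∀ k ∉ J0, ∀ l ∉ J0,
        (∃ m, Relation.ReflTransGen (fun u v => κ v u ≠ 0 ∧ v ∈ J0) l m ∧ κ k m ≠ 0) →
          κ' k l ≠ 0) ∧
      (∀ l ∉ J0, (∀ i ∈ J0, κ i l = 0) → ∀ k ∉ J0, κ' k l = κ k l) ∧
      (∀ k ∉ J0, ∀ l ∉ J0, Q (κ' k l) → Q (κ k l))

/-! ## The deletion lemma -/

/-- Block DEL (about 150 lines), the deletion lemma. `Y = ∑ σ ∈ Sg, θ σ` has components of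
`X`-degree `σ`, `f, ρ, e, r` have `X`-degree `1`. If `F = f - ρ (e + Y)⁻¹ r` has all degrees in the
right coset `M s₀`, then so has `f`.
Proof. `e + Y ≠ 0` and even `e + Y ∉ W {h ∈ K, X h = 1}` (its component at `T s` is `θ s ≠ 0`).
If `ρ = 0` or `r = 0`, then `F = f`. Otherwise let `u = ρ (e + Y)⁻¹ r` (so `u ∈ W K`, `F = f - u`),
`v = u⁻¹ = r⁻¹ e ρ⁻¹ + ∑ σ, r⁻¹ θ_σ ρ⁻¹`. So `v = ∑ σ ∈ insert 1 Sg, v_σ` with `v_σ` in
`W {h ∈ K, X h = σ}` and `g := v_s = r⁻¹ θ_s ρ⁻¹ ≠ 0`. Let `R = {h | h * s₀⁻¹ ∈ M}` and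
`q = pr {h ∈ K, X h = 1, h ∉ R} u`. Then `u - q ∈ W R`: `pr {X ≠ 1} u = - pr {X ≠ 1} F ∈ W R`, and
`pr {X = 1, h ∉ R} u` is exactly what is subtracted. Suppose `q ≠ 0`. Take `h ∈ K` with
`g' := pr (h M) g ≠ 0` (`h M = {x | h⁻¹ * x ∈ M}`; take `h` with a nonzero component of `g`), let
`v' = pr (h M) v` and `c_σ = pr (h M) v_σ`, so `v' = ∑ c_σ`, `c_s = g'`. As
`h M M s₀ = h M s₀ =: R'` (`R' = {x | h⁻¹ * x ∈ R}`), and `x ∈ K`, `x ∉ h M`, `z ∈ R` imply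
`x z ∉ R'`, one has `pr R' (v (u - q)) = v' (u - q)`. So
`v' (u - q) + pr R' (v q) = pr R' (v u) = pr R' 1 =: ε ∈ {0, 1}`. Multiply by `v` on the right:
`v' - v' q v + pr R' (v q) v = ε v`. Apply `pr {h ∈ K, X h = s * s}`: `v`, `v'` give `0` (`sq`), in
`v' q v = ∑ c_σ q v_σ'` and in `pr R' (v q) v = ∑ pr R' (v_σ q) v_σ'` only `σ = σ' = s` survives
(`uniq`, `q` has `X`-degree `1`). So `g' q v_s = pr R' (g q) v_s`, that is `g' q = pr R' (g q) ∈ W R'`.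
Take `0 ≠ z ∈ 𝒜 (h⁻¹)` (`h𝒜`): `z g' ∈ W M` (a subfield), nonzero, `z g' q ∈ W R`, so
`q = (z g')⁻¹ (z g' q) ∈ W R` (`M R ⊆ R`); but `q ∈ W {x | x ∉ R}`, so `q = 0`. So `q = 0`, and
`f = F + u` with `u ∈ W R`. -/
def Stmt_DEL : Prop :=
  ∀ (G : Type uG) [Group G] (D : Type uD) [DivisionRing D] [DecidableEq (Additive G)]
    (𝒜 : Additive G → AddSubgroup D) [GradedRing 𝒜], (∀ g : Additive G, 𝒜 g ≠ ⊥) →
    ∀ (B : Type uB) [CommGroup B] [DecidableEq B] (Sg : Finset B) (s : B), s ∈ Sg →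
    s * s ∉ insert 1 Sg →
    (∀ σ ∈ insert 1 Sg, ∀ σ' ∈ insert 1 Sg, σ * σ' = s * s → σ = s ∧ σ' = s) → (1 : B) ∉ Sg →
    ∀ (K : Subgroup G) (X : G → B), (∀ g ∈ K, ∀ h ∈ K, X (g * h) = X g * X h) →
    ∀ (T : B → G), (∀ σ ∈ Sg, T σ ∈ K) → (∀ σ ∈ Sg, X (T σ) = σ) →
    ∀ (θ : B → D), (∀ σ ∈ Sg, θ σ ∈ W 𝒜 ({T σ} : Set G)) → (∀ σ ∈ Sg, θ σ ≠ 0) →
    ∀ (M : Subgroup G), M ≤ K → ∀ s₀ ∈ K, ∀ f ρ e r : D,
    f ∈ W 𝒜 {h | h ∈ K ∧ X h = 1} → ρ ∈ W 𝒜 {h | h ∈ K ∧ X h = 1} →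
    e ∈ W 𝒜 {h | h ∈ K ∧ X h = 1} → r ∈ W 𝒜 {h | h ∈ K ∧ X h = 1} →
    f - ρ * (e + ∑ σ ∈ Sg, θ σ)⁻¹ * r ∈ W 𝒜 {h | h * s₀⁻¹ ∈ M} →
    f ∈ W 𝒜 {h | h * s₀⁻¹ ∈ M}

/-! ## The algebraic step -/

/-- the data of the algebraic step: exponents `X j` (`j ∈ A`, `j ≠ 1`), action `cc` on the next
letter, directed elements `T k σ` with homogeneous `θ k σ`, a matrix `κ` of elements of trivial
degree, and the equations for `y`. -/
structure Alg {G : Type uG} [Group G] {D : Type uD} [DivisionRing D] [DecidableEq (Additive G)]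
    (𝒜 : Additive G → AddSubgroup D) [GradedRing 𝒜] {A : Type uA} [Group A] [Fintype A]
    [DecidableEq A] {B : Type uB} [CommGroup B] [DecidableEq B] (Sg : Finset B) (w : A → B →* A)
    (K : Subgroup G) (X : A → G → B) (cc : G → A) (T : A → B → G) (θ : A → B → D)
    (κ : A → A → D) (x : A → D) (y : A → D) : Prop where
  hX : ∀ l, ∀ g ∈ K, ∀ h ∈ K, X l (g * h) = X l g * X l h
  hcc : ∀ g ∈ K, ∀ h ∈ K, cc (g * h) = cc g * cc h
  hT : ∀ k, k ≠ 1 → ∀ σ ∈ Sg, T k σ ∈ K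
  hXT : ∀ k, k ≠ 1 → ∀ σ ∈ Sg, ∀ l, l ≠ 1 → X l (T k σ) = if l = k then σ else 1
  hcT : ∀ k, k ≠ 1 → ∀ σ ∈ Sg, cc (T k σ) = w k σ
  hθ : ∀ k, ∀ σ ∈ Sg, θ k σ ∈ W 𝒜 ({T k σ} : Set G)
  hθ0 : ∀ k, ∀ σ ∈ Sg, θ k σ ≠ 0
  hκ : ∀ k l, κ k l ∈ W 𝒜 {h | h ∈ K ∧ cc h = 1 ∧ ∀ j, j ≠ 1 → X j h = 1}
  hκx : ∀ k l, κ k l ≠ 0 ↔ x (k * l⁻¹) ≠ 0
  heq : ∀ k, ∑ l, κ k l * y l + (∑ σ ∈ Sg, θ k σ) * y k = if k = 1 then 1 else 0

/-- the algebraic step for a class `Cl` of supports -/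
def AlgOK {G : Type uG} [Group G] {D : Type uD} [DivisionRing D] [DecidableEq (Additive G)]
    (𝒜 : Additive G → AddSubgroup D) [GradedRing 𝒜] {A : Type uA} [Group A] [Fintype A]
    [DecidableEq A] {B : Type uB} [CommGroup B] [DecidableEq B] (Sg : Finset B) (w : A → B →* A)
    (Cl : Set A → Prop) : Prop :=
  ∀ (K : Subgroup G) (X : A → G → B) (cc : G → A) (T : A → B → G) (θ : A → B → D)
    (κ : A → A → D) (x : A → D) (y : A → D), Alg 𝒜 Sg w K X cc T θ κ x y →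
    Cl {m | x m ≠ 0} →
    ∃ F ∈ W 𝒜 (K : Set G), (F + ∑ σ ∈ Sg, θ 1 σ) * y 1 = 1 ∧
      Cl {m | pr 𝒜 {h | h ∈ K ∧ cc h = m} F ≠ 0}

/-- Block PTH (about 120 lines), pure combinatorics. `k → l` (a step) means `E k l`. Proof.
(i) The submonoid generated by `C` is `A` (`A` finite: inverses are powers), so for all `k, l` there
is a path `k = b₀, b₁, …, b_t = l` with `b_i * b_{i+1}⁻¹ ∈ C` (`b_{i+1} = m⁻¹ * b_i`, `m ∈ C`). For
`k, l ∉ Z` split it at its visits of the complement of `Z`: this gives a path of `E`-steps from `k` to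
`l` outside of `Z` (`hE`; note the orientation: in `hE` the chain goes from `l` backwards through `Z`
to `m`, and then `k * m⁻¹ ∈ C`). Suggestion: prove by `Relation.ReflTransGen.head_induction_on` or
`Nat` induction that every `k ∉ Z` reaches `l` by `E`-steps: the set of `k` with `k ∉ Z → k` reaches
`l`, and `k ∈ Z →` for some `e ∉ Z` reaching `l` (or `e = l`) there is a chain from `e` backwards
through `Z` to `k` contains `l` and is closed under `k ↦ m * k`, `m ∈ C`.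
(ii) Take `j ≠ 1`, `j ∉ Z`; on a path from `j` to `1` the last index before the first visit of `1`
is a `p ≠ 1`, `p ∉ Z`, `E p 1`. On a path from `1` to `p` let `k` be the first index with `k ≠ 1`,
`E k 1`; all indices before `k` are `1` or in `I' = {v ≠ 1, v ∉ Z, ¬ E v 1}`; the part from the last
visit of `1` before `k` is a path `1 → m → … → k` whose interior is in `I'`. -/
def Stmt_PTH : Prop :=
  ∀ (A : Type uA) [Group A] [Fintype A] [DecidableEq A] (Z : Finset A), (1 : A) ∉ Z →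
    (∃ j, j ≠ 1 ∧ j ∉ Z) → ∀ (C : Set A), Subgroup.closure C = ⊤ → ∀ (E : A → A → Prop),
    (∀ k ∉ Z, ∀ l ∉ Z,
      (∃ m, Relation.ReflTransGen (fun u v => v * u⁻¹ ∈ C ∧ v ∈ Z) l m ∧ k * m⁻¹ ∈ C) → E k l) →
    ∃ k, k ≠ 1 ∧ k ∉ Z ∧ E k 1 ∧
      ∃ m, Relation.ReflTransGen (fun u v => E v u ∧ v ≠ 1 ∧ v ∉ Z ∧ ¬ E v 1) k m ∧ E 1 m

/-- Block ALG (about 250 lines): the algebraic step in the main case. Proof. Write
`Y k = ∑ σ ∈ Sg, θ k σ`. For `J : Finset A` let `KJ J` be `WF` of the subgroup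
`{h ∈ K | ∀ j, j ≠ 1 → j ∉ J → X j h = 1}`; for `k ≠ 1`: `Y k ∈ KJ {k}`, `Y k ∉ KJ J` for `k ∉ J`
(the component at `T k s` is `θ k s ≠ 0`: the `T k σ` are different as their `X k` are `σ`).
Everything except `y 1` is eliminated in four steps: with `H` as below first `Z`, then `I'`, then one
index `k`, then the rest `O`; the result is `F` with `(F + Y 1) y 1 = 1` (rows `k ≠ 1` have right side
`0`). `F` does not depend on the order: `F = (y 1)⁻¹ - Y 1`, as `(F + Y 1) * y 1 = 1`. So first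
eliminate `univ.erase 1` at once to get `F`, `F ∈ W K`, and then show: for a proper subgroup `H` of
`A` one has `F ∉ W {h ∈ K | cc h ∈ H}` (this gives the claim: if the closure `H` of the support of
`F` is not `⊤`, then `F ∈ W {h ∈ K | cc h ∈ H}`, by `sum_pr`). Suppose `F ∈ W R`,
`R = {h ∈ K | cc h ∈ H} =: M` (a subgroup, `s₀ = 1` in DEL), let `Q z = (z ∈ W M)`.
(1) `Z = {k ≠ 1 | ∀ β, w k β ∈ H}`, ELM with `K J = WF {h ∈ K | cc h ∈ H, X j h = 1 (j ≠ 1, j ∉ J)}`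
gives `κ¹` with entries in `W M` and `X j = 1` for `j ∉ Z` (`T k σ ∈ M` for `k ∈ Z`).
(2) `I' = {l ≠ 1, l ∉ Z | κ¹ l 1 = 0}`; ELM with `K J = KJ (Z ∪ J)` gives `κ²`, `κ² k 1 = κ¹ k 1` for
`k ∉ I'`, `k ∉ Z` (column property) — also for `k = 1`.
(3) PTH with `C = {m | x m ≠ 0}`, `E k l := κ¹ k l ≠ 0` (path property of (1)) gives `k ≠ 1`, `k ∉ Z`
with `κ¹ k 1 ≠ 0` (so `k ∉ I'`), and `κ² 1 k ≠ 0` by the path property of (2); `κ² k 1 = κ¹ k 1 ≠ 0`.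
`Z ≠ univ.erase 1` since otherwise all `w v β`, `v ≠ 1`, are in `H`.
(4) By hand: `κ³ a b = if b = k then 0 else κ² a b - κ² a k (κ² k k + Y k)⁻¹ κ² k b`. ELM for the rest
`O` with `Q` (hypothesis on `Q`: DEL with `X = X i`) and
`K J = KJ (Z ∪ I' ∪ {k} ∪ J)` gives `κ⁴` with `κ⁴ 1 l = 0` for `l ≠ 1` (columns `O`: ELM; columns in `Z`,
`I'`, `{k}` are zero in the rows `1` and `O` of `κ³`, column property), so
`(κ⁴ 1 1 + Y 1) y 1 = 1`, `κ⁴ 1 1 = F`, `Q F`, so `κ³ 1 1 ∈ W M`.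
(5) `κ² 1 1 = κ¹ 1 1 ∈ W M`, `r := κ² k 1 = κ¹ k 1 ∈ W M`, nonzero, `ρ := κ² 1 k ≠ 0`. So
`u := ρ (κ² k k + Y k)⁻¹ r ∈ W M`, `u ≠ 0`, `(κ² k k + Y k) ρ⁻¹ = r u⁻¹ ∈ W M`. Take the part with
`X k = σ` (`σ ∈ Sg`; `κ² k k`, `ρ⁻¹` have `X k = 1`): `θ k σ ρ⁻¹ ∈ W M`. For `σ, σ' ∈ Sg`:
`θ k σ (θ k σ')⁻¹ ∈ W M`, and it is nonzero of degree `T k σ (T k σ')⁻¹`, so this is in `M`, so
`w k (σ σ'⁻¹) ∈ H`. By `gen` the range of `w k` is in `H`, so `k ∈ Z`, contradiction. -/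
def Stmt_ALG : Prop :=
  ∀ (G : Type uG) [Group G] (D : Type uD) [DivisionRing D] [DecidableEq (Additive G)]
    (𝒜 : Additive G → AddSubgroup D) [GradedRing 𝒜], (∀ g : Additive G, 𝒜 g ≠ ⊥) →
    ∀ (A : Type uA) [Group A] [Fintype A] [DecidableEq A] (B : Type uB) [CommGroup B]
    [DecidableEq B] (Sg : Finset B) (s : B), Good Sg s → ∀ (w : A → B →* A),
    Subgroup.closure {a : A | ∃ v, v ≠ 1 ∧ ∃ β, a = w v β} = ⊤ →
    AlgOK 𝒜 Sg w (fun C => Subgroup.closure C = ⊤)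

/-- Block AL2 (about 120 lines): the algebraic step for `|A| = 2` and `Sg = B \ {1}`. Proof.
`A = {1, k}`, `x k ≠ 0` (else the support is in `{1}`), so `κ k 1 ≠ 0`, `κ 1 k ≠ 0` (`k⁻¹ = k`).
`P = κ k k + Y k ≠ 0` with `Y k = ∑ σ ∈ Sg, θ k σ` (component at some `T k σ`, `Sg ≠ ∅` since
`w k ≠ 1`), `F = κ 1 1 - κ 1 k P⁻¹ κ k 1`. If the closure `H` of the support of `F` is not `⊤`, it is
`⊥`, so `F ∈ W {h ∈ K | cc h = 1} =: W M`; then `κ 1 k P⁻¹ κ k 1 ∈ W M`, so `P ∈ W M` (all `κ` are in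
the subfield `W M`), so `Y k ∈ W M`, so `T k σ ∈ M` for all `σ ∈ Sg` (projection to `{T k σ}`; the
`T k σ` are different), so `w k σ = 1` for all `σ`: contradiction. -/
def Stmt_AL2 : Prop :=
  ∀ (G : Type uG) [Group G] (D : Type uD) [DivisionRing D] [DecidableEq (Additive G)]
    (𝒜 : Additive G → AddSubgroup D) [GradedRing 𝒜] (A : Type uA) [Group A] [Fintype A]
    [DecidableEq A] (B : Type uB) [CommGroup B] [Fintype B] [DecidableEq B] (w : A → B →* A),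
    Fintype.card A = 2 → Subgroup.closure {a : A | ∃ v, v ≠ 1 ∧ ∃ β, a = w v β} = ⊤ →
    AlgOK 𝒜 (Finset.univ.erase (1 : B)) w (fun C => Subgroup.closure C = ⊤)

/-- Block AL3 (about 300 lines): the algebraic step for `|A| = 3`, `B ∋ s` of order `3`, `Sg = {s}`;
the class are the supports with at least two elements. Proof. `A = {1, k, l}`, `l = k⁻¹ = k * k`,
`θ_k = θ k s` etc. `κ` is nonzero at `(1,1), (k,k), (l,l)` iff `x 1 ≠ 0`; at `(1,l), (l,k), (k,1)` iff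
`x k ≠ 0`; at `(1,k), (k,l), (l,1)` iff `x l ≠ 0`. `c_k = w k s`, `c_l = w l s`, not both `1`.
All `κ` are in `W N`, `N = {h ∈ K | cc h = 1, X_k h = X_l h = 1}`. `F = (y 1)⁻¹ - θ 1 s` for each order
of elimination, `F ∈ W K`. Suppose that at most one part of `F` is nonzero, so
`F ∈ W {h ∈ K | cc h = d}` for a `d`; this is `{h | h * s₀⁻¹ ∈ M}`, `M = {h ∈ K | cc h = 1}`, for some
`s₀ ∈ K` with `cc s₀ = d` (a suitable power of `T k s` or `T l s`).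
Let `θ` be of `X`-degree `s`, `e` of `X`-degree `1`: `(e + θ)⁻¹` has nonzero parts of `X`-degree
`s` and `s²` if `e ≠ 0` (if `g = (e + θ)⁻¹ = g₀ + g₁ + g₂` then `e g₁ + θ g₀ = 0`,
`e g₂ + θ g₁ = 0`, `e g₀ + θ g₂ = 1`).
(1) `c_k = 1 ≠ c_l` (or the other way round). Eliminate `k`: `R_ab = κ_ab - κ_ak (κ_kk + θ_k)⁻¹ κ_kb`,
which is nonzero if `κ_ab ≠ 0` or `κ_ak, κ_kb ≠ 0`; so `R_1l, R_l1, R_ll ≠ 0` (two of `x 1, x k, x l`
are nonzero); `R_ab ∈ W {cc h = 1, X_l h = 1}`. `F = R_11 - R_1l (R_ll + θ_l)⁻¹ R_l1` has nonzero parts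
at `X_l = s` and `X_l = s²`, which have `cc = c_l`, `cc = c_l²` (as `R, θ_l` are in `W` of the subgroup
`{h ∈ K | cc h = w l (X_l h)}`), but these are different.
(2) `c_k ≠ 1 ≠ c_l`. DEL (with `X_k` and `X_l`, `Sg = {s}`) gives: `F`, and also `F` with one or both
indices deleted, are in `W {cc = d}`: `F_k := κ_11 - κ_1k (κ_kk + θ_k)⁻¹ κ_k1`, `F_l` (same), `κ_11`.
(2a) `x 1 ≠ 0`: `κ_11 ≠ 0`, so `d = 1`. If `x k, x l ≠ 0`: the part of `F_k` at `X_k = s` is nonzero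
and has `cc = c_k ≠ 1`. If `x k ≠ 0 = x l`: `κ_1k = κ_kl = κ_l1 = 0`, eliminating `l` first gives
`ρ := R_1k = - κ_1l (κ_ll + θ_l)⁻¹ κ_lk ≠ 0`, `R_k1 = κ_k1`, `R_kk = κ_kk`, `R_11 = κ_11`, so
`ρ (κ_kk + θ_k)⁻¹ κ_k1 = κ_11 - F ∈ W {cc = 1}`, so `(κ_kk + θ_k) ρ⁻¹ ∈ W {cc = 1}`; the parts at
`X_k = 1` and `X_k = s` are `κ_kk ρ⁻¹` and `θ_k ρ⁻¹`, so `ρ ∈ W {cc = 1}` and `c_k = 1`, contradiction.
Same for `x l ≠ 0 = x k`.
(2b) `x 1 = 0`, `x k, x l ≠ 0`: `F_k = - κ_1k θ_k⁻¹ κ_k1 ≠ 0`, so `c_k⁻¹ = d`; same `c_l⁻¹ = d`. So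
`c_k = c_l = d⁻¹ =: c ≠ 1`. Eliminate `k`, then `l`: `R_1l = κ_1l - κ_1k θ_k⁻¹ κ_kl`,
`R_l1 = κ_l1 - κ_lk θ_k⁻¹ κ_k1`, `R_ll = - κ_lk θ_k⁻¹ κ_kl`, `R_11 = F_k`;
`u = R_1l (R_ll + θ_l)⁻¹ R_l1 = F_k - F ∈ W {cc = d}`, `u ≠ 0`, so
`u⁻¹ = R_l1⁻¹ (R_ll + θ_l) R_1l⁻¹ ∈ W {cc = d⁻¹}`; its part at `X_l = s` is `R_l1⁻¹ θ_l R_1l⁻¹`, so
`R_1l θ_l⁻¹ R_l1 ∈ W {cc = d}`; its part at `X_k = s⁻² = s` is
`κ_1k θ_k⁻¹ κ_kl θ_l⁻¹ κ_lk θ_k⁻¹ κ_k1 ≠ 0`, with `cc = c⁻³ = 1`. So `d = 1`, contradiction. -/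
def Stmt_AL3 : Prop :=
  ∀ (G : Type uG) [Group G] (D : Type uD) [DivisionRing D] [DecidableEq (Additive G)]
    (𝒜 : Additive G → AddSubgroup D) [GradedRing 𝒜], (∀ g : Additive G, 𝒜 g ≠ ⊥) →
    ∀ (A : Type uA) [Group A] [Fintype A] [DecidableEq A] (B : Type uB) [CommGroup B]
    [DecidableEq B] (s : B), s ≠ 1 → s * s * s = 1 → ∀ (w : A → B →* A),
    Fintype.card A = 3 → (∃ k, k ≠ 1 ∧ w k s ≠ 1) →
    AlgOK 𝒜 {s} w (fun C => ∃ m₁ ∈ C, ∃ m₂ ∈ C, m₁ ≠ m₂)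

/-! ## Self-similarity data and stages -/

/-- self-similarity data of a spinal group: rooted elements `r n a`, directed elements `d n β`
(section `d (n+1) β` at the letter `1` and `r (n+1) (ω n v β)` at the letter `v ≠ 1`) -/
structure Data (A : Type uA) (B : Type uB) [Group A] [DecidableEq A] [CommGroup B]
    (ω : ℕ → A → B →* A) (Γ : ℕ → Type uΓ) [∀ n, Group (Γ n)] where
  /-- rooted elements -/
  r : ∀ n, A →* Γ n
  /-- directed elements -/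
  d : ∀ n, B →* Γ n
  /-- action on the first letter -/
  c : ∀ n, Γ n →* A
  /-- sections -/
  sec : ∀ n, Γ n → A → Γ (n + 1)
  /-- content -/
  τ : ∀ n, Γ n →* B
  c_r : ∀ n a, c n (r n a) = a
  c_d : ∀ n β, c n (d n β) = 1
  sec_mul : ∀ n g h v, sec n (g * h) v = sec n g (c n h * v) * sec n h v
  sec_r : ∀ n a v, sec n (r n a) v = 1
  sec_d : ∀ n β v, sec n (d n β) v = if v = 1 then d (n + 1) β else r (n + 1) (ω n v β)
  τ_r : ∀ n a, τ n (r n a) = 1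
  τ_d : ∀ n β, τ n (d n β) = β

/-- group part of stage `n` of the descent -/
structure Stg {A : Type uA} {B : Type uB} [Group A] [DecidableEq A] [CommGroup B]
    {ω : ℕ → A → B →* A} {Γ : ℕ → Type uΓ} [∀ n, Group (Γ n)] (S : Data A B ω Γ)
    {G : Type uG} [Group G] (n : ℕ) (U : Subgroup G) (π : G → Γ n) (a' : A → G) (t' : B → G) :
    Prop where
  mul : ∀ g ∈ U, ∀ h ∈ U, π (g * h) = π g * π h
  ha : ∀ k, a' k ∈ U
  ha1 : a' 1 = 1
  πa : ∀ k, π (a' k) = S.r n k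
  ht : ∀ β, t' β ∈ U
  πt : ∀ β, π (t' β) = S.d n β

/-- Block STG (about 120 lines, adapt `Stage.lean` of helper92): the next stage. `U' = {g ∈ U |
c (π g) = 1}`, `π' g = sec n (π g) 1`, `t'` unchanged; `π' (t' β) = d (n+1) β`. The `k ∈ A` for which
there is `g ∈ U'` with `π' g = r (n+1) k` form a subgroup which contains all `ω n v β`, `v ≠ 1`: take
`g = (a' v)⁻¹ * t' β * a' v`, whose section at the letter `u` is the section of `d n β` at `v * u`.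
So it is `⊤`; choose `a''`, with `a'' 1 = 1`. -/
def Stmt_STG : Prop :=
  ∀ (A : Type uA) (B : Type uB) [Group A] [DecidableEq A] [CommGroup B] (ω : ℕ → A → B →* A)
    (Γ : ℕ → Type uΓ) [∀ n, Group (Γ n)] (S : Data A B ω Γ) (G : Type uG) [Group G] (n : ℕ)
    (U : Subgroup G) (π : G → Γ n) (a' : A → G) (t' : B → G), Stg S n U π a' t' →
    Subgroup.closure {a : A | ∃ v, v ≠ 1 ∧ ∃ β, a = ω n v β} = ⊤ →
    ∃ (U' : Subgroup G) (a'' : A → G), (∀ g, g ∈ U' ↔ g ∈ U ∧ S.c n (π g) = 1) ∧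
      Stg S (n + 1) U' (fun g => S.sec n (π g) 1) a'' t'

/-- Block STP (about 280 lines, adapt `step` in `Main.lean` of helper92): one step of the descent.
Proof. Choose `α k ≠ 0` in `W {a' k}` with `α 1 = 1`. `B_l = pr {g ∈ U | c (π g) = l} b`. The part of
degree `{g ∈ U | c (π g) = k}` of `(∑ x m + ∑ θ σ) b = 1` is
`∑ l, x (k l⁻¹) B_l + (∑ θ σ) B_k = [k = 1]`. `κ k l = (α k)⁻¹ x (k l⁻¹) α l`,
`Θ k σ = (α k)⁻¹ θ σ α k ∈ W {T k σ}`, `T k σ = (a' k)⁻¹ * t' σ * a' k`, `y k = (α k)⁻¹ B_k`,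
`K = {g ∈ U' | sec n (π g) 1 ∈ range (r (n+1))}`, `cc g = c (n+1) (sec n (π g) 1)`,
`X l g = τ (n+1) (sec n (π g) l⁻¹)`. The section of `T k σ` at `v` is the section of `d n σ` at
`k * v`, so `Alg` holds with `w = ω n` (`κ k l` has all degrees in `{g ∈ U | π g = 1}`). `AlgOK`
gives `F`; `x' m = pr {g ∈ K | cc g = m} F`, `∑ x' m = F`, `Θ 1 σ = θ σ`, `y 1 = pr U' b`; and for
`g ∈ K`, `cc g = m`: `sec n (π g) 1 = r (n+1) m`. -/
def Stmt_STP : Prop :=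
  ∀ (A : Type uA) (B : Type uB) [Group A] [Fintype A] [DecidableEq A] [CommGroup B]
    [DecidableEq B] (ω : ℕ → A → B →* A) (Γ : ℕ → Type uΓ) [∀ n, Group (Γ n)]
    (S : Data A B ω Γ) (G : Type uG) [Group G] (D : Type uD) [DivisionRing D]
    [DecidableEq (Additive G)] (𝒜 : Additive G → AddSubgroup D) [GradedRing 𝒜],
    (∀ g : Additive G, 𝒜 g ≠ ⊥) → ∀ (Sg : Finset B) (Cl : Set A → Prop) (n : ℕ),
    AlgOK 𝒜 Sg (ω n) Cl → ∀ (U : Subgroup G) (π : G → Γ n) (a' : A → G) (t' : B → G),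
    Stg S n U π a' t' → ∀ (U' : Subgroup G), (∀ g, g ∈ U' ↔ g ∈ U ∧ S.c n (π g) = 1) →
    ∀ (θ : B → D), (∀ σ ∈ Sg, θ σ ∈ W 𝒜 ({t' σ} : Set G)) → (∀ σ ∈ Sg, θ σ ≠ 0) →
    ∀ (x : A → D), (∀ m, x m ∈ W 𝒜 {g | g ∈ U ∧ π g = S.r n m}) → Cl {m | x m ≠ 0} →
    ∀ b : D, (∑ m, x m + ∑ σ ∈ Sg, θ σ) * b = 1 →
    ∃ x' : A → D, (∀ m, x' m ∈ W 𝒜 {g | g ∈ U' ∧ S.sec n (π g) 1 = S.r (n + 1) m}) ∧
      Cl {m | x' m ≠ 0} ∧ (∑ m, x' m + ∑ σ ∈ Sg, θ σ) * pr 𝒜 (U' : Set G) b = 1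

/-- Block DSC (about 200 lines, adapt `descent` and `no_stage` in `Main.lean` of helper92): there is
no stage `0`. Proof. Descent on the size of a finite set of degrees containing the support of `b`, in
the class of all stages `n, U, π, a'` (fixed `t'`, `θ`) with `x` as in STP, `Cl (supp x)`, and
`(∑ x m + ∑ θ σ) b = 1`: if the support of `b` is in `U'`, then `∑ x m = b⁻¹ - ∑ θ σ ∈ W U'`, so
`x m = 0` for `m ≠ 1` (its degrees have `c (π g) = m`), against `hCl`. Otherwise STG and STP give a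
stage with smaller support. Start: `x m` nonzero of degree `a' m` for all `m` (`Cl univ`), `θ σ`
nonzero of degree `t' σ`; the sum is not `0` since its part at the degrees `{g ∈ U | π g = 1}` is
`x 1 ≠ 0` (for `σ ∈ Sg`: `π (t' σ) = d 0 σ ≠ 1` by `τ_d`, `σ ≠ 1`). -/
def Stmt_DSC : Prop :=
  ∀ (A : Type uA) (B : Type uB) [Group A] [Fintype A] [DecidableEq A] [Nontrivial A]
    [CommGroup B] [DecidableEq B] (ω : ℕ → A → B →* A) (Γ : ℕ → Type uΓ) [∀ n, Group (Γ n)]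
    (S : Data A B ω Γ) (G : Type uG) [Group G] (D : Type uD) [DivisionRing D]
    [DecidableEq (Additive G)] (𝒜 : Additive G → AddSubgroup D) [GradedRing 𝒜],
    (∀ g : Additive G, 𝒜 g ≠ ⊥) → ∀ (Sg : Finset B), (1 : B) ∉ Sg → ∀ (Cl : Set A → Prop),
    Cl Set.univ → (∀ C, Cl C → ∃ m ∈ C, m ≠ 1) →
    (∀ n, AlgOK 𝒜 Sg (ω n) Cl) →
    (∀ n, Subgroup.closure {a : A | ∃ v, v ≠ 1 ∧ ∃ β, a = ω n v β} = ⊤) →
    ∀ (U : Subgroup G) (π : G → Γ 0) (a' : A → G) (t' : B → G), Stg S 0 U π a' t' → False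

/-! ## The groups of permutations -/

/-- Block TAU (about 200 lines): the content is well defined. Proof. For a word
`L = [(a₁, β₁), …, (a_m, β_m)]` let `ev n L = r a₁ * d n β₁ * … * r a_m * d n β_m` and
`ct L = β₁ ⋯ β_m`. CLAIM: `ev n L = r a` implies `ct L = 1`, by strong induction on `m`, for all `n`.
(`r` is injective, first letters.) Let `v_i = a_{i+1} ⋯ a_m v`. The section of `ev n L` at the letter
`v` is the product over `i = 1, …, m` of `d (n+1) β_i` if `v_i = 1` and of `r (ω n v_i β_i)`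
otherwise; it is `1` since `ev n L = r a`. It is `ev (n+1) L_v * r a_v` for a word `L_v` whose length
is the number `m_v` of `i` with `v_i = 1` and whose content is the product of these `β_i`. As each
`i` has `v_i = 1` for exactly one `v` (`v = (a_{i+1} ⋯ a_m)⁻¹`), `∑ m_v = m` and `∏_v ct L_v = ct L`
(`A` finite, `B` commutative). If all `m_v < m`, the claim for the `L_v` gives `ct L = 1`. If `m_v = m`,
then all `v_i = 1` and the section at `v` is `d (n+1) (ct L) = 1`, so `ct L = 1` as `d (n+1)` is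
injective. Suggestion: define by recursion on the list, for each `v`, the pair (word, rooted rest);
or prove by induction on `L`: for all `v` there are `L_v`, `a_v` with section `= r a_v * ev (n+1) L_v`
(so no normal form is needed), `length L_v ≤ length L`, with equality only if the section is
`d (n+1) (ct L)` up to the conjugation by rooted elements (here: `L = []` or all `v_i = 1`), and
`∏_v ct L_v = ct L`.
Then: each `g` in the closure is `ev n L * r a` (such products are closed under products and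
inverses, and the content is multiplicative), `τ n g := ct L` is well defined by the CLAIM and a
homomorphism. (Or: `Monoid.Coprod.lift r (d n)` has its kernel in the kernel of
`Monoid.Coprod.lift 1 id`.) -/
def Stmt_TAU : Prop :=
  ∀ (A : Type uA) (B : Type uB) [Group A] [Fintype A] [DecidableEq A] [CommGroup B]
    (ω : ℕ → A → B →* A) (r : A →* Equiv.Perm (Stream' A)),
    (∀ a x y, r a (Stream'.cons x y) = Stream'.cons (a * x) y) →
    ∀ (d : ℕ → B →* Equiv.Perm (Stream' A)),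
    (∀ n β x y, d n β (Stream'.cons x y) =
      Stream'.cons x (if x = 1 then d (n + 1) β y else r (ω n x β) y)) →
    (∀ n, Function.Injective (d n)) → ∀ n,
    ∃ τ : ↥(Subgroup.closure (Set.range r ∪ Set.range (d n))) →* B,
      (∀ a, τ ⟨r a, Subgroup.subset_closure (Or.inl ⟨a, rfl⟩)⟩ = 1) ∧
      ∀ β, τ ⟨d n β, Subgroup.subset_closure (Or.inr ⟨β, rfl⟩)⟩ = β

/-- Block DAT (about 180 lines, adapt `SEC.lean` and `DATA.lean` of helper92; `Stmt_TAU` is a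
hypothesis and gives `τ`): the groups have self-similarity data. -/
def Stmt_DAT : Prop :=
  ∀ (A : Type uA) (B : Type uB) [Group A] [Fintype A] [DecidableEq A] [CommGroup B]
    (ω : ℕ → A → B →* A) (r : A →* Equiv.Perm (Stream' A)),
    (∀ a x y, r a (Stream'.cons x y) = Stream'.cons (a * x) y) →
    ∀ (d : ℕ → B →* Equiv.Perm (Stream' A)),
    (∀ n β x y, d n β (Stream'.cons x y) =
      Stream'.cons x (if x = 1 then d (n + 1) β y else r (ω n x β) y)) →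
    (∀ n, Function.Injective (d n)) →
    ∃ S : Data A B ω (fun n => ↥(Subgroup.closure (Set.range r ∪ Set.range (d n)))),
      (∀ n a, (S.r n a : Equiv.Perm (Stream' A)) = r a) ∧
      ∀ n β, (S.d n β : Equiv.Perm (Stream' A)) = d n β

end Pool.Agent.Work.MP87745.SP
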