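import Mathlib
import Pool.Agent.Work.MP_87745a_sp.Interface

/-!
Assembly of the spinal groups theorem from the blocks.
-/

set_option autoImplicit false

universe uG uD uA uB uΓ

namespace Pool.Agent.Work.MP87745.SP

open Pool.Agent.Work.MP87745.GS

/-- the choice of the supports `Sg` and of the class `Cl` -/
theorem exists_class (hGOD : Stmt_GOD.{uB}) (hALG : Stmt_ALG.{uG, uD, uA, uB})
    (hAL2 : Stmt_AL2.{uG, uD, uA, uB}) (hAL3 : Stmt_AL3.{uG, uD, uA, uB})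
    (A : Type uA) [Group A] [Fintype A] [DecidableEq A] [Nontrivial A] (B : Type uB) [CommGroup B]
    [Finite B] [DecidableEq B] (ω : ℕ → A → B →* A)
    (hω : ∀ n, Subgroup.closure {a : A | ∃ v, v ≠ 1 ∧ ∃ β, a = ω n v β} = ⊤)
    (hAB : (∃ s : B, s * s ≠ 1 ∧ Subgroup.closure {u : B | u * u ≠ 1 ∧ u ≠ s ∧ u ≠ s⁻¹} = ⊤) ∨
      Nat.card A = 2 ∨ (Nat.card A = 3 ∧ Nat.card B = 3))
    (G : Type uG) [Group G] (D : Type uD) [DivisionRing D] [DecidableEq (Additive G)]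
    (𝒜 : Additive G → AddSubgroup D) [GradedRing 𝒜] (h𝒜 : ∀ g : Additive G, 𝒜 g ≠ ⊥) :
    ∃ (Sg : Finset B) (Cl : Set A → Prop), (1 : B) ∉ Sg ∧ Cl Set.univ ∧
      (∀ C, Cl C → ∃ m ∈ C, m ≠ 1) ∧ ∀ n, AlgOK 𝒜 Sg (ω n) Cl := by
  classical
  have hcl : ∀ C : Set A, Subgroup.closure C = ⊤ → ∃ m ∈ C, m ≠ 1 := by
    intro C hC
    by_contra hcon
    push Not at hcon
    have h1 : Subgroup.closure C ≤ ⊥ := by
      rw [Subgroup.closure_le]
      intro m hm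
      rw [hcon m hm]
      exact Subgroup.one_mem _
    rw [hC] at h1
    obtain ⟨a, ha⟩ := exists_ne (1 : A)
    exact ha (Subgroup.mem_bot.1 (h1 (Subgroup.mem_top a)))
  have huniv : Subgroup.closure (Set.univ : Set A) = ⊤ := Subgroup.closure_univ
  rcases hAB with ⟨s, hs, hgen⟩ | hA | ⟨hA, hB⟩
  · obtain ⟨Sg, hSg⟩ := hGOD B s hs hgen
    exact ⟨Sg, fun C => Subgroup.closure C = ⊤, hSg.one, huniv, hcl,
      fun n => hALG G D 𝒜 h𝒜 A B Sg s hSg (ω n) (hω n)⟩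
  · haveI : Fintype B := Fintype.ofFinite B
    rw [Nat.card_eq_fintype_card] at hA
    exact ⟨Finset.univ.erase 1, fun C => Subgroup.closure C = ⊤, by simp, huniv, hcl,
      fun n => hAL2 G D 𝒜 A B (ω n) hA (hω n)⟩
  · haveI : Fintype B := Fintype.ofFinite B
    rw [Nat.card_eq_fintype_card] at hA
    rw [Nat.card_eq_fintype_card] at hB
    have hBn : Nontrivial B := by
      rw [← Fintype.one_lt_card_iff_nontrivial, hB]
      norm_num
    obtain ⟨s, hs⟩ := exists_ne (1 : B)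
    have hs3 : s ^ 3 = 1 := by rw [← hB]; exact pow_card_eq_one
    have hord : orderOf s = 3 := orderOf_eq_prime hs3 hs
    refine ⟨{s}, fun C => ∃ m₁ ∈ C, ∃ m₂ ∈ C, m₁ ≠ m₂, by simpa using hs.symm, ?_, ?_, ?_⟩
    · obtain ⟨a, ha⟩ := exists_ne (1 : A)
      exact ⟨1, Set.mem_univ _, a, Set.mem_univ _, ha.symm⟩
    · rintro C ⟨m₁, h₁, m₂, h₂, h⟩
      by_cases hm : m₁ = 1
      · exact ⟨m₂, h₂, fun h3 => h (by rw [hm, h3])⟩
      · exact ⟨m₁, h₁, hm⟩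
    · intro n
      refine hAL3 G D 𝒜 h𝒜 A B s hs (by rw [← hs3, pow_succ, pow_two]) (ω n) hA ?_
      by_contra hcon
      push Not at hcon
      have htop : ∀ β : B, β ∈ Subgroup.zpowers s := by
        intro β
        have h1 : Subgroup.zpowers s = ⊤ := by
          apply Subgroup.eq_top_of_card_eq
          rw [Nat.card_zpowers, hord, Nat.card_eq_fintype_card, hB]
        rw [h1]
        exact Subgroup.mem_top _
      obtain ⟨m, hm, hm1⟩ := hcl _ (hω n)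
      obtain ⟨v, hv, β, rfl⟩ := hm
      obtain ⟨z, rfl⟩ := Subgroup.mem_zpowers_iff.1 (htop β)
      apply hm1
      rw [map_zpow, hcon v hv, one_zpow]

/-- the theorem, from the blocks -/
theorem main (hGOD : Stmt_GOD.{uB}) (hALG : Stmt_ALG.{uG, uD, uA, uB})
    (hAL2 : Stmt_AL2.{uG, uD, uA, uB}) (hAL3 : Stmt_AL3.{uG, uD, uA, uB})
    (hDSC : Stmt_DSC.{uG, uD, uA, uB, uA}) (hDAT : Stmt_DAT.{uA, uB})
    (A : Type uA) [Group A] [Fintype A] [DecidableEq A] [Nontrivial A] (B : Type uB) [CommGroup B]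
    [Finite B] (ω : ℕ → A → B →* A)
    (hω : ∀ n, Subgroup.closure {a : A | ∃ v, v ≠ 1 ∧ ∃ β, a = ω n v β} = ⊤)
    (hAB : (∃ s : B, s * s ≠ 1 ∧ Subgroup.closure {u : B | u * u ≠ 1 ∧ u ≠ s ∧ u ≠ s⁻¹} = ⊤) ∨
      Nat.card A = 2 ∨ (Nat.card A = 3 ∧ Nat.card B = 3))
    (r : A →* Equiv.Perm (Stream' A))
    (hr : ∀ a x y, r a (Stream'.cons x y) = Stream'.cons (a * x) y)
    (d : ℕ → B →* Equiv.Perm (Stream' A))
    (hd : ∀ n β x y, d n β (Stream'.cons x y) =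
      Stream'.cons x (if x = 1 then d (n + 1) β y else r (ω n x β) y))
    (hinj : ∀ n, Function.Injective (d n))
    (G : Type uG) [Group G] (D : Type uD) [DivisionRing D] [DecidableEq (Additive G)]
    (𝒜 : Additive G → AddSubgroup D) [GradedRing 𝒜] (h𝒜 : ∀ g : Additive G, 𝒜 g ≠ ⊥)
    (H : Subgroup G) (f : H →* Equiv.Perm (Stream' A)) :
    ¬ ((∀ a, r a ∈ f.range) ∧ ∀ β, d 0 β ∈ f.range) := by
  classical
  rintro ⟨hra, hdb⟩
  obtain ⟨Sg, Cl, h1, huniv, hne, halg⟩ :=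
    exists_class hGOD hALG hAL2 hAL3 A B ω hω hAB G D 𝒜 h𝒜
  obtain ⟨S, hSr, hSd⟩ := hDAT A B ω r hr d hd hinj
  choose ra hra using hra
  choose db hdb using hdb
  -- the part of `H` mapped to the spinal group
  set Q : Subgroup (Equiv.Perm (Stream' A)) :=
    Subgroup.closure (Set.range r ∪ Set.range (d 0)) with hQ
  set U : Subgroup G := (Q.comap f).map H.subtype with hU
  have hmem : ∀ g : G, g ∈ U ↔ ∃ hg : g ∈ H, f ⟨g, hg⟩ ∈ Q := by
    intro g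
    constructor
    · rintro ⟨x, hx, rfl⟩
      exact ⟨x.2, hx⟩
    · rintro ⟨hg, hgQ⟩
      exact ⟨⟨g, hg⟩, hgQ, rfl⟩
  have hrQ : ∀ a, r a ∈ Q := fun a => Subgroup.subset_closure (Or.inl ⟨a, rfl⟩)
  have hdQ : ∀ β, d 0 β ∈ Q := fun β => Subgroup.subset_closure (Or.inr ⟨β, rfl⟩)
  set ra' : A → H := fun a => if a = 1 then 1 else ra a with hra'
  have hfra : ∀ a, f (ra' a) = r a := by
    intro a
    rw [hra']
    simp only
    split_ifs with h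
    · rw [map_one, h, map_one]
    · exact hra a
  have h1U : ∀ x : H, f x ∈ Q → (x : G) ∈ U := fun x hx => (hmem _).2 ⟨x.2, by
    rw [Subtype.coe_eta]; exact hx⟩
  let π : G → ↥Q := fun g => if hg : ∃ hg : g ∈ H, f ⟨g, hg⟩ ∈ Q then ⟨f ⟨g, hg.1⟩, hg.2⟩ else 1
  have hπ : ∀ (x : H) (hx : f x ∈ Q), π (x : G) = ⟨f x, hx⟩ := by
    intro x hx
    have h2 : ∃ hg : (x : G) ∈ H, f ⟨x, hg⟩ ∈ Q := ⟨x.2, by rw [Subtype.coe_eta]; exact hx⟩
    show (if hg : ∃ hg : (x : G) ∈ H, f ⟨x, hg⟩ ∈ Q then (⟨f ⟨x, hg.1⟩, hg.2⟩ : ↥Q) else 1) = _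
    rw [dif_pos h2]
  refine hDSC A B ω _ S G D 𝒜 h𝒜 Sg h1 Cl huniv hne halg hω U π (fun a => (ra' a : G))
    (fun β => (db β : G)) ⟨?_, ?_, ?_, ?_, ?_, ?_⟩
  · intro g hg h hh
    obtain ⟨hg1, hg2⟩ := (hmem g).1 hg
    obtain ⟨hh1, hh2⟩ := (hmem h).1 hh
    have e1 := hπ ⟨g, hg1⟩ hg2
    have e2 := hπ ⟨h, hh1⟩ hh2
    have e3 := hπ (⟨g, hg1⟩ * ⟨h, hh1⟩) (by rw [map_mul]; exact Q.mul_mem hg2 hh2)
    rw [Subgroup.coe_mul] at e3
    simp only at e1 e2 e3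
    rw [e3, e1, e2]
    exact Subtype.ext (map_mul f _ _)
  · intro a
    exact h1U _ (by rw [hfra]; exact hrQ a)
  · simp [hra']
  · intro a
    rw [hπ (ra' a) (by rw [hfra]; exact hrQ a)]
    refine Subtype.ext ?_
    show f (ra' a) = (S.r 0 a : Equiv.Perm (Stream' A))
    rw [hSr, hfra]
  · intro β
    exact h1U _ (by rw [hdb]; exact hdQ β)
  · intro β
    rw [hπ (db β) (by rw [hdb]; exact hdQ β)]
    refine Subtype.ext ?_
    show f (db β) = (S.d 0 β : Equiv.Perm (Stream' A))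
    rw [hSd, hdb]

end Pool.Agent.Work.MP87745.SP
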