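import Pool.Agent.Work.MP_87745a_sp.Interface

/-!
# Block AL2: the algebraic step for `|A| = 2`
-/

set_option autoImplicit false

universe uG uD uA uB uΓ

namespace Pool.Agent.Work.MP87745.SP

open Pool.Agent.Work.MP87745.GS

theorem AL2_pr {G : Type uG} [Group G] {D : Type uD} [DivisionRing D]
    [DecidableEq (Additive G)] (𝒜 : Additive G → AddSubgroup D) [GradedRing 𝒜] {B : Type uB}
    [DecidableEq B] (Sg : Finset B) (T : B → G) (θ : B → D)
    (hinj : ∀ σ ∈ Sg, ∀ σ' ∈ Sg, T σ = T σ' → σ = σ')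
    (hθ : ∀ σ ∈ Sg, θ σ ∈ W 𝒜 ({T σ} : Set G)) (σ : B) (hσ : σ ∈ Sg) :
    pr 𝒜 ({T σ} : Set G) (∑ σ' ∈ Sg, θ σ') = θ σ := by
  rw [map_sum, Finset.sum_eq_single_of_mem σ hσ]
  · exact (mem_W 𝒜).1 (hθ σ hσ)
  · intro σ' hσ' hne
    refine pr_zero_of 𝒜 ?_ (hθ σ' hσ')
    intro g hg hg'
    rw [Set.mem_singleton_iff] at hg hg'
    exact hne (hinj σ' hσ' σ hσ (hg.symm.trans hg'))

/-- the subgroup of the elements of `K` with `cc h = 1` -/
def AL2_M {G : Type uG} [Group G] {A : Type uA} [Group A] (K : Subgroup G) (cc : G → A)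
    (hcc : ∀ g ∈ K, ∀ h ∈ K, cc (g * h) = cc g * cc h) : Subgroup G where
  carrier := {h | h ∈ K ∧ cc h = 1}
  one_mem' := by
    refine ⟨K.one_mem, ?_⟩
    have h := hcc 1 K.one_mem 1 K.one_mem
    rw [mul_one] at h
    exact (left_eq_mul.1 h)
  mul_mem' := by
    rintro a b ⟨ha, ha'⟩ ⟨hb, hb'⟩
    exact ⟨K.mul_mem ha hb, by rw [hcc a ha b hb, ha', hb', mul_one]⟩
  inv_mem' := by
    rintro a ⟨ha, ha'⟩
    refine ⟨K.inv_mem ha, ?_⟩
    have h1 := hcc 1 K.one_mem 1 K.one_mem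
    rw [mul_one] at h1
    have h2 := hcc a ha a⁻¹ (K.inv_mem ha)
    rw [mul_inv_cancel, left_eq_mul.1 h1, ha', one_mul] at h2
    exact h2.symm

theorem p_AL2 : Stmt_AL2.{uG, uD, uA, uB} := by
  intro G _ D _ _ 𝒜 _ A _ _ _ B _ _ _ w hcard hgen K X cc T θ κ x y hA hx
  classical
  -- the group of order two
  obtain ⟨k, hk1, hall⟩ : ∃ k : A, k ≠ 1 ∧ ∀ a : A, a = 1 ∨ a = k := by
    have h1 : 1 < Fintype.card A := by omega
    haveI : Nontrivial A := Fintype.one_lt_card_iff_nontrivial.1 h1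
    obtain ⟨k, hk⟩ := exists_ne (1 : A)
    refine ⟨k, hk, ?_⟩
    intro a
    by_contra hcon
    rw [not_or] at hcon
    have h3 : ({1, k, a} : Finset A).card = 3 := by
      rw [Finset.card_eq_three]
      exact ⟨1, k, a, hk.symm, fun h => hcon.1 h.symm, fun h => hcon.2 h.symm, rfl⟩
    have h4 := Finset.card_le_univ ({1, k, a} : Finset A)
    omega
  haveI : Nontrivial A := ⟨⟨k, 1, hk1⟩⟩
  have hkk : k⁻¹ = k := by
    rcases hall k⁻¹ with h | h
    · exact absurd (inv_eq_one.1 h) hk1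
    · exact h
  have hsum : ∀ f : A → D, ∑ l, f l = f 1 + f k := by
    intro f
    have hu : (Finset.univ : Finset A) = {1, k} := by
      ext a
      simp only [Finset.mem_univ, Finset.mem_insert, Finset.mem_singleton, true_iff]
      exact hall a
    rw [hu, Finset.sum_pair hk1.symm]
  have hxk : x k ≠ 0 := by
    intro h0
    have h1 : Subgroup.closure {m | x m ≠ 0} ≤ ⊥ := by
      rw [Subgroup.closure_le]
      intro m hm
      rcases hall m with h | h
      · rw [h]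
        exact Subgroup.one_mem _
      · exact absurd (h ▸ h0) hm
    rw [hx, top_le_iff] at h1
    exact bot_ne_top h1
  obtain ⟨β, hβ⟩ : ∃ β, w k β ≠ 1 := by
    by_contra hcon
    push Not at hcon
    have h1 : Subgroup.closure {a : A | ∃ v, v ≠ 1 ∧ ∃ β, a = w v β} ≤ ⊥ := by
      rw [Subgroup.closure_le]
      rintro a ⟨v, hv, β, rfl⟩
      rcases hall v with h | h
      · exact absurd h hv
      · rw [h, hcon β]
        exact Subgroup.one_mem _
    rw [hgen, top_le_iff] at h1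
    exact bot_ne_top h1
  have hβ1 : β ≠ 1 := by
    rintro rfl
    exact hβ (map_one _)
  set Sg : Finset B := Finset.univ.erase (1 : B) with hSg
  have hmem : ∀ σ : B, σ ≠ 1 → σ ∈ Sg := fun σ h => Finset.mem_erase.2 ⟨h, Finset.mem_univ σ⟩
  have hk1' : κ k 1 ≠ 0 := by
    rw [hA.hκx, inv_one, mul_one]
    exact hxk
  have h1k' : κ 1 k ≠ 0 := by
    rw [hA.hκx, hkk, one_mul]
    exact hxk
  set M := AL2_M K cc hA.hcc with hM
  have hκM : ∀ a b, κ a b ∈ WF 𝒜 M := by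
    intro a b
    exact W_mono 𝒜 (fun h hh => (show h ∈ K ∧ cc h = 1 from ⟨hh.1, hh.2.1⟩)) (hA.hκ a b)
  have hκK : ∀ a b, κ a b ∈ WF 𝒜 K := by
    intro a b
    exact W_mono 𝒜 (fun h hh => hh.1) (hA.hκ a b)
  set Y : D := ∑ σ ∈ Sg, θ k σ with hY
  have hinj : ∀ σ ∈ Sg, ∀ σ' ∈ Sg, T k σ = T k σ' → σ = σ' := by
    intro σ hσ σ' hσ' h
    have h1 := hA.hXT k hk1 σ hσ k hk1
    have h2 := hA.hXT k hk1 σ' hσ' k hk1
    rw [if_pos rfl] at h1 h2
    rw [← h1, ← h2, h]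
  have hprY : ∀ σ ∈ Sg, pr 𝒜 ({T k σ} : Set G) Y = θ k σ := fun σ hσ =>
    AL2_pr 𝒜 Sg (T k) (θ k) hinj (hA.hθ k) σ hσ
  have hYK : Y ∈ WF 𝒜 K := by
    rw [hY]
    refine Subfield.sum_mem _ fun σ hσ => ?_
    exact W_mono 𝒜 (Set.singleton_subset_iff.2 (hA.hT k hk1 σ hσ)) (hA.hθ k σ hσ)
  set P : D := κ k k + Y with hP
  have hP0 : P ≠ 0 := by
    intro h0
    have h1 : pr 𝒜 ({T k β} : Set G) P = θ k β := by
      rw [hP, map_add, hprY β (hmem β hβ1)]
      have h2 : pr 𝒜 ({T k β} : Set G) (κ k k) = 0 := by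
        refine pr_zero_of 𝒜 ?_ (hA.hκ k k)
        intro g hg hg'
        rw [Set.mem_singleton_iff] at hg'
        have h3 := hg.2.2 k hk1
        have h4 := hA.hXT k hk1 β (hmem β hβ1) k hk1
        rw [if_pos rfl, ← hg', h3] at h4
        exact hβ1 h4.symm
      rw [h2, zero_add]
    rw [h0, map_zero] at h1
    exact hA.hθ0 k β (hmem β hβ1) h1.symm
  set F : D := κ 1 1 - κ 1 k * P⁻¹ * κ k 1 with hF
  have hFK : F ∈ WF 𝒜 K := by
    rw [hF]
    refine sub_mem (hκK 1 1) (mul_mem (mul_mem (hκK 1 k) (inv_mem ?_)) (hκK k 1))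
    exact add_mem (hκK k k) hYK
  refine ⟨F, hFK, ?_, ?_⟩
  · have e1 := hA.heq 1
    have ek := hA.heq k
    rw [hsum, if_pos rfl] at e1
    rw [hsum, if_neg hk1] at ek
    have ek' : P * y k = -(κ k 1 * y 1) := by
      rw [hP, add_mul, eq_neg_iff_add_eq_zero, ← ek]
      abel
    have ek2 : y k = -(P⁻¹ * (κ k 1 * y 1)) := by
      rw [← mul_neg, ← ek', inv_mul_cancel_left₀ hP0]
    rw [ek2] at e1
    rw [← e1, hF]
    noncomm_ring
  · by_contra hcl
    have hkn : pr 𝒜 {h | h ∈ K ∧ cc h = k} F = 0 := by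
      by_contra hne
      apply hcl
      show Subgroup.closure _ = ⊤
      rw [eq_top_iff]
      intro a _
      rcases hall a with h | h
      · rw [h]
        exact Subgroup.one_mem _
      · rw [h]
        exact Subgroup.subset_closure hne
    have hFM : F ∈ WF 𝒜 M := by
      have h1 := sum_pr 𝒜 (K : Set G) cc F
      rw [hsum] at h1
      have h2 : pr 𝒜 {h | h ∈ (K : Set G) ∧ cc h = k} F = 0 := hkn
      rw [h2, add_zero] at h1
      have h3 : pr 𝒜 (K : Set G) F = F := hFK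
      rw [h3] at h1
      rw [← h1]
      exact pr_mem 𝒜 {h | h ∈ K ∧ cc h = 1} F
    have hPM : P ∈ WF 𝒜 M := by
      have h1 : κ 1 k * P⁻¹ * κ k 1 ∈ WF 𝒜 M := by
        have h2 : κ 1 k * P⁻¹ * κ k 1 = κ 1 1 - F := by
          rw [hF]
          abel
        rw [h2]
        exact sub_mem (hκM 1 1) hFM
      have h3 : P⁻¹ = (κ 1 k)⁻¹ * (κ 1 k * P⁻¹ * κ k 1) * (κ k 1)⁻¹ := by
        rw [mul_assoc (κ 1 k), inv_mul_cancel_left₀ h1k', mul_inv_cancel_right₀ hk1']
      have h4 : P⁻¹ ∈ WF 𝒜 M := by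
        rw [h3]
        exact mul_mem (mul_mem (inv_mem (hκM 1 k)) h1) (inv_mem (hκM k 1))
      have h5 := inv_mem h4
      rwa [inv_inv] at h5
    have hYM : Y ∈ WF 𝒜 M := by
      have h1 : Y = P - κ k k := by
        rw [hP]
        abel
      rw [h1]
      exact sub_mem hPM (hκM k k)
    have hTM : T k β ∈ M := by
      by_contra hne
      have h1 := pr_zero_of 𝒜 (P := (M : Set G)) (Q := ({T k β} : Set G)) (by
        intro g hg hg'
        rw [Set.mem_singleton_iff] at hg'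
        exact hne (hg' ▸ hg)) hYM
      rw [hprY β (hmem β hβ1)] at h1
      exact hA.hθ0 k β (hmem β hβ1) h1
    have h6 := hA.hcT k hk1 β (hmem β hβ1)
    rw [hTM.2] at h6
    exact hβ h6.symm

end Pool.Agent.Work.MP87745.SP
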