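import Pool.Agent.Work.MP_87745a_sp.Interface

/-!
# Block AL3: the algebraic step for `|A| = 3`
-/

set_option autoImplicit false

universe uG uD uA uB uΓ uH

namespace Pool.Agent.Work.MP87745.SP

open Pool.Agent.Work.MP87745.GS

section AL3a

variable {G : Type uG} [Group G] {D : Type uD} [DivisionRing D]
  [DecidableEq (Additive G)] (𝒜 : Additive G → AddSubgroup D) [GradedRing 𝒜]
  {H : Type uH} [Group H] (K : Subgroup G) (φ : G → H)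

/-- the part of `K` with `φ = a` -/
abbrev AL3_S (a : H) : Set G := {h | h ∈ K ∧ φ h = a}

/-- multiplicative on `K` -/
def AL3_Mul : Prop := ∀ g ∈ K, ∀ h ∈ K, φ (g * h) = φ g * φ h

variable {K φ}

theorem AL3_one (hφ : AL3_Mul K φ) : φ 1 = 1 := by
  have h := hφ 1 K.one_mem 1 K.one_mem
  rw [mul_one] at h
  exact left_eq_mul.1 h

theorem AL3_inv (hφ : AL3_Mul K φ) {g : G} (hg : g ∈ K) : φ g⁻¹ = (φ g)⁻¹ := by
  have h := hφ g hg g⁻¹ (K.inv_mem hg)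
  rw [mul_inv_cancel, AL3_one hφ] at h
  exact (inv_eq_of_mul_eq_one_right h.symm).symm

/-- the subgroup of the elements of `K` with `φ = 1` -/
def AL3_U (hφ : AL3_Mul K φ) : Subgroup G where
  carrier := AL3_S K φ 1
  one_mem' := ⟨K.one_mem, AL3_one hφ⟩
  mul_mem' := by
    rintro a b ⟨ha, ha'⟩ ⟨hb, hb'⟩
    exact ⟨K.mul_mem ha hb, by rw [hφ a ha b hb, ha', hb', mul_one]⟩
  inv_mem' := by
    rintro a ⟨ha, ha'⟩
    exact ⟨K.inv_mem ha, by rw [AL3_inv hφ ha, ha', inv_one]⟩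

theorem AL3_mem_U (hφ : AL3_Mul K φ) {x : D} :
    x ∈ WF 𝒜 (AL3_U hφ) ↔ x ∈ W 𝒜 (AL3_S K φ 1) := Iff.rfl

theorem AL3_mul (hφ : AL3_Mul K φ) {a b : H} {x y : D} (hx : x ∈ W 𝒜 (AL3_S K φ a))
    (hy : y ∈ W 𝒜 (AL3_S K φ b)) : x * y ∈ W 𝒜 (AL3_S K φ (a * b)) := by
  refine mul_mem_W 𝒜 ?_ hx hy
  rintro g ⟨hg, hg'⟩ u ⟨hu, hu'⟩
  exact ⟨K.mul_mem hg hu, by rw [hφ g hg u hu, hg', hu']⟩

theorem AL3_prl (hφ : AL3_Mul K φ) {a : H} {x : D} (hx : x ∈ W 𝒜 (AL3_S K φ a)) (b : H) (y : D) :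
    pr 𝒜 (AL3_S K φ b) (x * y) = x * pr 𝒜 (AL3_S K φ (a⁻¹ * b)) y := by
  refine pr_mul_left 𝒜 (P := AL3_S K φ a) ?_ hx y
  rintro g ⟨hg, hg'⟩ u
  constructor
  · rintro ⟨h1, h2⟩
    have hu : u ∈ K := (K.mul_mem_cancel_left hg).1 h1
    refine ⟨hu, ?_⟩
    rw [hφ g hg u hu, hg'] at h2
    rw [← h2, inv_mul_cancel_left]
  · rintro ⟨h1, h2⟩
    exact ⟨K.mul_mem hg h1, by rw [hφ g hg u h1, hg', h2, mul_inv_cancel_left]⟩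

theorem AL3_prr (hφ : AL3_Mul K φ) {a : H} {y : D} (hy : y ∈ W 𝒜 (AL3_S K φ a)) (b : H) (x : D) :
    pr 𝒜 (AL3_S K φ b) (x * y) = pr 𝒜 (AL3_S K φ (b * a⁻¹)) x * y := by
  refine pr_mul_right 𝒜 (P := AL3_S K φ a) ?_ hy x
  rintro g ⟨hg, hg'⟩ u
  constructor
  · rintro ⟨h1, h2⟩
    have hu : u ∈ K := (K.mul_mem_cancel_right hg).1 h1
    refine ⟨hu, ?_⟩
    rw [hφ u hu g hg, hg'] at h2
    rw [← h2, mul_inv_cancel_right]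
  · rintro ⟨h1, h2⟩
    exact ⟨K.mul_mem h1 hg, by rw [hφ u h1 g hg, hg', h2, inv_mul_cancel_right]⟩

theorem AL3_invm (hφ : AL3_Mul K φ) {a : H} {x : D} (hx : x ∈ W 𝒜 (AL3_S K φ a)) (hx0 : x ≠ 0) :
    x⁻¹ ∈ W 𝒜 (AL3_S K φ a⁻¹) := by
  classical
  have h1 := AL3_prl 𝒜 hφ hx 1 x⁻¹
  rw [mul_inv_cancel₀ hx0, pr_one, if_pos ⟨K.one_mem, AL3_one hφ⟩, mul_one] at h1
  rw [mem_W]
  exact (eq_inv_of_mul_eq_one_right h1.symm)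

theorem AL3_pr_self {a : H} {x : D} (hx : x ∈ W 𝒜 (AL3_S K φ a)) :
    pr 𝒜 (AL3_S K φ a) x = x := hx

theorem AL3_pr_ne {a b : H} (h : a ≠ b) {x : D} (hx : x ∈ W 𝒜 (AL3_S K φ a)) :
    pr 𝒜 (AL3_S K φ b) x = 0 := by
  refine pr_zero_of 𝒜 ?_ hx
  rintro g ⟨_, hg⟩ ⟨_, hg'⟩
  exact h (hg.symm.trans hg')

theorem AL3_eq {a b : H} {x : D} (hx : x ∈ W 𝒜 (AL3_S K φ a)) (hx' : x ∈ W 𝒜 (AL3_S K φ b))
    (hx0 : x ≠ 0) : a = b := by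
  by_contra h
  apply hx0
  rw [← AL3_pr_self 𝒜 hx', AL3_pr_ne 𝒜 h hx]

theorem AL3_memT {T : G} {x : D} (hx : x ∈ W 𝒜 ({T} : Set G)) (hx0 : x ≠ 0) {P : Set G}
    (hxP : x ∈ W 𝒜 P) : T ∈ P := by
  by_contra h
  apply hx0
  refine eq_zero_of 𝒜 (P := {T}) (Q := P) ?_ hx hxP
  intro g hg
  rw [Set.mem_singleton_iff] at hg
  rw [hg]
  exact h

/-- a sum of an element of degree `1` and one of degree `s` -/
theorem AL3_ne0 {s : H} (hs : s ≠ 1) {e θ : D} (he : e ∈ W 𝒜 (AL3_S K φ 1))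
    (hθ : θ ∈ W 𝒜 (AL3_S K φ s)) (hθ0 : θ ≠ 0) : e + θ ≠ 0 := by
  intro h
  apply hθ0
  have h1 : pr 𝒜 (AL3_S K φ s) (e + θ) = θ := by
    rw [map_add, AL3_pr_ne 𝒜 (Ne.symm hs) he, AL3_pr_self 𝒜 hθ, zero_add]
  rw [← h1, h, map_zero]

theorem AL3_parts (hφ : AL3_Mul K φ) {s : H} (hs : s ≠ 1) (hs3 : s * s * s = 1) {e θ : D}
    (he : e ∈ W 𝒜 (AL3_S K φ 1)) (he0 : e ≠ 0) (hθ : θ ∈ W 𝒜 (AL3_S K φ s)) (hθ0 : θ ≠ 0) :
    pr 𝒜 (AL3_S K φ s) (e + θ)⁻¹ ≠ 0 ∧ pr 𝒜 (AL3_S K φ (s * s)) (e + θ)⁻¹ ≠ 0 := by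
  classical
  have h0 := AL3_ne0 𝒜 hs he hθ hθ0
  set g := (e + θ)⁻¹ with hg
  have hpr : ∀ b : H, pr 𝒜 (AL3_S K φ b) (1 : D) =
      e * pr 𝒜 (AL3_S K φ b) g + θ * pr 𝒜 (AL3_S K φ (s⁻¹ * b)) g := by
    intro b
    have h1 : (1 : D) = e * g + θ * g := by
      rw [← add_mul, hg, mul_inv_cancel₀ h0]
    rw [h1, map_add, AL3_prl 𝒜 hφ he, AL3_prl 𝒜 hφ hθ, inv_one, one_mul]
  have hss : s * s ≠ 1 := by
    intro h
    rw [h, one_mul] at hs3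
    exact hs hs3
  have hsinv : s⁻¹ = s * s := by
    rw [inv_eq_iff_mul_eq_one, ← mul_assoc]
    exact hs3
  have p1 := hpr 1
  have p2 := hpr s
  have p3 := hpr (s * s)
  rw [pr_one, if_pos ⟨K.one_mem, AL3_one hφ⟩, mul_one, hsinv] at p1
  rw [pr_one, if_neg (fun h => hs (h.2.symm.trans (AL3_one hφ))), inv_mul_cancel] at p2
  rw [pr_one, if_neg (fun h => hss (h.2.symm.trans (AL3_one hφ))), inv_mul_cancel_left] at p3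
  constructor
  · intro h
    rw [h, mul_zero, zero_add] at p2
    rw [h, mul_zero, add_zero] at p3
    have q2 : pr 𝒜 (AL3_S K φ 1) g = 0 := (mul_eq_zero.1 p2.symm).resolve_left hθ0
    have q3 : pr 𝒜 (AL3_S K φ (s * s)) g = 0 := (mul_eq_zero.1 p3.symm).resolve_left he0
    rw [q2, q3, mul_zero, mul_zero, add_zero] at p1
    exact one_ne_zero p1
  · intro h
    rw [h, mul_zero, zero_add] at p3
    have q3 : pr 𝒜 (AL3_S K φ s) g = 0 := (mul_eq_zero.1 p3.symm).resolve_left hθ0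
    rw [q3, mul_zero, zero_add] at p2
    have q2 : pr 𝒜 (AL3_S K φ 1) g = 0 := (mul_eq_zero.1 p2.symm).resolve_left hθ0
    rw [q2, h, mul_zero, mul_zero, add_zero] at p1
    exact one_ne_zero p1

end AL3a

/-- a group of order three -/
structure AL3_P {A : Type uA} [Group A] (i j : A) : Prop where
  i1 : i ≠ 1
  j1 : j ≠ 1
  ij : i ≠ j
  hj : i⁻¹ = j
  hii : i * i = j
  hjj : j * j = i
  all : ∀ a : A, a = 1 ∨ a = i ∨ a = j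

theorem AL3_P.hi {A : Type uA} [Group A] {i j : A} (h : AL3_P i j) : j⁻¹ = i := by
  rw [← h.hj, inv_inv]

theorem AL3_P.symm {A : Type uA} [Group A] {i j : A} (h : AL3_P i j) : AL3_P j i where
  i1 := h.j1
  j1 := h.i1
  ij := h.ij.symm
  hj := h.hi
  hii := h.hjj
  hjj := h.hii
  all := fun a => by
    rcases h.all a with h1 | h1 | h1
    · exact Or.inl h1
    · exact Or.inr (Or.inr h1)
    · exact Or.inr (Or.inl h1)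

theorem AL3_exP {A : Type uA} [Group A] [Fintype A] (hcard : Fintype.card A = 3) (i : A)
    (hi : i ≠ 1) : AL3_P i i⁻¹ := by
  classical
  have h3 : i ^ 3 = 1 := by
    rw [← hcard]
    exact pow_card_eq_one
  have h3' : i * i * i = 1 := by
    rw [← h3, pow_succ, pow_two]
  have hii : i * i = i⁻¹ := eq_inv_of_mul_eq_one_left h3'
  have hne : i ≠ i⁻¹ := by
    intro h
    rw [← hii] at h
    exact hi (left_eq_mul.1 h)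
  refine ⟨hi, fun h => hi (inv_eq_one.1 h), hne, rfl, hii, ?_, ?_⟩
  · rw [← mul_inv_rev, hii, inv_inv]
  · intro a
    by_contra hcon
    rw [not_or, not_or] at hcon
    have h4 : ({a, 1, i, i⁻¹} : Finset A).card = 4 := by
      rw [Finset.card_insert_of_notMem, Finset.card_insert_of_notMem,
        Finset.card_insert_of_notMem, Finset.card_singleton]
      · rw [Finset.mem_singleton]
        exact hne
      · rw [Finset.mem_insert, Finset.mem_singleton, not_or]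
        exact ⟨hi.symm, fun h => hi (inv_eq_one.1 h.symm)⟩
      · rw [Finset.mem_insert, Finset.mem_insert, Finset.mem_singleton, not_or, not_or]
        exact hcon
    have h5 := Finset.card_le_univ ({a, 1, i, i⁻¹} : Finset A)
    omega

theorem AL3_P.sum {A : Type uA} [Group A] [Fintype A] [DecidableEq A] {i j : A}
    (h : AL3_P i j) {D : Type uD} [DivisionRing D] (f : A → D) : ∑ l, f l = f 1 + (f i + f j) := by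
  have hu : (Finset.univ : Finset A) = {1, i, j} := by
    ext a
    simp only [Finset.mem_univ, Finset.mem_insert, Finset.mem_singleton, true_iff]
    exact h.all a
  rw [hu, Finset.sum_insert, Finset.sum_pair h.ij]
  rw [Finset.mem_insert, Finset.mem_singleton, not_or]
  exact ⟨h.i1.symm, h.j1.symm⟩

/-- elimination of two unknowns -/
theorem AL3_elim {D : Type uD} [DivisionRing D] (a11 a1i a1j ai1 aii aij aj1 aji ajj t1 ti tj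
    y1 yi yj : D)
    (e1 : a11 * y1 + (a1i * yi + a1j * yj) + t1 * y1 = 1)
    (ei : ai1 * y1 + (aii * yi + aij * yj) + ti * yi = 0)
    (ej : aj1 * y1 + (aji * yi + ajj * yj) + tj * yj = 0)
    (hP : aii + ti ≠ 0) (hQ : ajj - aji * (aii + ti)⁻¹ * aij + tj ≠ 0) :
    (a11 - a1i * (aii + ti)⁻¹ * ai1 - (a1j - a1i * (aii + ti)⁻¹ * aij) *
      (ajj - aji * (aii + ti)⁻¹ * aij + tj)⁻¹ * (aj1 - aji * (aii + ti)⁻¹ * ai1) + t1) * y1 = 1 := by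
  set P := aii + ti with hPd
  have hyi' : P * yi = -(ai1 * y1 + aij * yj) := by
    rw [hPd, add_mul, eq_neg_iff_add_eq_zero, ← ei]
    abel
  have hyi : yi = -(P⁻¹ * (ai1 * y1 + aij * yj)) := by
    rw [← mul_neg, ← hyi', inv_mul_cancel_left₀ hP]
  set Q := ajj - aji * P⁻¹ * aij + tj with hQd
  have hyj' : Q * yj = -((aj1 - aji * P⁻¹ * ai1) * y1) := by
    rw [eq_neg_iff_add_eq_zero, ← ej, hyi, hQd]
    noncomm_ring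
  have hyj : yj = -(Q⁻¹ * ((aj1 - aji * P⁻¹ * ai1) * y1)) := by
    rw [← mul_neg, ← hyj', inv_mul_cancel_left₀ hQ]
  have h1 : (a11 - a1i * P⁻¹ * ai1) * y1 + (a1j - a1i * P⁻¹ * aij) * yj + t1 * y1 = 1 := by
    rw [← e1, hyi]
    noncomm_ring
  rw [hyj] at h1
  rw [← h1]
  noncomm_ring

section AL3b

variable {G : Type uG} [Group G] {D : Type uD} [DivisionRing D]
  [DecidableEq (Additive G)] {𝒜 : Additive G → AddSubgroup D} [GradedRing 𝒜]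
  {A : Type uA} [Group A] [Fintype A] [DecidableEq A] {B : Type uB} [CommGroup B]
  [DecidableEq B] {s : B} {w : A → B →* A} {K : Subgroup G} {X : A → G → B} {cc : G → A}
  {T : A → B → G} {θ : A → B → D} {κ : A → A → D} {x y : A → D}

theorem AL3_TK (hA : Alg 𝒜 {s} w K X cc T θ κ x y) {i : A} (hi : i ≠ 1) : T i s ∈ K :=
  hA.hT i hi s (Finset.mem_singleton_self s)

theorem AL3_θ0 (hA : Alg 𝒜 {s} w K X cc T θ κ x y) (i : A) : θ i s ≠ 0 :=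
  hA.hθ0 i s (Finset.mem_singleton_self s)

theorem AL3_θX (hA : Alg 𝒜 {s} w K X cc T θ κ x y) {i : A} (hi : i ≠ 1) :
    θ i s ∈ W 𝒜 (AL3_S K (X i) s) := by
  refine W_mono 𝒜 ?_ (hA.hθ i s (Finset.mem_singleton_self s))
  rw [Set.singleton_subset_iff]
  refine ⟨AL3_TK hA hi, ?_⟩
  rw [hA.hXT i hi s (Finset.mem_singleton_self s) i hi, if_pos rfl]

theorem AL3_θX' (hA : Alg 𝒜 {s} w K X cc T θ κ x y) {i j : A} (hi : i ≠ 1) (hj : j ≠ 1)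
    (hij : j ≠ i) : θ i s ∈ W 𝒜 (AL3_S K (X j) 1) := by
  refine W_mono 𝒜 ?_ (hA.hθ i s (Finset.mem_singleton_self s))
  rw [Set.singleton_subset_iff]
  refine ⟨AL3_TK hA hi, ?_⟩
  rw [hA.hXT i hi s (Finset.mem_singleton_self s) j hj, if_neg hij]

theorem AL3_θc (hA : Alg 𝒜 {s} w K X cc T θ κ x y) {i : A} (hi : i ≠ 1) :
    θ i s ∈ W 𝒜 (AL3_S K cc (w i s)) := by
  refine W_mono 𝒜 ?_ (hA.hθ i s (Finset.mem_singleton_self s))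
  rw [Set.singleton_subset_iff]
  exact ⟨AL3_TK hA hi, hA.hcT i hi s (Finset.mem_singleton_self s)⟩

theorem AL3_κX (hA : Alg 𝒜 {s} w K X cc T θ κ x y) {i : A} (hi : i ≠ 1) (a b : A) :
    κ a b ∈ W 𝒜 (AL3_S K (X i) 1) :=
  W_mono 𝒜 (fun h hh => (show h ∈ K ∧ X i h = 1 from ⟨hh.1, hh.2.2 i hi⟩)) (hA.hκ a b)

theorem AL3_κc (hA : Alg 𝒜 {s} w K X cc T θ κ x y) (a b : A) :
    κ a b ∈ W 𝒜 (AL3_S K cc 1) :=
  W_mono 𝒜 (fun h hh => (show h ∈ K ∧ cc h = 1 from ⟨hh.1, hh.2.1⟩)) (hA.hκ a b)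

theorem AL3_κK (hA : Alg 𝒜 {s} w K X cc T θ κ x y) (a b : A) : κ a b ∈ WF 𝒜 K :=
  W_mono 𝒜 (fun _ hh => hh.1) (hA.hκ a b)

theorem AL3_θK (hA : Alg 𝒜 {s} w K X cc T θ κ x y) {i : A} (hi : i ≠ 1) : θ i s ∈ WF 𝒜 K :=
  W_mono 𝒜 (fun _ hh => hh.1) (AL3_θX hA hi)

theorem AL3_P0 (hA : Alg 𝒜 {s} w K X cc T θ κ x y) (hs : s ≠ 1) {i : A} (hi : i ≠ 1) :
    κ i i + θ i s ≠ 0 :=
  AL3_ne0 𝒜 hs (AL3_κX hA hi i i) (AL3_θX hA hi) (AL3_θ0 hA i)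

/-- the matrix after the elimination of `i` -/
def AL3_R (κ : A → A → D) (θ : A → B → D) (s : B) (i a b : A) : D :=
  κ a b - κ a i * (κ i i + θ i s)⁻¹ * κ i b

theorem AL3_RX (hA : Alg 𝒜 {s} w K X cc T θ κ x y) {i j : A} (hi : i ≠ 1) (hj : j ≠ 1)
    (hij : j ≠ i) (a b : A) : AL3_R κ θ s i a b ∈ W 𝒜 (AL3_S K (X j) 1) := by
  have hκ : ∀ a b, κ a b ∈ WF 𝒜 (AL3_U (K := K) (φ := X j) (hA.hX j)) :=
    fun a b => AL3_κX hA hj a b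
  have hθ : θ i s ∈ WF 𝒜 (AL3_U (K := K) (φ := X j) (hA.hX j)) := AL3_θX' hA hi hj hij
  exact (AL3_mem_U 𝒜 (K := K) (φ := X j) (hA.hX j)).1
    (sub_mem (hκ a b) (mul_mem (mul_mem (hκ a i) (inv_mem (add_mem (hκ i i) hθ))) (hκ i b)))

theorem AL3_RK (hA : Alg 𝒜 {s} w K X cc T θ κ x y) {i : A} (hi : i ≠ 1) (a b : A) :
    AL3_R κ θ s i a b ∈ WF 𝒜 K :=
  sub_mem (AL3_κK hA a b) (mul_mem (mul_mem (AL3_κK hA a i)
    (inv_mem (add_mem (AL3_κK hA i i) (AL3_θK hA hi)))) (AL3_κK hA i b))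

theorem AL3_R0 (hA : Alg 𝒜 {s} w K X cc T θ κ x y) (hs : s ≠ 1) {i : A} (hi : i ≠ 1) (a b : A)
    (h : κ a b ≠ 0 ∨ (κ a i ≠ 0 ∧ κ i b ≠ 0)) : AL3_R κ θ s i a b ≠ 0 := by
  intro h0
  unfold AL3_R at h0
  rw [sub_eq_zero] at h0
  by_cases hai : κ a i = 0
  · rw [hai, zero_mul, zero_mul] at h0
    rcases h with h | h
    · exact h h0
    · exact h.1 hai
  by_cases hib : κ i b = 0
  · rw [hib, mul_zero] at h0
    rcases h with h | h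
    · exact h h0
    · exact h.2 hib
  have hκ : ∀ a b, κ a b ∈ WF 𝒜 (AL3_U (K := K) (φ := X i) (hA.hX i)) :=
    fun a b => AL3_κX hA hi a b
  have h1 : (κ i i + θ i s)⁻¹ = (κ a i)⁻¹ * κ a b * (κ i b)⁻¹ := by
    rw [h0, mul_assoc (κ a i), inv_mul_cancel_left₀ hai, mul_inv_cancel_right₀ hib]
  have h2 : (κ i i + θ i s)⁻¹ ∈ WF 𝒜 (AL3_U (K := K) (φ := X i) (hA.hX i)) := by
    rw [h1]
    exact mul_mem (mul_mem (inv_mem (hκ a i)) (hκ a b)) (inv_mem (hκ i b))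
  have h3 := inv_mem h2
  rw [inv_inv] at h3
  have h4 : θ i s ∈ WF 𝒜 (AL3_U (K := K) (φ := X i) (hA.hX i)) := by
    have h5 : θ i s = (κ i i + θ i s) - κ i i := by abel
    rw [h5]
    exact sub_mem h3 (hκ i i)
  exact hs (AL3_eq 𝒜 (AL3_θX hA hi) ((AL3_mem_U 𝒜 (K := K) (φ := X i) (hA.hX i)).1 h4)
    (AL3_θ0 hA i))

theorem AL3_F (hA : Alg 𝒜 {s} w K X cc T θ κ x y) (hs : s ≠ 1) {i j : A} (hP : AL3_P i j) :
    y 1 ≠ 0 ∧ (y 1)⁻¹ - θ 1 s = AL3_R κ θ s i 1 1 - AL3_R κ θ s i 1 j *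
      (AL3_R κ θ s i j j + θ j s)⁻¹ * AL3_R κ θ s i j 1 := by
  have e1 := hA.heq 1
  have ei := hA.heq i
  have ej := hA.heq j
  rw [hP.sum, if_pos rfl, Finset.sum_singleton] at e1
  rw [hP.sum, if_neg hP.i1, Finset.sum_singleton] at ei
  rw [hP.sum, if_neg hP.j1, Finset.sum_singleton] at ej
  have hQ : AL3_R κ θ s i j j + θ j s ≠ 0 :=
    AL3_ne0 𝒜 hs (AL3_RX hA hP.i1 hP.j1 hP.ij.symm j j) (AL3_θX hA hP.j1) (AL3_θ0 hA j)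
  have h := AL3_elim (κ 1 1) (κ 1 i) (κ 1 j) (κ i 1) (κ i i) (κ i j) (κ j 1) (κ j i) (κ j j)
    (θ 1 s) (θ i s) (θ j s) (y 1) (y i) (y j) e1 ei ej (AL3_P0 hA hs hP.i1) hQ
  have hy : y 1 ≠ 0 := by
    intro h0
    rw [h0, mul_zero] at h
    exact zero_ne_one h
  refine ⟨hy, ?_⟩
  rw [sub_eq_iff_eq_add]
  exact (eq_inv_of_mul_eq_one_left h).symm

theorem AL3_pr_sub {P Q : Set G} (h : P ⊆ Q) {F : D} (hF : pr 𝒜 P F ≠ 0) : pr 𝒜 Q F ≠ 0 := by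
  intro h0
  apply hF
  have h1 : pr 𝒜 P (pr 𝒜 Q F) = pr 𝒜 P F := by
    rw [pr_pr, Set.inter_eq_left.2 h]
  rw [← h1, h0, map_zero]

/-- case (1) -/
theorem AL3_case1 (hA : Alg 𝒜 {s} w K X cc T θ κ x y) (hs : s ≠ 1) (hs3 : s * s * s = 1)
    (hcard : Fintype.card A = 3) {i j : A}
    (hP : AL3_P i j) (hi : w i s = 1) (hj : w j s ≠ 1)
    (hx : ∃ m₁ ∈ {m | x m ≠ 0}, ∃ m₂ ∈ {m | x m ≠ 0}, m₁ ≠ m₂) :
    ∃ m₁ ∈ {m | pr 𝒜 {h | h ∈ K ∧ cc h = m} ((y 1)⁻¹ - θ 1 s) ≠ 0},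
      ∃ m₂ ∈ {m | pr 𝒜 {h | h ∈ K ∧ cc h = m} ((y 1)⁻¹ - θ 1 s) ≠ 0}, m₁ ≠ m₂ := by
  classical
  -- two of the three `x` are not zero
  have h1i : κ 1 i ≠ 0 ↔ x j ≠ 0 := by rw [hA.hκx, hP.hj, one_mul]
  have h1j : κ 1 j ≠ 0 ↔ x i ≠ 0 := by rw [hA.hκx, hP.hi, one_mul]
  have hi1 : κ i 1 ≠ 0 ↔ x i ≠ 0 := by rw [hA.hκx, inv_one, mul_one]
  have hj1 : κ j 1 ≠ 0 ↔ x j ≠ 0 := by rw [hA.hκx, inv_one, mul_one]
  have hij : κ i j ≠ 0 ↔ x j ≠ 0 := by rw [hA.hκx, hP.hi, hP.hii]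
  have hji : κ j i ≠ 0 ↔ x i ≠ 0 := by rw [hA.hκx, hP.hj, hP.hjj]
  have hjj : κ j j ≠ 0 ↔ x 1 ≠ 0 := by rw [hA.hκx, mul_inv_cancel]
  have htwo : (x 1 ≠ 0 ∧ x i ≠ 0) ∨ (x 1 ≠ 0 ∧ x j ≠ 0) ∨ (x i ≠ 0 ∧ x j ≠ 0) := by
    obtain ⟨m₁, h1, m₂, h2, hne⟩ := hx
    have h1' : x m₁ ≠ 0 := h1
    have h2' : x m₂ ≠ 0 := h2
    rcases hP.all m₁ with r1 | r1 | r1 <;> rcases hP.all m₂ with r2 | r2 | r2 <;>
      rw [r1] at h1' <;> rw [r2] at h2'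
    · exact absurd (r1.trans r2.symm) hne
    · exact Or.inl ⟨h1', h2'⟩
    · exact Or.inr (Or.inl ⟨h1', h2'⟩)
    · exact Or.inl ⟨h2', h1'⟩
    · exact absurd (r1.trans r2.symm) hne
    · exact Or.inr (Or.inr ⟨h1', h2'⟩)
    · exact Or.inr (Or.inl ⟨h2', h1'⟩)
    · exact Or.inr (Or.inr ⟨h2', h1'⟩)
    · exact absurd (r1.trans r2.symm) hne
  have hR1j : AL3_R κ θ s i 1 j ≠ 0 := by
    apply AL3_R0 hA hs hP.i1
    rw [h1j, h1i, hij]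
    rcases htwo with h | h | h
    · exact Or.inl h.2
    · exact Or.inr ⟨h.2, h.2⟩
    · exact Or.inl h.1
  have hRj1 : AL3_R κ θ s i j 1 ≠ 0 := by
    apply AL3_R0 hA hs hP.i1
    rw [hj1, hji, hi1]
    rcases htwo with h | h | h
    · exact Or.inr ⟨h.2, h.2⟩
    · exact Or.inl h.2
    · exact Or.inl h.2
  have hRjj : AL3_R κ θ s i j j ≠ 0 := by
    apply AL3_R0 hA hs hP.i1
    rw [hjj, hji, hij]
    rcases htwo with h | h | h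
    · exact Or.inl h.1
    · exact Or.inl h.1
    · exact Or.inr h
  -- the double grading
  set φ : G → A × B := fun h => (cc h, X j h) with hφd
  have hφ : AL3_Mul K φ := by
    intro g hg h hh
    show (cc (g * h), X j (g * h)) = (cc g, X j g) * (cc h, X j h)
    rw [hA.hcc g hg h hh, hA.hX j g hg h hh]
    rfl
  have hκφ : ∀ a b, κ a b ∈ WF 𝒜 (AL3_U hφ) := by
    intro a b
    refine W_mono 𝒜 ?_ (hA.hκ a b)
    intro h hh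
    exact ⟨hh.1, Prod.ext hh.2.1 (hh.2.2 j hP.j1)⟩
  have hθφ : θ i s ∈ WF 𝒜 (AL3_U hφ) := by
    refine W_mono 𝒜 ?_ (hA.hθ i s (Finset.mem_singleton_self s))
    rw [Set.singleton_subset_iff]
    refine ⟨AL3_TK hA hP.i1, Prod.ext ?_ ?_⟩
    · exact (hA.hcT i hP.i1 s (Finset.mem_singleton_self s)).trans hi
    · refine (hA.hXT i hP.i1 s (Finset.mem_singleton_self s) j hP.j1).trans ?_
      rw [if_neg hP.ij.symm]
      rfl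
  have hRφ : ∀ a b, AL3_R κ θ s i a b ∈ W 𝒜 (AL3_S K φ 1) := fun a b =>
    (AL3_mem_U 𝒜 hφ).1 (sub_mem (hκφ a b) (mul_mem (mul_mem (hκφ a i)
      (inv_mem (add_mem (hκφ i i) hθφ))) (hκφ i b)))
  set σ : A × B := (w j s, s) with hσ
  have hθj : θ j s ∈ W 𝒜 (AL3_S K φ σ) := by
    refine W_mono 𝒜 ?_ (hA.hθ j s (Finset.mem_singleton_self s))
    rw [Set.singleton_subset_iff]
    refine ⟨AL3_TK hA hP.j1, Prod.ext ?_ ?_⟩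
    · exact hA.hcT j hP.j1 s (Finset.mem_singleton_self s)
    · refine (hA.hXT j hP.j1 s (Finset.mem_singleton_self s) j hP.j1).trans ?_
      rw [if_pos rfl]
  have hσ1 : σ ≠ 1 := fun h => hj (congrArg Prod.fst h)
  have hc3 : w j s * w j s * w j s = 1 := by
    rw [← map_mul, ← map_mul, hs3, map_one]
  have hσ3 : σ * σ * σ = 1 := Prod.ext hc3 hs3
  have hσσ1 : σ * σ ≠ 1 := by
    intro h
    rw [h, one_mul] at hσ3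
    exact hσ1 hσ3
  obtain ⟨p1, p2⟩ := AL3_parts 𝒜 hφ hσ1 hσ3 (hRφ j j) hRjj hθj (AL3_θ0 hA j)
  obtain ⟨hy, hF⟩ := AL3_F hA hs hP
  have hpart : ∀ τ : A × B, τ ≠ 1 → pr 𝒜 (AL3_S K φ τ) (AL3_R κ θ s i j j + θ j s)⁻¹ ≠ 0 →
      pr 𝒜 (AL3_S K φ τ) ((y 1)⁻¹ - θ 1 s) ≠ 0 := by
    intro τ hτ hne
    rw [hF, map_sub, AL3_pr_ne 𝒜 (Ne.symm hτ) (hRφ 1 1), zero_sub, neg_ne_zero,
      AL3_prr 𝒜 hφ (hRφ j 1), AL3_prl 𝒜 hφ (hRφ 1 j), inv_one, one_mul, mul_one]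
    exact mul_ne_zero (mul_ne_zero hR1j hne) hRj1
  refine ⟨w j s, ?_, w j s * w j s, ?_, ?_⟩
  · refine AL3_pr_sub (𝒜 := 𝒜) ?_ (hpart σ hσ1 p1)
    rintro h ⟨h1, h2⟩
    exact ⟨h1, congrArg Prod.fst h2⟩
  · refine AL3_pr_sub (𝒜 := 𝒜) ?_ (hpart (σ * σ) hσσ1 p2)
    rintro h ⟨h1, h2⟩
    exact ⟨h1, congrArg Prod.fst h2⟩
  · intro h
    exact hj (left_eq_mul.1 h)

/-- the deletion lemma for one index -/
theorem AL3_del (hD : Stmt_DEL.{uG, uD, uB}) (hgr : ∀ g : Additive G, 𝒜 g ≠ ⊥)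
    (hA : Alg 𝒜 {s} w K X cc T θ κ x y) (hs : s ≠ 1) (hs3 : s * s * s = 1) {i : A} (hi : i ≠ 1)
    (s₀ : G) (hs₀ : s₀ ∈ K) (f ρ e r : D) (hf : f ∈ W 𝒜 (AL3_S K (X i) 1))
    (hρ : ρ ∈ W 𝒜 (AL3_S K (X i) 1)) (he : e ∈ W 𝒜 (AL3_S K (X i) 1))
    (hr : r ∈ W 𝒜 (AL3_S K (X i) 1))
    (h : f - ρ * (e + θ i s)⁻¹ * r ∈ W 𝒜 (AL3_S K cc (cc s₀))) :
    f ∈ W 𝒜 (AL3_S K cc (cc s₀)) := by
  have hcc : AL3_Mul K cc := hA.hcc
  have hset : {h : G | h * s₀⁻¹ ∈ AL3_U hcc} = AL3_S K cc (cc s₀) := by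
    ext h
    constructor
    · rintro ⟨h1, h2⟩
      have hh : h ∈ K := (K.mul_mem_cancel_right (K.inv_mem hs₀)).1 h1
      refine ⟨hh, ?_⟩
      rw [hcc h hh _ (K.inv_mem hs₀), AL3_inv hcc hs₀] at h2
      exact mul_inv_eq_one.1 h2
    · rintro ⟨h1, h2⟩
      refine ⟨K.mul_mem h1 (K.inv_mem hs₀), ?_⟩
      rw [hcc h h1 _ (K.inv_mem hs₀), AL3_inv hcc hs₀, h2, mul_inv_cancel]
  have hss : s * s ≠ 1 := by
    intro h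
    rw [h, one_mul] at hs3
    exact hs hs3
  have key := hD G D 𝒜 hgr B {s} s (Finset.mem_singleton_self s)
    (by
      rw [Finset.mem_insert, Finset.mem_singleton, not_or]
      exact ⟨hss, fun h => hs (mul_eq_left.1 h)⟩)
    (by
      intro σ hσ σ' hσ' hh
      rw [Finset.mem_insert, Finset.mem_singleton] at hσ hσ'
      rcases hσ with rfl | rfl <;> rcases hσ' with rfl | rfl
      · rw [one_mul] at hh
        exact absurd hh.symm hss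
      · rw [one_mul] at hh
        exact absurd (left_eq_mul.1 hh) hs
      · rw [mul_one] at hh
        exact absurd (left_eq_mul.1 hh) hs
      · exact ⟨rfl, rfl⟩)
    (by
      rw [Finset.mem_singleton]
      exact hs.symm)
    K (X i) (hA.hX i) (T i)
    (by
      intro σ hσ
      rw [Finset.mem_singleton] at hσ
      rw [hσ]
      exact AL3_TK hA hi)
    (by
      intro σ hσ
      rw [hA.hXT i hi σ hσ i hi, if_pos rfl])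
    (θ i) (hA.hθ i) (hA.hθ0 i) (AL3_U hcc) (fun h hh => hh.1) s₀ hs₀ f ρ e r hf hρ he hr
  rw [hset, Finset.sum_singleton] at key
  exact key h

/-- case (2a), all three nonzero -/
theorem AL3_case2a (hA : Alg 𝒜 {s} w K X cc T θ κ x y) {i : A}
    (hi : i ≠ 1) (h1 : κ 1 i ≠ 0) (h2 : κ i 1 ≠ 0)
    (hF : AL3_R κ θ s i 1 1 ∈ W 𝒜 (AL3_S K cc 1)) : w i s = 1 := by
  have hcc : AL3_Mul K cc := hA.hcc
  have hκ : ∀ a b, κ a b ∈ WF 𝒜 (AL3_U hcc) := fun a b => AL3_κc hA a b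
  have hF' : AL3_R κ θ s i 1 1 ∈ WF 𝒜 (AL3_U hcc) := hF
  have h3 : κ 1 i * (κ i i + θ i s)⁻¹ * κ i 1 ∈ WF 𝒜 (AL3_U hcc) := by
    have h4 : κ 1 i * (κ i i + θ i s)⁻¹ * κ i 1 = κ 1 1 - AL3_R κ θ s i 1 1 := by
      unfold AL3_R
      abel
    rw [h4]
    exact sub_mem (hκ 1 1) hF'
  have h5 : (κ i i + θ i s)⁻¹ = (κ 1 i)⁻¹ * (κ 1 i * (κ i i + θ i s)⁻¹ * κ i 1) * (κ i 1)⁻¹ := by
    rw [mul_assoc (κ 1 i), inv_mul_cancel_left₀ h1, mul_inv_cancel_right₀ h2]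
  have h6 : (κ i i + θ i s)⁻¹ ∈ WF 𝒜 (AL3_U hcc) := by
    rw [h5]
    exact mul_mem (mul_mem (inv_mem (hκ 1 i)) h3) (inv_mem (hκ i 1))
  have h7 := inv_mem h6
  rw [inv_inv] at h7
  have h8 : θ i s ∈ WF 𝒜 (AL3_U hcc) := by
    have h9 : θ i s = (κ i i + θ i s) - κ i i := by abel
    rw [h9]
    exact sub_mem h7 (hκ i i)
  exact AL3_eq 𝒜 (AL3_θc hA hi) ((AL3_mem_U 𝒜 hcc).1 h8) (AL3_θ0 hA i)

/-- case (2a), exactly one of the outer entries is zero -/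
theorem AL3_case2b (hA : Alg 𝒜 {s} w K X cc T θ κ x y) (hs : s ≠ 1) {i j : A}
    (hP : AL3_P i j) (hx1 : x 1 ≠ 0) (hxi : x i ≠ 0) (hxj : ¬ x j ≠ 0)
    (hF : (y 1)⁻¹ - θ 1 s ∈ W 𝒜 (AL3_S K cc 1)) : w i s = 1 := by
  have hcc : AL3_Mul K cc := hA.hcc
  have hXi : AL3_Mul K (X i) := hA.hX i
  have h1i : κ 1 i = 0 := by
    by_contra h
    have : x (1 * i⁻¹) ≠ 0 := (hA.hκx 1 i).1 h
    rw [hP.hj, one_mul] at this
    exact hxj this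
  have hij : κ i j = 0 := by
    by_contra h
    have : x (i * j⁻¹) ≠ 0 := (hA.hκx i j).1 h
    rw [hP.hi, hP.hii] at this
    exact hxj this
  have hj1 : κ j 1 = 0 := by
    by_contra h
    have : x (j * 1⁻¹) ≠ 0 := (hA.hκx j 1).1 h
    rw [inv_one, mul_one] at this
    exact hxj this
  have h1j : κ 1 j ≠ 0 := by
    rw [hA.hκx, hP.hi, one_mul]
    exact hxi
  have hji : κ j i ≠ 0 := by
    rw [hA.hκx, hP.hj, hP.hjj]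
    exact hxi
  have hi1 : κ i 1 ≠ 0 := by
    rw [hA.hκx, inv_one, mul_one]
    exact hxi
  have hii : κ i i ≠ 0 := by
    rw [hA.hκx, mul_inv_cancel]
    exact hx1
  obtain ⟨hy, hFe⟩ := AL3_F hA hs hP.symm
  have r11 : AL3_R κ θ s j 1 1 = κ 1 1 := by
    unfold AL3_R
    rw [hj1, mul_zero, sub_zero]
  have rii : AL3_R κ θ s j i i = κ i i := by
    unfold AL3_R
    rw [hij, zero_mul, zero_mul, sub_zero]
  have ri1 : AL3_R κ θ s j i 1 = κ i 1 := by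
    unfold AL3_R
    rw [hij, zero_mul, zero_mul, sub_zero]
  have hρ0 : AL3_R κ θ s j 1 i ≠ 0 := AL3_R0 hA hs hP.j1 1 i (Or.inr ⟨h1j, hji⟩)
  have hρX : AL3_R κ θ s j 1 i ∈ W 𝒜 (AL3_S K (X i) 1) := AL3_RX hA hP.j1 hP.i1 hP.ij 1 i
  rw [r11, rii, ri1] at hFe
  set ρ := AL3_R κ θ s j 1 i with hρ
  set P := κ i i + θ i s with hPd
  have hP0 : P ≠ 0 := AL3_P0 hA hs hP.i1
  have hκ : ∀ a b, κ a b ∈ WF 𝒜 (AL3_U hcc) := fun a b => AL3_κc hA a b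
  have hv : ρ * P⁻¹ * κ i 1 ∈ WF 𝒜 (AL3_U hcc) := by
    have h4 : ρ * P⁻¹ * κ i 1 = κ 1 1 - ((y 1)⁻¹ - θ 1 s) := by
      rw [hFe]
      abel
    rw [h4]
    exact sub_mem (hκ 1 1) hF
  have hz : P * ρ⁻¹ = κ i 1 * (ρ * P⁻¹ * κ i 1)⁻¹ := by
    rw [mul_inv_rev, mul_inv_rev, inv_inv, mul_inv_cancel_left₀ hi1]
  have hz' : P * ρ⁻¹ ∈ WF 𝒜 (AL3_U hcc) := by
    rw [hz]
    exact mul_mem (hκ i 1) (inv_mem hv)
  have hρiX : ρ⁻¹ ∈ W 𝒜 (AL3_S K (X i) 1) := by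
    have := AL3_invm 𝒜 hXi hρX hρ0
    rwa [inv_one] at this
  have hp1 : pr 𝒜 (AL3_S K (X i) 1) (P * ρ⁻¹) = κ i i * ρ⁻¹ := by
    rw [AL3_prr 𝒜 hXi hρiX, inv_one, mul_one, hPd, map_add,
      AL3_pr_self 𝒜 (AL3_κX hA hP.i1 i i), AL3_pr_ne 𝒜 hs (AL3_θX hA hP.i1), add_zero]
  have hps : pr 𝒜 (AL3_S K (X i) s) (P * ρ⁻¹) = θ i s * ρ⁻¹ := by
    rw [AL3_prr 𝒜 hXi hρiX, inv_one, mul_one, hPd, map_add,
      AL3_pr_ne 𝒜 (Ne.symm hs) (AL3_κX hA hP.i1 i i), AL3_pr_self 𝒜 (AL3_θX hA hP.i1), zero_add]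
  have hq1 : κ i i * ρ⁻¹ ∈ WF 𝒜 (AL3_U hcc) := by
    rw [← hp1]
    exact W_mono 𝒜 Set.inter_subset_right (pr_mem_inter 𝒜 hz')
  have hqs : θ i s * ρ⁻¹ ∈ WF 𝒜 (AL3_U hcc) := by
    rw [← hps]
    exact W_mono 𝒜 Set.inter_subset_right (pr_mem_inter 𝒜 hz')
  have hρi : ρ⁻¹ ∈ WF 𝒜 (AL3_U hcc) := by
    have h4 : ρ⁻¹ = (κ i i)⁻¹ * (κ i i * ρ⁻¹) := by rw [inv_mul_cancel_left₀ hii]
    rw [h4]
    exact mul_mem (inv_mem (hκ i i)) hq1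
  have hθ : θ i s ∈ WF 𝒜 (AL3_U hcc) := by
    have h4 : θ i s = (θ i s * ρ⁻¹) * (ρ⁻¹)⁻¹ := by
      rw [mul_inv_cancel_right₀ (inv_ne_zero hρ0)]
    rw [h4]
    exact mul_mem hqs (inv_mem hρi)
  exact AL3_eq 𝒜 (AL3_θc hA hP.i1) ((AL3_mem_U 𝒜 hcc).1 hθ) (AL3_θ0 hA i)

/-- case (2b) -/
theorem AL3_case2c (hA : Alg 𝒜 {s} w K X cc T θ κ x y) (hs : s ≠ 1) (hs3 : s * s * s = 1)
    {k l : A} (hP : AL3_P k l) (hx1 : ¬ x 1 ≠ 0) (hxk : x k ≠ 0) (hxl : x l ≠ 0) (d : A)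
    (hF : (y 1)⁻¹ - θ 1 s ∈ W 𝒜 (AL3_S K cc d))
    (hFk : AL3_R κ θ s k 1 1 ∈ W 𝒜 (AL3_S K cc d))
    (hFl : AL3_R κ θ s l 1 1 ∈ W 𝒜 (AL3_S K cc d)) : w k s = 1 := by
  have hcc : AL3_Mul K cc := hA.hcc
  have hXk : AL3_Mul K (X k) := hA.hX k
  have hXl : AL3_Mul K (X l) := hA.hX l
  have hdiag : ∀ a, κ a a = 0 := by
    intro a
    by_contra h
    have : x (a * a⁻¹) ≠ 0 := (hA.hκx a a).1 h
    rw [mul_inv_cancel] at this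
    exact hx1 this
  have h1k : κ 1 k ≠ 0 := by
    rw [hA.hκx, hP.hj, one_mul]
    exact hxl
  have h1l : κ 1 l ≠ 0 := by
    rw [hA.hκx, hP.hi, one_mul]
    exact hxk
  have hk1 : κ k 1 ≠ 0 := by
    rw [hA.hκx, inv_one, mul_one]
    exact hxk
  have hl1 : κ l 1 ≠ 0 := by
    rw [hA.hκx, inv_one, mul_one]
    exact hxl
  have hkl : κ k l ≠ 0 := by
    rw [hA.hκx, hP.hi, hP.hii]
    exact hxl
  have hlk : κ l k ≠ 0 := by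
    rw [hA.hκx, hP.hj, hP.hjj]
    exact hxk
  have hd : ∀ i : A, i ≠ 1 → κ 1 i ≠ 0 → κ i 1 ≠ 0 →
      AL3_R κ θ s i 1 1 ∈ W 𝒜 (AL3_S K cc d) → (w i s)⁻¹ = d := by
    intro i hi hi1 hi2 hR
    have h2 := AL3_invm 𝒜 hcc (AL3_θc hA hi) (AL3_θ0 hA i)
    have h3 := neg_mem (AL3_mul 𝒜 hcc (AL3_mul 𝒜 hcc (AL3_κc hA 1 i) h2) (AL3_κc hA i 1))
    rw [one_mul, mul_one] at h3
    have h4 : AL3_R κ θ s i 1 1 = -(κ 1 i * (θ i s)⁻¹ * κ i 1) := by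
      unfold AL3_R
      rw [hdiag 1, hdiag i, zero_add, zero_sub]
    rw [← h4] at h3
    refine AL3_eq 𝒜 h3 hR ?_
    rw [h4, neg_ne_zero]
    exact mul_ne_zero (mul_ne_zero hi1 (inv_ne_zero (AL3_θ0 hA i))) hi2
  have hdk := hd k hP.i1 h1k hk1 hFk
  have hdl := hd l hP.j1 h1l hl1 hFl
  obtain ⟨hy, hFe⟩ := AL3_F hA hs hP
  have hR1l : AL3_R κ θ s k 1 l ≠ 0 := AL3_R0 hA hs hP.i1 1 l (Or.inl h1l)
  have hRl1 : AL3_R κ θ s k l 1 ≠ 0 := AL3_R0 hA hs hP.i1 l 1 (Or.inl hl1)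
  have hQ0 : AL3_R κ θ s k l l + θ l s ≠ 0 :=
    AL3_ne0 𝒜 hs (AL3_RX hA hP.i1 hP.j1 hP.ij.symm l l) (AL3_θX hA hP.j1) (AL3_θ0 hA l)
  have hu : AL3_R κ θ s k 1 l * (AL3_R κ θ s k l l + θ l s)⁻¹ * AL3_R κ θ s k l 1 ∈
      W 𝒜 (AL3_S K cc d) := by
    have h4 : AL3_R κ θ s k 1 l * (AL3_R κ θ s k l l + θ l s)⁻¹ * AL3_R κ θ s k l 1 =
        AL3_R κ θ s k 1 1 - ((y 1)⁻¹ - θ 1 s) := by
      rw [hFe]
      abel
    rw [h4]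
    exact sub_mem hFk hF
  have hu0 : AL3_R κ θ s k 1 l * (AL3_R κ θ s k l l + θ l s)⁻¹ * AL3_R κ θ s k l 1 ≠ 0 :=
    mul_ne_zero (mul_ne_zero hR1l (inv_ne_zero hQ0)) hRl1
  have hui := AL3_invm 𝒜 hcc hu hu0
  rw [mul_inv_rev, mul_inv_rev, inv_inv, ← mul_assoc] at hui
  have hX1l : (AL3_R κ θ s k 1 l)⁻¹ ∈ W 𝒜 (AL3_S K (X l) 1) := by
    have := AL3_invm 𝒜 hXl (AL3_RX hA hP.i1 hP.j1 hP.ij.symm 1 l) hR1l
    rwa [inv_one] at this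
  have hXl1 : (AL3_R κ θ s k l 1)⁻¹ ∈ W 𝒜 (AL3_S K (X l) 1) := by
    have := AL3_invm 𝒜 hXl (AL3_RX hA hP.i1 hP.j1 hP.ij.symm l 1) hRl1
    rwa [inv_one] at this
  have hz : (AL3_R κ θ s k l 1)⁻¹ * θ l s * (AL3_R κ θ s k 1 l)⁻¹ ∈
      W 𝒜 (AL3_S K cc d⁻¹) := by
    have h5 := pr_mem_inter 𝒜 (Q := AL3_S K (X l) s) hui
    rw [AL3_prr 𝒜 hXl hX1l, inv_one, mul_one, AL3_prl 𝒜 hXl hXl1, inv_one, one_mul, map_add,
      AL3_pr_ne 𝒜 (Ne.symm hs) (AL3_RX hA hP.i1 hP.j1 hP.ij.symm l l),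
      AL3_pr_self 𝒜 (AL3_θX hA hP.j1), zero_add] at h5
    exact W_mono 𝒜 Set.inter_subset_right h5
  have hz0 : (AL3_R κ θ s k l 1)⁻¹ * θ l s * (AL3_R κ θ s k 1 l)⁻¹ ≠ 0 :=
    mul_ne_zero (mul_ne_zero (inv_ne_zero hRl1) (AL3_θ0 hA l)) (inv_ne_zero hR1l)
  have hzi := AL3_invm 𝒜 hcc hz hz0
  rw [mul_inv_rev, mul_inv_rev, inv_inv, inv_inv, inv_inv, ← mul_assoc] at hzi
  -- the part of `X k`-degree `s`
  have hexp : AL3_R κ θ s k 1 l * (θ l s)⁻¹ * AL3_R κ θ s k l 1 =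
      κ 1 l * (θ l s)⁻¹ * κ l 1 - κ 1 k * (θ k s)⁻¹ * κ k l * (θ l s)⁻¹ * κ l 1
      - κ 1 l * (θ l s)⁻¹ * κ l k * (θ k s)⁻¹ * κ k 1
      + κ 1 k * (θ k s)⁻¹ * κ k l * (θ l s)⁻¹ * κ l k * (θ k s)⁻¹ * κ k 1 := by
    unfold AL3_R
    rw [hdiag k, zero_add]
    noncomm_ring
  have hX := fun a b => AL3_κX hA hP.i1 a b
  have hθkX := AL3_invm 𝒜 hXk (AL3_θX hA hP.i1) (AL3_θ0 hA k)
  have hθlX := AL3_invm 𝒜 hXk (AL3_θX' hA hP.j1 hP.i1 hP.ij) (AL3_θ0 hA l)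
  have t1 := AL3_mul 𝒜 hXk (AL3_mul 𝒜 hXk (hX 1 l) hθlX) (hX l 1)
  have t2 := AL3_mul 𝒜 hXk (AL3_mul 𝒜 hXk (AL3_mul 𝒜 hXk (AL3_mul 𝒜 hXk (hX 1 k) hθkX)
    (hX k l)) hθlX) (hX l 1)
  have t3 := AL3_mul 𝒜 hXk (AL3_mul 𝒜 hXk (AL3_mul 𝒜 hXk (AL3_mul 𝒜 hXk (hX 1 l) hθlX)
    (hX l k)) hθkX) (hX k 1)
  have t4 := AL3_mul 𝒜 hXk (AL3_mul 𝒜 hXk (AL3_mul 𝒜 hXk (AL3_mul 𝒜 hXk (AL3_mul 𝒜 hXk
    (AL3_mul 𝒜 hXk (hX 1 k) hθkX) (hX k l)) hθlX) (hX l k)) hθkX) (hX k 1)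
  simp only [inv_one, mul_one, one_mul] at t1 t2 t3 t4
  have hss : s * s ≠ 1 := by
    intro h
    rw [h, one_mul] at hs3
    exact hs hs3
  have hsi : s⁻¹ ≠ s := by
    intro h
    apply hss
    nth_rewrite 1 [← h]
    exact inv_mul_cancel s
  have hsisi : s⁻¹ * s⁻¹ = s := by
    rw [← mul_inv_rev, inv_eq_iff_mul_eq_one]
    exact hs3
  rw [hsisi] at t4
  have hpr : pr 𝒜 (AL3_S K (X k) s) (AL3_R κ θ s k 1 l * (θ l s)⁻¹ * AL3_R κ θ s k l 1) =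
      κ 1 k * (θ k s)⁻¹ * κ k l * (θ l s)⁻¹ * κ l k * (θ k s)⁻¹ * κ k 1 := by
    rw [hexp, map_add, map_sub, map_sub, AL3_pr_ne 𝒜 (Ne.symm hs) t1, AL3_pr_ne 𝒜 hsi t2,
      AL3_pr_ne 𝒜 hsi t3, AL3_pr_self 𝒜 t4]
    simp
  have hv := pr_mem_inter 𝒜 (Q := AL3_S K (X k) s) hzi
  rw [hpr] at hv
  have hv' : κ 1 k * (θ k s)⁻¹ * κ k l * (θ l s)⁻¹ * κ l k * (θ k s)⁻¹ * κ k 1 ∈
      W 𝒜 (AL3_S K cc d) := W_mono 𝒜 Set.inter_subset_right hv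
  have hck := AL3_invm 𝒜 hcc (AL3_θc hA hP.i1) (AL3_θ0 hA k)
  have hcl := AL3_invm 𝒜 hcc (AL3_θc hA hP.j1) (AL3_θ0 hA l)
  have hC := fun a b => AL3_κc hA a b
  have t5 := AL3_mul 𝒜 hcc (AL3_mul 𝒜 hcc (AL3_mul 𝒜 hcc (AL3_mul 𝒜 hcc (AL3_mul 𝒜 hcc
    (AL3_mul 𝒜 hcc (hC 1 k) hck) (hC k l)) hcl) (hC l k)) hck) (hC k 1)
  simp only [mul_one, one_mul] at t5
  have hne : κ 1 k * (θ k s)⁻¹ * κ k l * (θ l s)⁻¹ * κ l k * (θ k s)⁻¹ * κ k 1 ≠ 0 := by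
    have a1 := inv_ne_zero (AL3_θ0 hA k)
    have a2 := inv_ne_zero (AL3_θ0 hA l)
    exact mul_ne_zero (mul_ne_zero (mul_ne_zero (mul_ne_zero (mul_ne_zero (mul_ne_zero h1k a1)
      hkl) a2) hlk) a1) hk1
  have hfin := AL3_eq 𝒜 t5 hv' hne
  rw [hdl, hdk] at hfin
  have hd1 : d * d = 1 := by
    have := hfin
    rwa [mul_eq_right] at this
  have hc3 : w k s * w k s * w k s = 1 := by
    rw [← map_mul, ← map_mul, hs3, map_one]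
  have hcd : w k s = d⁻¹ := by rw [← hdk, inv_inv]
  rw [hcd] at hc3 ⊢
  have hd2 : d⁻¹ * d⁻¹ = 1 := by rw [← mul_inv_rev, hd1, inv_one]
  rw [hd2, one_mul] at hc3
  exact hc3

end AL3b

theorem p_AL3 (hD : Stmt_DEL.{uG, uD, uB}) : Stmt_AL3.{uG, uD, uA, uB} := by
  intro G _ D _ _ 𝒜 _ hgr A _ _ _ B _ _ s hs hs3 w hcard hw K X cc T θ κ x y hA hx
  classical
  obtain ⟨k, hk1, hkw⟩ := hw
  have hP : AL3_P k k⁻¹ := AL3_exP hcard k hk1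
  set l := k⁻¹ with hl
  obtain ⟨hy, hF⟩ := AL3_F hA hs hP
  have hFK : (y 1)⁻¹ - θ 1 s ∈ WF 𝒜 K := by
    rw [hF]
    exact sub_mem (AL3_RK hA hk1 1 1) (mul_mem (mul_mem (AL3_RK hA hk1 1 l)
      (inv_mem (add_mem (AL3_RK hA hk1 l l) (AL3_θK hA hP.j1)))) (AL3_RK hA hk1 l 1))
  refine ⟨(y 1)⁻¹ - θ 1 s, hFK, ?_, ?_⟩
  · rw [Finset.sum_singleton, sub_add_cancel, inv_mul_cancel₀ hy]
  by_cases hlw : w l s = 1
  · exact AL3_case1 hA hs hs3 hcard hP.symm hlw hkw hx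
  by_contra hnot
  have hnot' : ∀ m₁ m₂ : A, pr 𝒜 {h | h ∈ K ∧ cc h = m₁} ((y 1)⁻¹ - θ 1 s) ≠ 0 →
      pr 𝒜 {h | h ∈ K ∧ cc h = m₂} ((y 1)⁻¹ - θ 1 s) ≠ 0 → m₁ = m₂ := by
    intro m₁ m₂ h1 h2
    by_contra hne
    exact hnot ⟨m₁, h1, m₂, h2, hne⟩
  have hsum : ∑ m : A, pr 𝒜 {h | h ∈ K ∧ cc h = m} ((y 1)⁻¹ - θ 1 s) = (y 1)⁻¹ - θ 1 s := by
    have h1 := sum_pr 𝒜 (K : Set G) cc ((y 1)⁻¹ - θ 1 s)
    have h3 : pr 𝒜 (K : Set G) ((y 1)⁻¹ - θ 1 s) = (y 1)⁻¹ - θ 1 s := hFK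
    rw [h3] at h1
    exact h1
  obtain ⟨d, hd⟩ : ∃ d : A, (y 1)⁻¹ - θ 1 s ∈ W 𝒜 (AL3_S K cc d) := by
    by_cases hex : ∃ m, pr 𝒜 {h | h ∈ K ∧ cc h = m} ((y 1)⁻¹ - θ 1 s) ≠ 0
    · obtain ⟨m, hm⟩ := hex
      refine ⟨m, ?_⟩
      rw [Finset.sum_eq_single m] at hsum
      · exact hsum
      · intro m' _ hne
        by_contra h
        exact hne (hnot' m' m h hm)
      · intro h
        exact absurd (Finset.mem_univ m) h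
    · push Not at hex
      refine ⟨1, ?_⟩
      rw [← hsum, Finset.sum_eq_zero (fun m _ => hex m)]
      exact zero_mem _
  have hcc : AL3_Mul K cc := hA.hcc
  -- an element with `cc = d`
  obtain ⟨s₀, hs₀, hd₀⟩ : ∃ s₀ ∈ K, cc s₀ = d := by
    have hPc := AL3_exP hcard (w k s) hkw
    have hT := hA.hcT k hk1 s (Finset.mem_singleton_self s)
    rcases hPc.all d with h | h | h
    · exact ⟨1, K.one_mem, by rw [h, AL3_one hcc]⟩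
    · exact ⟨T k s, AL3_TK hA hk1, by rw [h, hT]⟩
    · exact ⟨(T k s)⁻¹, K.inv_mem (AL3_TK hA hk1), by rw [AL3_inv hcc (AL3_TK hA hk1), h, hT]⟩
  rw [← hd₀] at hd
  -- deletion
  have hdel1 : ∀ i j : A, AL3_P i j → AL3_R κ θ s i 1 1 ∈ W 𝒜 (AL3_S K cc (cc s₀)) := by
    intro i j hP'
    obtain ⟨_, hF'⟩ := AL3_F hA hs hP'
    have hd' := hd
    rw [hF'] at hd'
    exact AL3_del hD hgr hA hs hs3 hP'.j1 s₀ hs₀ _ _ _ _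
      (AL3_RX hA hP'.i1 hP'.j1 hP'.ij.symm 1 1) (AL3_RX hA hP'.i1 hP'.j1 hP'.ij.symm 1 j)
      (AL3_RX hA hP'.i1 hP'.j1 hP'.ij.symm j j) (AL3_RX hA hP'.i1 hP'.j1 hP'.ij.symm j 1) hd'
  have hFk := hdel1 k l hP
  have hFl := hdel1 l k hP.symm
  have hκ11 : κ 1 1 ∈ W 𝒜 (AL3_S K cc (cc s₀)) :=
    AL3_del hD hgr hA hs hs3 hk1 s₀ hs₀ _ _ _ _ (AL3_κX hA hk1 1 1) (AL3_κX hA hk1 1 k)
      (AL3_κX hA hk1 k k) (AL3_κX hA hk1 k 1) hFk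
  obtain ⟨m₁, h1, m₂, h2, hne⟩ := hx
  have h1' : x m₁ ≠ 0 := h1
  have h2' : x m₂ ≠ 0 := h2
  by_cases hx1 : x 1 ≠ 0
  · have hd1 : cc s₀ = 1 := by
      refine (AL3_eq 𝒜 (AL3_κc hA 1 1) hκ11 ?_).symm
      rw [hA.hκx, inv_one, mul_one]
      exact hx1
    rw [hd1] at hd hFk hFl
    by_cases hxk : x k ≠ 0
    · by_cases hxl : x l ≠ 0
      · refine hkw (AL3_case2a hA hk1 ?_ ?_ hFk)
        · rw [hA.hκx, hP.hj, one_mul]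
          exact hxl
        · rw [hA.hκx, inv_one, mul_one]
          exact hxk
      · exact hkw (AL3_case2b hA hs hP hx1 hxk hxl hd)
    · by_cases hxl : x l ≠ 0
      · exact hlw (AL3_case2b hA hs hP.symm hx1 hxl hxk hd)
      · apply hne
        rcases hP.all m₁ with r1 | r1 | r1 <;> rcases hP.all m₂ with r2 | r2 | r2 <;>
          rw [r1] at h1' <;> rw [r2] at h2'
        · exact r1.trans r2.symm
        all_goals first | exact absurd h1' hxk | exact absurd h1' hxl | exact absurd h2' hxk |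
          exact absurd h2' hxl
  · have hxkl : x k ≠ 0 ∧ x l ≠ 0 := by
      rcases hP.all m₁ with r1 | r1 | r1 <;> rcases hP.all m₂ with r2 | r2 | r2 <;>
        rw [r1] at h1' <;> rw [r2] at h2'
      all_goals first | exact absurd h1' hx1 | exact absurd h2' hx1 |
        exact absurd (r1.trans r2.symm) hne | exact ⟨h1', h2'⟩ | exact ⟨h2', h1'⟩
    exact hkw (AL3_case2c hA hs hs3 hP hx1 hxkl.1 hxkl.2 (cc s₀) hd hFk hFl)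

end Pool.Agent.Work.MP87745.SP
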