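import Pool.Agent.Work.MP_87745a_sp.Interface

set_option autoImplicit false

/-! # Block ALG (helper68): the algebraic step in the main case -/

universe uG uD uA uB

namespace Pool.Agent.Work.MP87745.SP

open Pool.Agent.Work.MP87745.GS

theorem ALG_one {G : Type uG} [Group G] {B : Type uB} [Group B] {U : Subgroup G} {f : G → B}
    (hf : ∀ g ∈ U, ∀ h ∈ U, f (g * h) = f g * f h) : f 1 = 1 := by
  have h := hf 1 U.one_mem 1 U.one_mem
  rw [mul_one] at h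
  exact left_eq_mul.1 h

theorem ALG_inv {G : Type uG} [Group G] {B : Type uB} [Group B] {U : Subgroup G} {f : G → B}
    (hf : ∀ g ∈ U, ∀ h ∈ U, f (g * h) = f g * f h) {g : G} (hg : g ∈ U) :
    f g⁻¹ = (f g)⁻¹ := by
  have h := hf g hg g⁻¹ (U.inv_mem hg)
  rw [mul_inv_cancel, ALG_one hf] at h
  exact (inv_eq_of_mul_eq_one_right h.symm).symm

/-- the elements of `U` with trivial exponents outside of `J` -/
def ALG_SJ {G : Type uG} [Group G] {A : Type uA} [Group A] {B : Type uB} [CommGroup B]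
    (U : Subgroup G) (X : A → G → B)
    (hX : ∀ l, ∀ g ∈ U, ∀ h ∈ U, X l (g * h) = X l g * X l h) (J : Finset A) : Subgroup G where
  carrier := {h | h ∈ U ∧ ∀ j, j ≠ 1 → j ∉ J → X j h = 1}
  one_mem' := ⟨U.one_mem, fun l _ _ => ALG_one (hX l)⟩
  mul_mem' := fun {g h} hg hh => ⟨U.mul_mem hg.1 hh.1, fun l h1 h2 => by
    rw [hX l g hg.1 h hh.1, hg.2 l h1 h2, hh.2 l h1 h2, mul_one]⟩
  inv_mem' := fun {g} hg => ⟨U.inv_mem hg.1, fun l h1 h2 => by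
    rw [ALG_inv (hX l) hg.1, hg.2 l h1 h2, inv_one]⟩

/-- the elements of `K` with `cc` in `H` -/
def ALG_SH {G : Type uG} [Group G] {A : Type uA} [Group A] (K : Subgroup G) (cc : G → A)
    (hcc : ∀ g ∈ K, ∀ h ∈ K, cc (g * h) = cc g * cc h) (H : Subgroup A) : Subgroup G where
  carrier := {h | h ∈ K ∧ cc h ∈ H}
  one_mem' := ⟨K.one_mem, by rw [ALG_one hcc]; exact H.one_mem⟩
  mul_mem' := fun {g h} hg hh => ⟨K.mul_mem hg.1 hh.1, by
    rw [hcc g hg.1 h hh.1]; exact H.mul_mem hg.2 hh.2⟩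
  inv_mem' := fun {g} hg => ⟨K.inv_mem hg.1, by
    rw [ALG_inv hcc hg.1]; exact H.inv_mem hg.2⟩

theorem ALG_notMem {G : Type uG} [Group G] {D : Type uD} [DivisionRing D]
    [DecidableEq (Additive G)] (𝒜 : Additive G → AddSubgroup D) [GradedRing 𝒜] {B : Type uB}
    {Sg : Finset B} {s : B} (hs : s ∈ Sg) {T : B → G} {θ : B → D}
    (hθ : ∀ σ ∈ Sg, θ σ ∈ W 𝒜 ({T σ} : Set G)) (hθ0 : θ s ≠ 0)
    (hinj : ∀ σ ∈ Sg, T σ = T s → σ = s) {P : Set G} (hP : T s ∉ P) :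
    ∑ σ ∈ Sg, θ σ ∉ W 𝒜 P := by
  intro h
  have h1 : pr 𝒜 ({T s} : Set G) (∑ σ ∈ Sg, θ σ) = θ s := by
    rw [map_sum, Finset.sum_eq_single s]
    · exact hθ s hs
    · intro σ hσ hne
      refine pr_zero_of 𝒜 (P := {T σ}) ?_ (hθ σ hσ)
      intro g hg hg'
      rw [Set.mem_singleton_iff] at hg hg'
      exact hne (hinj σ hσ (hg.symm.trans hg'))
    · exact fun h => absurd hs h
  have h2 : pr 𝒜 ({T s} : Set G) (∑ σ ∈ Sg, θ σ) = 0 := by
    refine pr_zero_of 𝒜 (P := P) ?_ h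
    intro g hg hg'
    rw [Set.mem_singleton_iff] at hg'
    exact hP (hg' ▸ hg)
  exact hθ0 (h1.symm.trans h2)

theorem ALG_key (hELM : Stmt_ELM.{uD, uA}) (hDEL : Stmt_DEL.{uG, uD, uB})
    (hPTH : Stmt_PTH.{uA}) {G : Type uG} [Group G] {D : Type uD} [DivisionRing D]
    [DecidableEq (Additive G)] (𝒜 : Additive G → AddSubgroup D) [GradedRing 𝒜]
    (h𝒜 : ∀ g : Additive G, 𝒜 g ≠ ⊥) {A : Type uA} [Group A] [Fintype A] [DecidableEq A]
    {B : Type uB} [CommGroup B] [DecidableEq B] {Sg : Finset B} {s : B} (hG : Good Sg s)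
    {w : A → B →* A} (hw : Subgroup.closure {a : A | ∃ v, v ≠ 1 ∧ ∃ β, a = w v β} = ⊤)
    {K : Subgroup G} {X : A → G → B} {cc : G → A} {T : A → B → G} {θ : A → B → D}
    {κ : A → A → D} {x : A → D} {y : A → D} (hA : Alg 𝒜 Sg w K X cc T θ κ x y)
    (hx : Subgroup.closure {m | x m ≠ 0} = ⊤) (H : Subgroup A) (hH : H ≠ ⊤) (F : D)
    (hF : (F + ∑ σ ∈ Sg, θ 1 σ) * y 1 = 1) (hFM : F ∈ W 𝒜 {h | h ∈ K ∧ cc h ∈ H}) :
    False := by
  classical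
  set M := ALG_SH K cc hA.hcc H with hM
  have hMK : M ≤ K := fun g hg => hg.1
  have hXM : ∀ l, ∀ g ∈ M, ∀ h ∈ M, X l (g * h) = X l g * X l h :=
    fun l g hg h hh => hA.hX l g (hMK hg) h (hMK hh)
  set Y : A → D := fun k => ∑ σ ∈ Sg, θ k σ with hY
  have hXs : ∀ k, k ≠ 1 → ∀ σ ∈ Sg, X k (T k σ) = σ := fun k hk σ hσ => by
    rw [hA.hXT k hk σ hσ k hk, if_pos rfl]
  have hY1 : ∀ k, k ≠ 1 → ∀ P : Set G, (∀ h ∈ P, X k h = 1) → Y k ∉ W 𝒜 P := by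
    intro k hk P hP
    refine ALG_notMem 𝒜 hG.mem (hA.hθ k) (hA.hθ0 k s hG.mem) ?_ ?_
    · intro σ hσ h
      rw [← hXs k hk σ hσ, h, hXs k hk s hG.mem]
    · intro h
      have h1 := hP _ h
      rw [hXs k hk s hG.mem] at h1
      exact hG.one (h1 ▸ hG.mem)
  have hY2 : ∀ k, ∀ P : Set G, (∀ σ ∈ Sg, T k σ ∈ P) → Y k ∈ W 𝒜 P := fun k P h =>
    sum_mem (fun σ hσ => W_mono 𝒜 (Set.singleton_subset_iff.2 (h σ hσ)) (hA.hθ k σ hσ))
  have heq : ∀ k, k ≠ 1 → ∑ l, κ k l * y l + Y k * y k = 0 := fun k hk => by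
    rw [hY]
    have := hA.heq k
    rw [if_neg hk] at this
    exact this
  have heq1 : ∑ l, κ 1 l * y l + Y 1 * y 1 = 1 := by
    rw [hY]
    have := hA.heq 1
    rw [if_pos rfl] at this
    exact this
  -- step 1
  set Z : Finset A := Finset.univ.filter (fun k => k ≠ 1 ∧ ∀ β, w k β ∈ H) with hZ
  have memZ : ∀ k, k ∈ Z ↔ k ≠ 1 ∧ ∀ β, w k β ∈ H := fun k => by
    rw [hZ, Finset.mem_filter]; simp
  have Z1 : (1 : A) ∉ Z := fun h => ((memZ 1).1 h).1 rfl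
  obtain ⟨κ1, a1, a2, a3, a4, a5, -⟩ := hELM D A κ Y (fun J => WF 𝒜 (ALG_SJ M X hXM J))
    (fun J J' hJ z hz => by
      rw [mem_WF] at hz ⊢
      refine W_mono 𝒜 ?_ hz
      intro h hh
      exact ⟨hh.1, fun l h1 h2 => hh.2 l h1 (fun h3 => h2 (hJ h3))⟩)
    (fun k l => by
      rw [mem_WF]
      refine W_mono 𝒜 ?_ (hA.hκ k l)
      intro h hh
      exact ⟨⟨hh.1, by rw [hh.2.1]; exact H.one_mem⟩, fun j h1 _ => hh.2.2 j h1⟩)
    Z
    (fun J hJ i hi hiJ => by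
      rw [mem_WF]
      have hi1 := ((memZ i).1 hi).1
      exact hY1 i hi1 _ (fun h hh => hh.2 i hi1 hiJ))
    (fun i hi => by
      rw [mem_WF]
      have hi1 := (memZ i).1 hi
      refine hY2 i _ (fun σ hσ => ⟨⟨hA.hT i hi1.1 σ hσ, ?_⟩, fun j h1 h2 => ?_⟩)
      · rw [hA.hcT i hi1.1 σ hσ]; exact hi1.2 σ
      · rw [hA.hXT i hi1.1 σ hσ j h1, if_neg (fun h => h2 (by rw [h]; simp))])
    (fun _ => True) (fun _ _ _ _ _ _ _ _ _ _ _ _ _ _ => trivial)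
  have e1 : ∀ k, k ∉ Z → ∑ l, κ k l * y l = ∑ l, κ1 k l * y l :=
    a3 y (fun i hi => heq i ((memZ i).1 hi).1)
  -- step 2
  set I' : Finset A := Finset.univ.filter (fun l => l ≠ 1 ∧ l ∉ Z ∧ κ1 l 1 = 0) with hI
  have memI : ∀ k, k ∈ I' ↔ k ≠ 1 ∧ k ∉ Z ∧ κ1 k 1 = 0 := fun k => by
    rw [hI, Finset.mem_filter]; simp
  have I1 : (1 : A) ∉ I' := fun h => ((memI 1).1 h).1 rfl
  have hTi : ∀ i, i ≠ 1 → ∀ J : Finset A, i ∈ J → Y i ∈ W 𝒜 (ALG_SJ K X hA.hX J : Set G) := by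
    intro i hi J hJ
    refine hY2 i _ (fun σ hσ => ⟨hA.hT i hi σ hσ, fun j h1 h2 => ?_⟩)
    rw [hA.hXT i hi σ hσ j h1, if_neg (fun h => h2 (by rw [h]; exact hJ))]
  have hmono : ∀ J J' : Finset A, J ⊆ J' → WF 𝒜 (ALG_SJ K X hA.hX J) ≤
      WF 𝒜 (ALG_SJ K X hA.hX J') := fun J J' hJ z hz => by
    rw [mem_WF] at hz ⊢
    refine W_mono 𝒜 ?_ hz
    intro h hh
    exact ⟨hh.1, fun l h1 h2 => hh.2 l h1 (fun h3 => h2 (hJ h3))⟩
  obtain ⟨κ2, b1, b2, b3, b4, b5, -⟩ := hELM D A κ1 Y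
    (fun J => WF 𝒜 (ALG_SJ K X hA.hX (Z ∪ J)))
    (fun J J' hJ => hmono _ _ (Finset.union_subset_union_right hJ))
    (fun k l => by
      have := a1 k l
      rw [mem_WF] at this ⊢
      refine W_mono 𝒜 ?_ this
      intro h hh
      exact ⟨hMK hh.1, fun j h1 h2 => hh.2 j h1 (fun h3 => h2 (Finset.mem_union_left _ h3))⟩)
    I'
    (fun J hJ i hi hiJ => by
      rw [mem_WF]
      have hi1 := (memI i).1 hi
      exact hY1 i hi1.1 _ (fun h hh => hh.2 i hi1.1 (fun h3 => by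
        rcases Finset.mem_union.1 h3 with h4 | h4
        · exact hi1.2.1 h4
        · exact hiJ h4)))
    (fun i hi => by
      rw [mem_WF]
      exact hTi i ((memI i).1 hi).1 _ (Finset.mem_union_right _ (Finset.mem_singleton_self i)))
    (fun _ => True) (fun _ _ _ _ _ _ _ _ _ _ _ _ _ _ => trivial)
  have e2 : ∀ k, k ∉ I' → ∑ l, κ1 k l * y l = ∑ l, κ2 k l * y l :=
    b3 y (fun i hi => by
      have hi1 := (memI i).1 hi
      rw [← e1 i hi1.2.1]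
      exact heq i hi1.1)
  have c1 : ∀ k, k ∉ I' → κ2 k 1 = κ1 k 1 := fun k hk =>
    b5 1 I1 (fun i hi => ((memI i).1 hi).2.2) k hk
  have cZ : ∀ l ∈ Z, ∀ k, k ∉ I' → κ2 k l = 0 := fun l hl k hk => by
    rw [b5 l (fun h => ((memI l).1 h).2.1 hl) (fun i _ => a2 i l hl) k hk]
    exact a2 k l hl
  -- step 3
  have hexj : ∃ j, j ≠ 1 ∧ j ∉ Z := by
    by_contra hcon
    apply hH
    rw [eq_top_iff, ← hw, Subgroup.closure_le]
    rintro a ⟨v, hv, β, rfl⟩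
    have hvZ : v ∈ Z := by
      by_contra hv'
      exact hcon ⟨v, hv, hv'⟩
    exact ((memZ v).1 hvZ).2 β
  obtain ⟨k, hk1, hkZ, hE, m, hm1, hm2⟩ := hPTH A Z Z1 hexj {m | x m ≠ 0} hx
    (fun k l => κ1 k l ≠ 0) (fun k hk l hl h => by
      refine a4 k hk l hl ?_
      obtain ⟨m, hm1, hm2⟩ := h
      refine ⟨m, ?_, (hA.hκx k m).2 hm2⟩
      refine Relation.ReflTransGen.mono ?_ _ _ hm1
      intro u v huv
      exact ⟨(hA.hκx v u).2 huv.1, huv.2⟩)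
  have hkI : k ∉ I' := fun h => hE ((memI k).1 h).2.2
  set ρ := κ2 1 k with hρ
  set r := κ2 k 1 with hr
  have hρ0 : ρ ≠ 0 := by
    refine b4 1 I1 k hkI ⟨m, ?_, hm2⟩
    refine Relation.ReflTransGen.mono ?_ _ _ hm1
    intro u v huv
    exact ⟨huv.1, (memI v).2 ⟨huv.2.1, huv.2.2.1, not_not.1 huv.2.2.2⟩⟩
  have hr1 : r = κ1 k 1 := c1 k hkI
  have hr0 : r ≠ 0 := by rw [hr1]; exact hE
  -- step 4
  have hkU : k ∉ Z ∪ I' := fun h => by
    rcases Finset.mem_union.1 h with h4 | h4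
    · exact hkZ h4
    · exact hkI h4
  set P := κ2 k k + Y k with hP
  have hP0 : P ≠ 0 := by
    intro h0
    refine hY1 k hk1 (ALG_SJ K X hA.hX (Z ∪ I') : Set G) (fun h hh => hh.2 k hk1 hkU) ?_
    have : Y k = - κ2 k k := eq_neg_of_add_eq_zero_right h0
    rw [this]
    exact neg_mem (b1 k k)
  set κ3 : A → A → D := fun a b => if b = k then 0 else κ2 a b - κ2 a k * P⁻¹ * κ2 k b with hκ3
  have hle3 : WF 𝒜 (ALG_SJ K X hA.hX (Z ∪ I')) ≤ WF 𝒜 (ALG_SJ K X hA.hX (insert k (Z ∪ I'))) :=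
    hmono _ _ (Finset.subset_insert _ _)
  have hPm : P ∈ WF 𝒜 (ALG_SJ K X hA.hX (insert k (Z ∪ I'))) :=
    add_mem (hle3 (b1 k k)) (hTi k hk1 _ (Finset.mem_insert_self _ _))
  have hκ3m : ∀ a b, κ3 a b ∈ WF 𝒜 (ALG_SJ K X hA.hX (insert k (Z ∪ I'))) := by
    intro a b
    rw [hκ3]
    dsimp only
    split_ifs with h
    · exact zero_mem _
    · exact sub_mem (hle3 (b1 a b)) (mul_mem (mul_mem (hle3 (b1 a k)) (inv_mem hPm))
        (hle3 (b1 k b)))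
  have e3 : ∀ a, ∑ l, κ2 a l * y l = ∑ l, κ3 a l * y l := by
    intro a
    have h3 : ∑ l, κ2 k l * y l + Y k * y k = 0 := by
      rw [← e2 k hkI, ← e1 k hkZ]
      exact heq k hk1
    have s1 : ∀ j : A, ∑ l, κ2 j l * y l =
        κ2 j k * y k + ∑ l ∈ Finset.univ.erase k, κ2 j l * y l := fun j =>
      (Finset.add_sum_erase _ (fun l => κ2 j l * y l) (Finset.mem_univ k)).symm
    have s2 : ∑ l, κ3 a l * y l =
        ∑ l ∈ Finset.univ.erase k, (κ2 a l - κ2 a k * P⁻¹ * κ2 k l) * y l := by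
      rw [← Finset.add_sum_erase _ _ (Finset.mem_univ k), hκ3]
      dsimp only
      rw [if_pos rfl, zero_mul, zero_add]
      refine Finset.sum_congr rfl fun l hl => ?_
      rw [if_neg (Finset.ne_of_mem_erase hl)]
    rw [s1 k] at h3
    have e4 : P * y k = - ∑ l ∈ Finset.univ.erase k, κ2 k l * y l := by
      rw [hP, add_mul]
      have : κ2 k k * y k + Y k * y k + ∑ l ∈ Finset.univ.erase k, κ2 k l * y l = 0 := by
        rw [← h3]; abel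
      exact eq_neg_of_add_eq_zero_left this
    have e5 : y k = - (P⁻¹ * ∑ l ∈ Finset.univ.erase k, κ2 k l * y l) := by
      calc y k = P⁻¹ * (P * y k) := by rw [← mul_assoc, inv_mul_cancel₀ hP0, one_mul]
        _ = _ := by rw [e4, mul_neg]
    have e6 : κ2 a k * y k = - ∑ l ∈ Finset.univ.erase k, κ2 a k * P⁻¹ * κ2 k l * y l := by
      rw [e5, mul_neg, ← mul_assoc, Finset.mul_sum]
      congr 1
      exact Finset.sum_congr rfl fun l _ => (mul_assoc _ _ _).symm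
    rw [s1 a, s2, e6, ← Finset.sum_neg_distrib, ← Finset.sum_add_distrib]
    refine Finset.sum_congr rfl fun l _ => ?_
    rw [sub_mul]
    abel
  set O : Finset A := Finset.univ.filter (fun l => l ≠ 1 ∧ l ∉ insert k (Z ∪ I')) with hO
  have memO : ∀ l, l ∈ O ↔ l ≠ 1 ∧ l ∉ insert k (Z ∪ I') := fun l => by
    rw [hO, Finset.mem_filter]; simp
  have O1 : (1 : A) ∉ O := fun h => ((memO 1).1 h).1 rfl
  have hOI : ∀ l ∈ O, l ∉ I' := fun l hl h =>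
    ((memO l).1 hl).2 (Finset.mem_insert_of_mem (Finset.mem_union_right _ h))
  have hOZ : ∀ l ∈ O, l ∉ Z := fun l hl h =>
    ((memO l).1 hl).2 (Finset.mem_insert_of_mem (Finset.mem_union_left _ h))
  have hMset : ({h | h * (1 : G)⁻¹ ∈ M} : Set G) = (M : Set G) := by
    ext h
    simp
  obtain ⟨κ4, d1, d2, d3, -, d5, d6⟩ := hELM D A κ3 Y
    (fun J => WF 𝒜 (ALG_SJ K X hA.hX (insert k (Z ∪ I') ∪ J)))
    (fun J J' hJ => hmono _ _ (Finset.union_subset_union_right hJ))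
    (fun a b => hmono _ _ Finset.subset_union_left (hκ3m a b))
    O
    (fun J hJ i hi hiJ => by
      rw [mem_WF]
      have hi1 := (memO i).1 hi
      exact hY1 i hi1.1 _ (fun h hh => hh.2 i hi1.1 (fun h3 => by
        rcases Finset.mem_union.1 h3 with h4 | h4
        · exact hi1.2 h4
        · exact hiJ h4)))
    (fun i hi => by
      rw [mem_WF]
      exact hTi i ((memO i).1 hi).1 _ (Finset.mem_union_right _ (Finset.mem_singleton_self i)))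
    (fun z => z ∈ W 𝒜 (M : Set G))
    (fun J hJ i hi hiJ f ρ e r hf hρ he hr hq => by
      have hi1 := (memO i).1 hi
      have hsub : (ALG_SJ K X hA.hX (insert k (Z ∪ I') ∪ J) : Set G) ⊆
          {h | h ∈ K ∧ X i h = 1} := fun h hh => ⟨hh.1, hh.2 i hi1.1 (fun h3 => by
        rcases Finset.mem_union.1 h3 with h4 | h4
        · exact hi1.2 h4
        · exact hiJ h4)⟩
      have h := hDEL G D 𝒜 h𝒜 B Sg s hG.mem hG.sq hG.uniq hG.one K (X i) (hA.hX i) (T i)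
        (hA.hT i hi1.1) (hXs i hi1.1) (θ i) (hA.hθ i) (hA.hθ0 i) M hMK 1 K.one_mem f ρ e r
        (W_mono 𝒜 hsub hf) (W_mono 𝒜 hsub hρ) (W_mono 𝒜 hsub he) (W_mono 𝒜 hsub hr)
        (by rw [hMset]; exact hq)
      rw [hMset] at h
      exact h)
  have e4 : ∑ l, κ3 1 l * y l = ∑ l, κ4 1 l * y l :=
    d3 y (fun i hi => by
      have hi1 := (memO i).1 hi
      rw [← e3 i, ← e2 i (hOI i hi), ← e1 i (hOZ i hi)]
      exact heq i hi1.1) 1 O1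
  have h4z : ∀ l, l ≠ 1 → κ4 1 l = 0 := by
    intro l hl
    by_cases hlO : l ∈ O
    · exact d2 1 l hlO
    · have hl2 : l ∈ insert k (Z ∪ I') := by
        by_contra h
        exact hlO ((memO l).2 ⟨hl, h⟩)
      have h3z : ∀ a, a ∉ I' → κ3 a l = 0 := by
        intro a ha
        rw [hκ3]
        dsimp only
        rcases Finset.mem_insert.1 hl2 with h | h
        · rw [if_pos h]
        · split_ifs with h5
          · rfl
          · rcases Finset.mem_union.1 h with h6 | h6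
            · rw [cZ l h6 a ha, cZ l h6 k hkI, mul_zero, sub_zero]
            · rw [b2 a l h6, b2 k l h6, mul_zero, sub_zero]
      rw [d5 l hlO (fun i hi => h3z i (hOI i hi)) 1 O1]
      exact h3z 1 I1
  have h41 : κ4 1 1 * y 1 + Y 1 * y 1 = 1 := by
    have h5 : ∑ l, κ4 1 l * y l = κ4 1 1 * y 1 := by
      rw [Finset.sum_eq_single (1 : A)]
      · intro b _ hb
        rw [h4z b hb, zero_mul]
      · exact fun h => absurd (Finset.mem_univ _) h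
    rw [← h5, ← e4, ← e3 1, ← e2 1 I1, ← e1 1 Z1]
    exact heq1
  have hy1 : y 1 ≠ 0 := by
    intro h
    rw [h, mul_zero] at hF
    exact zero_ne_one hF
  have hF4 : F = κ4 1 1 := by
    rw [← add_mul] at h41
    have h5 := mul_right_cancel₀ hy1 (hF.trans h41.symm)
    exact add_right_cancel h5
  have hQ3 : κ3 1 1 ∈ W 𝒜 (M : Set G) := by
    refine d6 1 O1 1 O1 ?_
    rw [← hF4]
    exact hFM
  -- step 5
  have h1k : (1 : A) ≠ k := hk1.symm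
  have h31 : κ3 1 1 = κ2 1 1 - ρ * P⁻¹ * r := by
    rw [hκ3]
    dsimp only
    rw [if_neg h1k]
  have hκ1M : ∀ a b, κ1 a b ∈ WF 𝒜 M := by
    intro a b
    rw [mem_WF]
    exact W_mono 𝒜 (fun h hh => hh.1) (a1 a b)
  set u := ρ * P⁻¹ * r with hu
  have huM : u ∈ WF 𝒜 M := by
    have : u = κ2 1 1 - κ3 1 1 := by rw [h31]; abel
    rw [this]
    refine sub_mem ?_ hQ3
    rw [c1 1 I1]
    exact hκ1M 1 1
  have hrM : r ∈ WF 𝒜 M := by
    rw [hr1]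
    exact hκ1M k 1
  have hPρ : P * ρ⁻¹ = r * u⁻¹ := by
    rw [hu, mul_inv_rev, mul_inv_rev, inv_inv, ← mul_assoc, mul_inv_cancel₀ hr0, one_mul]
  have hPρM : P * ρ⁻¹ ∈ WF 𝒜 M := by
    rw [hPρ]
    exact mul_mem hrM (inv_mem huM)
  have hρm : ρ⁻¹ ∈ WF 𝒜 (ALG_SJ K X hA.hX (Z ∪ I')) := inv_mem (b1 1 k)
  have hsubk : (ALG_SJ K X hA.hX (Z ∪ I') : Set G) ⊆ {h | h ∈ K ∧ X k h = 1} :=
    fun h hh => ⟨hh.1, hh.2 k hk1 hkU⟩
  have hρm' : ρ⁻¹ ∈ W 𝒜 {h | h ∈ K ∧ X k h = 1} := W_mono 𝒜 hsubk hρm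
  have hθρ : ∀ σ ∈ Sg, θ k σ * ρ⁻¹ ∈ W 𝒜 {h | h ∈ K ∧ X k h = σ} := by
    intro σ hσ
    refine mul_mem_W 𝒜 ?_ (hA.hθ k σ hσ) hρm'
    intro g hg v hv
    rw [Set.mem_singleton_iff] at hg
    rw [hg]
    refine ⟨K.mul_mem (hA.hT k hk1 σ hσ) hv.1, ?_⟩
    rw [hA.hX k _ (hA.hT k hk1 σ hσ) v hv.1, hXs k hk1 σ hσ, hv.2, mul_one]
  have hκρ : κ2 k k * ρ⁻¹ ∈ W 𝒜 {h | h ∈ K ∧ X k h = 1} :=
    W_mono 𝒜 hsubk (show κ2 k k * ρ⁻¹ ∈ WF 𝒜 (ALG_SJ K X hA.hX (Z ∪ I')) from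
      mul_mem (b1 k k) hρm)
  have hθM : ∀ σ ∈ Sg, θ k σ * ρ⁻¹ ∈ WF 𝒜 M := by
    intro σ hσ
    have h1 : pr 𝒜 {h | h ∈ K ∧ X k h = σ} (P * ρ⁻¹) = θ k σ * ρ⁻¹ := by
      rw [hP, add_mul, map_add, hY]
      dsimp only
      rw [Finset.sum_mul, map_sum, Finset.sum_eq_single σ]
      · have h2 : pr 𝒜 {h | h ∈ K ∧ X k h = σ} (κ2 k k * ρ⁻¹) = 0 := by
          refine pr_zero_of 𝒜 ?_ hκρ
          rintro g ⟨-, hg⟩ ⟨-, hg'⟩
          rw [hg] at hg'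
          exact hG.one (hg' ▸ hσ)
        rw [h2, zero_add]
        exact hθρ σ hσ
      · intro σ' hσ' hne
        refine pr_zero_of 𝒜 ?_ (hθρ σ' hσ')
        rintro g ⟨-, hg⟩ ⟨-, hg'⟩
        exact hne (hg.symm.trans hg')
      · exact fun h => absurd hσ h
    rw [← h1, mem_WF]
    exact W_mono 𝒜 Set.inter_subset_right (pr_mem_inter 𝒜 hPρM)
  have hTM : ∀ σ ∈ Sg, ∀ σ' ∈ Sg, T k σ * (T k σ')⁻¹ ∈ M := by
    intro σ hσ σ' hσ'
    have h1 : θ k σ * (θ k σ')⁻¹ ∈ WF 𝒜 M := by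
      have : θ k σ * (θ k σ')⁻¹ = (θ k σ * ρ⁻¹) * (θ k σ' * ρ⁻¹)⁻¹ := by
        rw [mul_inv_rev, inv_inv, mul_assoc, ← mul_assoc ρ⁻¹, inv_mul_cancel₀ hρ0, one_mul]
      rw [this]
      exact mul_mem (hθM σ hσ) (inv_mem (hθM σ' hσ'))
    have h2 : θ k σ * (θ k σ')⁻¹ ∈ W 𝒜 ({T k σ * (T k σ')⁻¹} : Set G) := by
      refine mul_mem_W 𝒜 ?_ (hA.hθ k σ hσ)
        (inv_mem_singleton 𝒜 (hA.hθ k σ' hσ') (hA.hθ0 k σ' hσ'))
      intro g hg v hv
      rw [Set.mem_singleton_iff] at hg hv ⊢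
      rw [hg, hv]
    by_contra hcon
    refine mul_ne_zero (hA.hθ0 k σ hσ) (inv_ne_zero (hA.hθ0 k σ' hσ')) ?_
    refine eq_zero_of 𝒜 ?_ h2 h1
    intro g hg hg'
    rw [Set.mem_singleton_iff] at hg
    exact hcon (hg ▸ hg')
  apply hkZ
  rw [memZ]
  refine ⟨hk1, ?_⟩
  have htop : H.comap (w k) = ⊤ := by
    rw [eq_top_iff, ← hG.gen, Subgroup.closure_le]
    rintro u ⟨σ, hσ, σ', hσ', rfl⟩
    show w k (σ * σ'⁻¹) ∈ H
    have h1 := (hTM σ hσ σ' hσ').2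
    rw [hA.hcc _ (hA.hT k hk1 σ hσ) _ (K.inv_mem (hA.hT k hk1 σ' hσ')),
      ALG_inv hA.hcc (hA.hT k hk1 σ' hσ'), hA.hcT k hk1 σ hσ, hA.hcT k hk1 σ' hσ'] at h1
    rw [map_mul, map_inv]
    exact h1
  intro β
  have : β ∈ H.comap (w k) := by rw [htop]; exact Subgroup.mem_top β
  exact this

theorem p_ALG (hELM : Stmt_ELM.{uD, uA}) (hDEL : Stmt_DEL.{uG, uD, uB})
    (hPTH : Stmt_PTH.{uA}) : Stmt_ALG.{uG, uD, uA, uB} := by
  classical
  intro G _ D _ _ 𝒜 _ h𝒜 A _ _ _ B _ _ Sg s hG w hw K X cc T θ κ x y hA hx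
  set Y : A → D := fun k => ∑ σ ∈ Sg, θ k σ with hY
  have hXs : ∀ k, k ≠ 1 → ∀ σ ∈ Sg, X k (T k σ) = σ := fun k hk σ hσ => by
    rw [hA.hXT k hk σ hσ k hk, if_pos rfl]
  obtain ⟨κ', a1, a2, a3, -, -, -⟩ := hELM D A κ Y (fun J => WF 𝒜 (ALG_SJ K X hA.hX J))
    (fun J J' hJ z hz => by
      rw [mem_WF] at hz ⊢
      refine W_mono 𝒜 ?_ hz
      intro h hh
      exact ⟨hh.1, fun l h1 h2 => hh.2 l h1 (fun h3 => h2 (hJ h3))⟩)
    (fun k l => by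
      rw [mem_WF]
      refine W_mono 𝒜 ?_ (hA.hκ k l)
      intro h hh
      exact ⟨hh.1, fun j h1 _ => hh.2.2 j h1⟩)
    (Finset.univ.erase 1)
    (fun J hJ i hi hiJ => by
      rw [mem_WF]
      have hi1 := Finset.ne_of_mem_erase hi
      refine ALG_notMem 𝒜 hG.mem (hA.hθ i) (hA.hθ0 i s hG.mem) ?_ ?_
      · intro σ hσ h
        rw [← hXs i hi1 σ hσ, h, hXs i hi1 s hG.mem]
      · intro h
        have h1 := h.2 i hi1 hiJ
        rw [hXs i hi1 s hG.mem] at h1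
        exact hG.one (h1 ▸ hG.mem))
    (fun i hi => by
      rw [mem_WF]
      have hi1 := Finset.ne_of_mem_erase hi
      refine sum_mem (fun σ hσ => W_mono 𝒜 (Set.singleton_subset_iff.2 ?_) (hA.hθ i σ hσ))
      refine ⟨hA.hT i hi1 σ hσ, fun j h1 h2 => ?_⟩
      rw [hA.hXT i hi1 σ hσ j h1, if_neg (fun h => h2 (by rw [h]; simp))])
    (fun _ => True) (fun _ _ _ _ _ _ _ _ _ _ _ _ _ _ => trivial)
  have n1 : (1 : A) ∉ Finset.univ.erase (1 : A) := Finset.notMem_erase _ _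
  have hFK : κ' 1 1 ∈ W 𝒜 (K : Set G) := W_mono 𝒜 (fun h hh => hh.1) (a1 1 1)
  have hFy : (κ' 1 1 + Y 1) * y 1 = 1 := by
    have h1 := a3 y (fun i hi => by
      have := hA.heq i
      rw [if_neg (Finset.ne_of_mem_erase hi)] at this
      exact this) 1 n1
    have h2 : ∑ l, κ' 1 l * y l = κ' 1 1 * y 1 := by
      rw [Finset.sum_eq_single (1 : A)]
      · intro b _ hb
        rw [a2 1 b (Finset.mem_erase.2 ⟨hb, Finset.mem_univ _⟩), zero_mul]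
      · exact fun h => absurd (Finset.mem_univ _) h
    have h3 := hA.heq 1
    rw [if_pos rfl, h1, h2, ← add_mul] at h3
    exact h3
  refine ⟨κ' 1 1, hFK, hFy, ?_⟩
  by_contra hcon
  refine ALG_key hELM hDEL hPTH 𝒜 h𝒜 hG hw hA hx _ hcon (κ' 1 1) hFy ?_
  have h1 := sum_pr 𝒜 (K : Set G) cc (κ' 1 1)
  rw [(mem_W 𝒜).1 hFK] at h1
  rw [← h1]
  refine sum_mem (fun m _ => ?_)
  by_cases hm : pr 𝒜 {h | h ∈ (K : Set G) ∧ cc h = m} (κ' 1 1) = 0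
  · rw [h1, hm]
    exact zero_mem _
  · rw [h1]
    refine W_mono 𝒜 ?_ (pr_mem 𝒜 _ _)
    rintro g ⟨hg1, hg2⟩
    refine ⟨hg1, Subgroup.subset_closure ?_⟩
    rw [hg2]
    exact hm

end Pool.Agent.Work.MP87745.SP
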