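import Pool.Agent.Work.MP_87745a_sp.Interface

/-! Block DEL: the deletion lemma. -/

set_option autoImplicit false

universe uG uD uB

namespace Pool.Agent.Work.MP87745.SP

open Pool.Agent.Work.MP87745.GS

section aux

variable {G : Type uG} [Group G] {D : Type uD} [DivisionRing D] [DecidableEq (Additive G)]
  (𝒜 : Additive G → AddSubgroup D) [GradedRing 𝒜]

theorem DEL_compl (P : Set G) (x : D) : pr 𝒜 P x + pr 𝒜 Pᶜ x = x := by
  classical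
  induction x using gr_ind (𝒜 := 𝒜) with
  | zero => simp
  | hom g a ha =>
    rw [pr_of_mem 𝒜 ha, pr_of_mem 𝒜 ha]
    by_cases h1 : g ∈ P
    · rw [if_pos h1, if_neg (by simpa using h1), add_zero]
    · rw [if_neg h1, if_pos (by simpa using h1), zero_add]
  | add x y hx hy =>
    rw [map_add, map_add]
    nth_rewrite 3 [← hx]
    nth_rewrite 3 [← hy]
    abel

theorem DEL_ins (a : G) (P : Set G) (ha : a ∉ P) (x : D) :
    pr 𝒜 (insert a P) x = pr 𝒜 {a} x + pr 𝒜 P x := by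
  classical
  induction x using gr_ind (𝒜 := 𝒜) with
  | zero => simp
  | hom g b hb =>
    rw [pr_of_mem 𝒜 hb, pr_of_mem 𝒜 hb, pr_of_mem 𝒜 hb]
    by_cases h1 : g = a
    · subst h1
      rw [if_pos (by simp), if_pos (by simp), if_neg ha, add_zero]
    · by_cases h2 : g ∈ P
      · rw [if_pos (by simp [h2]), if_neg (by simpa using h1), if_pos h2, zero_add]
      · rw [if_neg (by simp [h1, h2]), if_neg (by simpa using h1), if_neg h2, add_zero]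
  | add x y hx hy =>
    rw [map_add, map_add, map_add, hx, hy]
    abel

theorem DEL_comp {x : D} (hx : x ≠ 0) : ∃ h : G, pr 𝒜 ({h} : Set G) x ≠ 0 := by
  classical
  by_contra hcon
  push Not at hcon
  obtain ⟨A, hA⟩ := exists_finset 𝒜 x
  apply hx
  have key : ∀ A : Finset G, pr 𝒜 (A : Set G) x = 0 := by
    intro A
    induction A using Finset.induction_on with
    | empty => rw [Finset.coe_empty, pr_empty]
    | insert a A ha ih =>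
      rw [Finset.coe_insert, DEL_ins 𝒜 a _ (by simpa using ha), ih, hcon, add_zero]
  rw [← (mem_W 𝒜).1 hA, key]

theorem DEL_sum {B : Type uB} [CommGroup B] [DecidableEq B] (S : Finset B) (s : B) (hs : s ∈ S)
    (huniq : ∀ σ ∈ S, ∀ σ' ∈ S, σ * σ' = s * s → σ = s ∧ σ' = s)
    (K : Subgroup G) (X : G → B) (hX : ∀ g ∈ K, ∀ h ∈ K, X (g * h) = X g * X h)
    (a b : B → D) (ha : ∀ σ ∈ S, a σ ∈ W 𝒜 {h | h ∈ K ∧ X h = σ})
    (hb : ∀ σ ∈ S, b σ ∈ W 𝒜 {h | h ∈ K ∧ X h = σ}) :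
    pr 𝒜 {h | h ∈ K ∧ X h = s * s} ((∑ σ ∈ S, a σ) * (∑ σ ∈ S, b σ)) = a s * b s := by
  classical
  have h1 : ∀ σ ∈ S, ∀ σ' ∈ S, a σ * b σ' ∈ W 𝒜 {h | h ∈ K ∧ X h = σ * σ'} := by
    intro σ hσ σ' hσ'
    refine mul_mem_W 𝒜 ?_ (ha σ hσ) (hb σ' hσ')
    intro g hg u hu
    exact ⟨K.mul_mem hg.1 hu.1, by rw [hX g hg.1 u hu.1, hg.2, hu.2]⟩
  rw [Finset.sum_mul_sum, map_sum, Finset.sum_eq_single_of_mem s hs]
  · rw [map_sum, Finset.sum_eq_single_of_mem s hs]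
    · exact h1 s hs s hs
    · intro σ' hσ' hne
      refine pr_zero_of 𝒜 ?_ (h1 s hs σ' hσ')
      intro g hg hg'
      exact hne (huniq s hs σ' hσ' (hg.2.symm.trans hg'.2)).2
  · intro σ hσ hne
    rw [map_sum]
    refine Finset.sum_eq_zero fun σ' hσ' => ?_
    refine pr_zero_of 𝒜 ?_ (h1 σ hσ σ' hσ')
    intro g hg hg'
    exact hne (huniq σ hσ σ' hσ' (hg.2.symm.trans hg'.2)).1

end aux

theorem p_DEL : Stmt_DEL.{uG, uD, uB} := by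
  classical
  intro G _ D _ _ 𝒜 _ h𝒜 B _ _ Sg s hs hss huniq h1Sg K X hX T hTK hXT θ hθ hθ0 M hMK s₀ hs₀
    f ρ e r hf hρ he hr hF
  have hX1 : X 1 = 1 := by
    have h := hX 1 K.one_mem 1 K.one_mem
    rw [mul_one] at h
    exact (mul_eq_left.1 h.symm)
  have hXinv : ∀ g ∈ K, X g⁻¹ = (X g)⁻¹ := by
    intro g hg
    have h := hX g hg g⁻¹ (K.inv_mem hg)
    rw [mul_inv_cancel, hX1] at h
    exact (inv_eq_of_mul_eq_one_right h.symm).symm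
  -- the subgroup of trivial degree
  let N : Subgroup G :=
    { carrier := {h | h ∈ K ∧ X h = 1}
      one_mem' := ⟨K.one_mem, hX1⟩
      mul_mem' := fun {a b} ha hb =>
        ⟨K.mul_mem ha.1 hb.1, by rw [hX a ha.1 b hb.1, ha.2, hb.2, one_mul]⟩
      inv_mem' := fun {a} ha => ⟨K.inv_mem ha.1, by rw [hXinv a ha.1, ha.2, inv_one]⟩ }
  have hN : (N : Set G) = {h | h ∈ K ∧ X h = 1} := rfl
  have hs1 : s ≠ 1 := fun h => h1Sg (h ▸ hs)
  set P : D := e + ∑ σ ∈ Sg, θ σ with hPdef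
  have hP0 : P ≠ 0 := by
    intro hP
    have h1 : pr 𝒜 ({T s} : Set G) P = θ s := by
      rw [hPdef, map_add, map_sum, Finset.sum_eq_single_of_mem s hs,
        pr_zero_of 𝒜 (P := {h | h ∈ K ∧ X h = 1}) _ he, zero_add]
      · exact hθ s hs
      · intro g hg hg'
        rw [Set.mem_singleton_iff] at hg'
        rw [hg'] at hg
        exact hs1 ((hXT s hs).symm.trans hg.2)
      · intro σ hσ hne
        refine pr_zero_of 𝒜 ?_ (hθ σ hσ)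
        intro g hg hg'
        rw [Set.mem_singleton_iff] at hg hg'
        apply hne
        rw [← hXT σ hσ, ← hXT s hs, ← hg, ← hg']
    rw [hP, map_zero] at h1
    exact hθ0 s hs h1.symm
  by_cases hρ0 : ρ = 0
  · rw [hρ0, zero_mul, zero_mul, sub_zero] at hF
    exact hF
  by_cases hr0 : r = 0
  · rw [hr0, mul_zero, sub_zero] at hF
    exact hF
  set u : D := ρ * P⁻¹ * r with hu
  have hu0 : u ≠ 0 := mul_ne_zero (mul_ne_zero hρ0 (inv_ne_zero hP0)) hr0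
  set S : Finset B := insert 1 Sg with hS
  let vv : B → D := fun σ => if σ = 1 then r⁻¹ * e * ρ⁻¹ else r⁻¹ * θ σ * ρ⁻¹
  have hrinv : r⁻¹ ∈ W 𝒜 {h | h ∈ K ∧ X h = 1} := (WF 𝒜 N).inv_mem (x := r) hr
  have hρinv : ρ⁻¹ ∈ W 𝒜 {h | h ∈ K ∧ X h = 1} := (WF 𝒜 N).inv_mem (x := ρ) hρ
  have hvsum : u⁻¹ = ∑ σ ∈ S, vv σ := by
    rw [hS, Finset.sum_insert h1Sg]
    have h1 : vv 1 = r⁻¹ * e * ρ⁻¹ := if_pos rfl
    have h2 : ∑ σ ∈ Sg, vv σ = r⁻¹ * (∑ σ ∈ Sg, θ σ) * ρ⁻¹ := by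
      rw [Finset.mul_sum, Finset.sum_mul]
      refine Finset.sum_congr rfl fun σ hσ => ?_
      have : σ ≠ 1 := fun h => h1Sg (h ▸ hσ)
      exact if_neg this
    rw [h1, h2, ← add_mul, ← mul_add, ← hPdef, hu, mul_inv_rev, mul_inv_rev, inv_inv, mul_assoc]
  have hvW : ∀ σ ∈ S, vv σ ∈ W 𝒜 {h | h ∈ K ∧ X h = σ} := by
    intro σ hσ
    by_cases h1 : σ = 1
    · have h2 : vv σ = r⁻¹ * e * ρ⁻¹ := if_pos h1
      rw [h2, h1]
      exact (WF 𝒜 N).mul_mem ((WF 𝒜 N).mul_mem (x := r⁻¹) (y := e) hrinv he) hρinv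
    · have h2 : vv σ = r⁻¹ * θ σ * ρ⁻¹ := if_neg h1
      have hσ' : σ ∈ Sg := (Finset.mem_insert.1 hσ).resolve_left h1
      rw [h2]
      have h3 : r⁻¹ * θ σ ∈ W 𝒜 {h | h ∈ K ∧ X h = σ} := by
        refine mul_mem_W 𝒜 ?_ hrinv (hθ σ hσ')
        intro g hg x hx
        rw [Set.mem_singleton_iff] at hx
        subst hx
        exact ⟨K.mul_mem hg.1 (hTK σ hσ'), by rw [hX g hg.1 _ (hTK σ hσ'), hg.2, hXT σ hσ', one_mul]⟩
      refine mul_mem_W 𝒜 ?_ h3 hρinv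
      intro g hg x hx
      exact ⟨K.mul_mem hg.1 hx.1, by rw [hX g hg.1 x hx.1, hg.2, hx.2, mul_one]⟩
  have hsS : s ∈ S := Finset.mem_insert_of_mem hs
  have hvs0 : vv s ≠ 0 := by
    have h2 : vv s = r⁻¹ * θ s * ρ⁻¹ := if_neg hs1
    rw [h2]
    exact mul_ne_zero (mul_ne_zero (inv_ne_zero hr0) (hθ0 s hs)) (inv_ne_zero hρ0)
  -- the coset
  set R : Set G := {h | h * s₀⁻¹ ∈ M} with hR
  set Q : Set G := {h | (h ∈ K ∧ X h = 1) ∧ h ∉ R} with hQ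
  set q : D := pr 𝒜 Q u with hq
  have hqW : q ∈ W 𝒜 Q := pr_mem 𝒜 _ _
  have huq : u - q ∈ W 𝒜 R := by
    have h1 : pr 𝒜 Rᶜ (u - q) = 0 := by
      have hF0 : pr 𝒜 Rᶜ (f - u) = 0 :=
        pr_zero_of 𝒜 (P := R) (Q := Rᶜ) (fun g hg hg' => hg' hg) hF
      have hF1 : pr 𝒜 Q (f - u) = 0 :=
        pr_zero_of 𝒜 (P := R) (Q := Q) (fun g hg hg' => hg'.2 hg) hF
      have h2 : pr 𝒜 Rᶜ f = pr 𝒜 Q f := by
        refine pr_congr 𝒜 hf ?_
        intro g hg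
        exact ⟨fun h => ⟨hg, h⟩, fun h => h.2⟩
      have h3 : pr 𝒜 Rᶜ q = q := pr_eq_self 𝒜 hqW (fun g hg => hg.2)
      rw [map_sub] at hF0 hF1 ⊢
      rw [h3, hq, ← sub_eq_zero.1 hF0, ← sub_eq_zero.1 hF1, h2, sub_self]
    have h2 := DEL_compl 𝒜 R (u - q)
    rw [h1, add_zero] at h2
    exact h2
  have hq0 : q = 0 := by
    by_contra hqne
    obtain ⟨h, hh⟩ := DEL_comp 𝒜 hvs0
    have hhK : h ∈ K := by
      by_contra hcon
      apply hh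
      refine pr_zero_of 𝒜 ?_ (hvW s hsS)
      intro g hg hg'
      rw [Set.mem_singleton_iff] at hg'
      exact hcon (hg' ▸ hg.1)
    set hM : Set G := {x | h⁻¹ * x ∈ M} with hhM
    have hg'0 : pr 𝒜 hM (vv s) ≠ 0 := by
      intro hcon
      apply hh
      have h1 : pr 𝒜 ({h} : Set G) (pr 𝒜 hM (vv s)) = pr 𝒜 ({h} : Set G) (vv s) := by
        rw [pr_pr]
        congr 2
        rw [Set.inter_eq_left]
        intro x hx
        rw [Set.mem_singleton_iff] at hx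
        rw [hx, hhM]
        show h⁻¹ * h ∈ M
        rw [inv_mul_cancel]
        exact M.one_mem
      rw [← h1, hcon, map_zero]
    set R' : Set G := {x | h⁻¹ * x ∈ R} with hR'
    -- the main identity
    have e1 : pr 𝒜 R' (u⁻¹ * (u - q)) = pr 𝒜 hM u⁻¹ * (u - q) := by
      refine pr_mul_right 𝒜 (P := R) ?_ huq _
      intro g hg x
      show h⁻¹ * (x * g) * s₀⁻¹ ∈ M ↔ h⁻¹ * x ∈ M
      have : h⁻¹ * (x * g) * s₀⁻¹ = (h⁻¹ * x) * (g * s₀⁻¹) := by group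
      rw [this]
      exact M.mul_mem_cancel_right hg
    have e2 : pr 𝒜 R' (1 : D) = pr 𝒜 hM u⁻¹ * (u - q) + pr 𝒜 R' (u⁻¹ * q) := by
      rw [← e1, ← map_add, ← mul_add, sub_add_cancel, inv_mul_cancel₀ hu0]
    have e3 : pr 𝒜 R' (1 : D) * u⁻¹ =
        pr 𝒜 hM u⁻¹ - (pr 𝒜 hM u⁻¹ * q) * u⁻¹ + pr 𝒜 R' (u⁻¹ * q) * u⁻¹ := by
      rw [e2, add_mul, mul_sub, sub_mul, mul_assoc (pr 𝒜 hM u⁻¹) u, mul_inv_cancel₀ hu0, mul_one]
    set Kss : Set G := {x | x ∈ K ∧ X x = s * s} with hKss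
    have z1 : pr 𝒜 Kss u⁻¹ = 0 := by
      rw [hvsum, map_sum]
      refine Finset.sum_eq_zero fun σ hσ => ?_
      refine pr_zero_of 𝒜 ?_ (hvW σ hσ)
      intro g hg hg'
      apply hss
      rw [← hg'.2, hg.2]
      exact hσ
    have z2 : pr 𝒜 Kss (pr 𝒜 R' (1 : D) * u⁻¹) = 0 := by
      rw [pr_one]
      split_ifs
      · rw [one_mul, z1]
      · rw [zero_mul, map_zero]
    have hcW : ∀ σ ∈ S, pr 𝒜 hM (vv σ) ∈ W 𝒜 {h | h ∈ K ∧ X h = σ} := fun σ hσ =>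
      W_mono 𝒜 Set.inter_subset_right (pr_mem_inter 𝒜 (hvW σ hσ))
    have hcsum : pr 𝒜 hM u⁻¹ = ∑ σ ∈ S, pr 𝒜 hM (vv σ) := by rw [hvsum, map_sum]
    have z3 : pr 𝒜 Kss (pr 𝒜 hM u⁻¹) = 0 := by
      rw [hcsum, map_sum]
      refine Finset.sum_eq_zero fun σ hσ => ?_
      refine pr_zero_of 𝒜 ?_ (hcW σ hσ)
      intro g hg hg'
      apply hss
      rw [← hg'.2, hg.2]
      exact hσ
    have hqK : q ∈ W 𝒜 {h | h ∈ K ∧ X h = 1} := W_mono 𝒜 (fun g hg => hg.1) hqW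
    have hmulq : ∀ σ : B, ∀ x ∈ W 𝒜 {h | h ∈ K ∧ X h = σ}, x * q ∈ W 𝒜 {h | h ∈ K ∧ X h = σ} := by
      intro σ x hx
      refine mul_mem_W 𝒜 ?_ hx hqK
      intro g hg y hy
      exact ⟨K.mul_mem hg.1 hy.1, by rw [hX g hg.1 y hy.1, hg.2, hy.2, mul_one]⟩
    have z4 : pr 𝒜 Kss ((pr 𝒜 hM u⁻¹ * q) * u⁻¹) = (pr 𝒜 hM (vv s) * q) * vv s := by
      rw [hcsum, Finset.sum_mul]
      rw [hvsum]
      exact DEL_sum 𝒜 S s hsS huniq K X hX (fun σ => pr 𝒜 hM (vv σ) * q) vv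
        (fun σ hσ => hmulq σ _ (hcW σ hσ)) hvW
    have z5 : pr 𝒜 Kss (pr 𝒜 R' (u⁻¹ * q) * u⁻¹) = pr 𝒜 R' (vv s * q) * vv s := by
      have h1 : pr 𝒜 R' (u⁻¹ * q) = ∑ σ ∈ S, pr 𝒜 R' (vv σ * q) := by
        rw [hvsum, Finset.sum_mul, map_sum]
      rw [h1, hvsum]
      exact DEL_sum 𝒜 S s hsS huniq K X hX (fun σ => pr 𝒜 R' (vv σ * q)) vv
        (fun σ hσ => W_mono 𝒜 Set.inter_subset_right (pr_mem_inter 𝒜 (hmulq σ _ (hvW σ hσ)))) hvW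
    have e4 : (pr 𝒜 hM (vv s) * q) * vv s = pr 𝒜 R' (vv s * q) * vv s := by
      have h1 := congrArg (pr 𝒜 Kss) e3
      rw [z2, map_add, map_sub, z3, z4, z5, zero_sub] at h1
      exact (neg_add_eq_zero.1 h1.symm)
    have e5 : pr 𝒜 hM (vv s) * q = pr 𝒜 R' (vv s * q) := mul_right_cancel₀ hvs0 e4
    have e6 : pr 𝒜 hM (vv s) * q ∈ W 𝒜 R' := by rw [e5]; exact pr_mem 𝒜 _ _
    obtain ⟨z', hz'⟩ := AddSubgroup.ne_bot_iff_exists_ne_zero.1 (h𝒜 (Additive.ofMul h⁻¹))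
    obtain ⟨z, hz, hz0⟩ : ∃ z : D, z ∈ 𝒜 (Additive.ofMul h⁻¹) ∧ z ≠ 0 :=
      ⟨z', z'.2, fun h0 => hz' (Subtype.ext h0)⟩
    have hzW : z ∈ W 𝒜 ({h⁻¹} : Set G) := hom_mem 𝒜 hz (by simp)
    have hzg : z * pr 𝒜 hM (vv s) ∈ W 𝒜 (M : Set G) := by
      refine mul_mem_W 𝒜 ?_ hzW (pr_mem 𝒜 hM (vv s))
      intro g hg x hx
      rw [Set.mem_singleton_iff] at hg
      rw [hg]
      exact hx
    have hzgq : z * (pr 𝒜 hM (vv s) * q) ∈ W 𝒜 R := by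
      refine mul_mem_W 𝒜 ?_ hzW e6
      intro g hg x hx
      rw [Set.mem_singleton_iff] at hg
      rw [hg]
      exact hx
    have hzg0 : z * pr 𝒜 hM (vv s) ≠ 0 := mul_ne_zero hz0 hg'0
    have hqR : q ∈ W 𝒜 R := by
      have h1 : q = (z * pr 𝒜 hM (vv s))⁻¹ * (z * (pr 𝒜 hM (vv s) * q)) := by
        rw [← mul_assoc z, inv_mul_cancel_left₀ hzg0]
      rw [h1]
      have h2 : (z * pr 𝒜 hM (vv s))⁻¹ ∈ W 𝒜 (M : Set G) := (WF 𝒜 M).inv_mem hzg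
      refine mul_mem_W 𝒜 ?_ h2 hzgq
      intro g hg x hx
      show g * x * s₀⁻¹ ∈ M
      rw [mul_assoc]
      exact M.mul_mem hg hx
    exact hqne (eq_zero_of 𝒜 (fun g hg => hg.2) hqW hqR)
  rw [hq0, sub_zero] at huq
  have h1 := add_mem hF huq
  rwa [sub_add_cancel] at h1

end Pool.Agent.Work.MP87745.SP
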