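import Pool.Agent.Work.MP_87745a_sp.Interface

/-!
Block DSC: the descent.
-/

set_option autoImplicit false

universe uG uD uA uB uΓ

namespace Pool.Agent.Work.MP87745.SP

open Pool.Agent.Work.MP87745.GS

section

variable {A : Type uA} {B : Type uB} [Group A] [Fintype A] [DecidableEq A]
  [CommGroup B] [DecidableEq B] {ω : ℕ → A → B →* A} {Γ : ℕ → Type uΓ} [∀ n, Group (Γ n)]
  (S : Data A B ω Γ) {G : Type uG} [Group G] {D : Type uD} [DivisionRing D]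
  [DecidableEq (Additive G)] (𝒜 : Additive G → AddSubgroup D) [GradedRing 𝒜]

theorem DSC_descent (hSTG : Stmt_STG.{uG, uA, uB, uΓ}) (hSTP : Stmt_STP.{uG, uD, uA, uB, uΓ})
    (h𝒜 : ∀ g : Additive G, 𝒜 g ≠ ⊥) (Sg : Finset B) (Cl : Set A → Prop)
    (hCl : ∀ C, Cl C → ∃ m ∈ C, m ≠ 1) (hAlg : ∀ n, AlgOK 𝒜 Sg (ω n) Cl)
    (hω : ∀ n, Subgroup.closure {a : A | ∃ v, v ≠ 1 ∧ ∃ β, a = ω n v β} = ⊤)
    (t' : B → G) (θ : B → D) (hθ : ∀ σ ∈ Sg, θ σ ∈ W 𝒜 ({t' σ} : Set G))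
    (hθ0 : ∀ σ ∈ Sg, θ σ ≠ 0) (N : ℕ) :
    ∀ (n : ℕ) (U : Subgroup G) (π : G → Γ n) (a' : A → G) (_ : Stg S n U π a' t') (x : A → D)
      (_ : ∀ m, x m ∈ W 𝒜 {g | g ∈ U ∧ π g = S.r n m}) (_ : Cl {m | x m ≠ 0}) (b : D)
      (_ : (∑ m, x m + ∑ σ ∈ Sg, θ σ) * b = 1) (Bs : Finset G) (_ : b ∈ W 𝒜 (Bs : Set G))
      (_ : Bs.card ≤ N), False := by
  classical
  induction N with
  | zero =>
    intro n U π a' h x hx hx2 b hxb Bs hB hN
    have h1 : Bs = ∅ := Finset.card_eq_zero.1 (Nat.le_zero.1 hN)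
    rw [h1, Finset.coe_empty, mem_W, pr_empty] at hB
    rw [← hB, mul_zero] at hxb
    exact zero_ne_one hxb
  | succ N ih =>
    intro n U π a' h x hx hx2 b hxb Bs hB hN
    obtain ⟨U', a'', hU', hS'⟩ := hSTG A B ω Γ S G n U π a' t' h (hω n)
    by_cases hBU : ∀ g ∈ Bs, g ∈ U'
    · have hbU : b ∈ WF 𝒜 U' := W_mono 𝒜 (fun g hg => hBU g hg) hB
      have hs : (∑ m, x m + ∑ σ ∈ Sg, θ σ) ∈ WF 𝒜 U' := by
        rw [eq_inv_of_mul_eq_one_left hxb]
        exact inv_mem hbU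
      have hθU : ∑ σ ∈ Sg, θ σ ∈ WF 𝒜 U' := by
        refine sum_mem fun σ hσ => W_mono 𝒜 ?_ (hθ σ hσ)
        intro g hg
        rw [Set.mem_singleton_iff] at hg
        rw [hg]
        exact (hU' _).2 ⟨h.ht σ, by rw [h.πt, S.c_d]⟩
      have hsx : (∑ m, x m) ∈ WF 𝒜 U' := by
        have h1 := sub_mem hs hθU
        rwa [add_sub_cancel_right] at h1
      have hzero : ∀ m, m ≠ 1 → x m = 0 := by
        intro m hm
        have h1 : pr 𝒜 {g | g ∈ U ∧ S.c n (π g) = m} (∑ m, x m) = x m := by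
          rw [map_sum, Finset.sum_eq_single m]
          · refine pr_eq_self 𝒜 (hx m) ?_
            intro g hg
            refine ⟨hg.1, ?_⟩
            rw [hg.2, S.c_r]
          · intro l _ hl
            refine pr_zero_of 𝒜 ?_ (hx l)
            intro g hg hg'
            apply hl
            have h2 := hg'.2
            rw [hg.2, S.c_r] at h2
            exact h2
          · intro h2
            exact absurd (Finset.mem_univ m) h2
        rw [← h1]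
        refine pr_zero_of 𝒜 ?_ hsx
        intro g hg hg'
        apply hm
        rw [← hg'.2]
        exact ((hU' g).1 hg).2
      obtain ⟨m, hm1, hm2⟩ := hCl _ hx2
      exact hm1 (hzero m hm2)
    · push Not at hBU
      obtain ⟨g, hgB, hgU⟩ := hBU
      obtain ⟨x', hx'1, hx'2, hx'3⟩ := hSTP A B ω Γ S G D 𝒜 h𝒜 Sg Cl n (hAlg n) U π a' t' h U' hU'
        θ hθ hθ0 x hx hx2 b hxb
      refine ih (n + 1) U' (fun g => S.sec n (π g) 1) a'' hS' x' hx'1 hx'2 (pr 𝒜 (U' : Set G) b)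
        hx'3 (Bs.filter (fun g => g ∈ U')) ?_ ?_
      · refine W_mono 𝒜 ?_ (pr_mem_inter 𝒜 (Q := (U' : Set G)) hB)
        intro u hu
        rw [Finset.coe_filter]
        exact ⟨hu.2, hu.1⟩
      · have h1 : Bs.filter (fun g => g ∈ U') ⊂ Bs := by
          rw [Finset.filter_ssubset]
          exact ⟨g, hgB, hgU⟩
        have h2 := Finset.card_lt_card h1
        omega

end

theorem p_DSC (hSTG : Stmt_STG.{uG, uA, uB, uΓ}) (hSTP : Stmt_STP.{uG, uD, uA, uB, uΓ}) :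
    Stmt_DSC.{uG, uD, uA, uB, uΓ} := by
  classical
  intro A B _ _ _ _ _ _ ω Γ _ S G _ D _ _ 𝒜 _ h𝒜 Sg hSg1 Cl hClu hCl hAlg hω U π a' t' h
  have h1 : ∀ g : G, ∃ α ∈ 𝒜 (Additive.ofMul g), α ≠ 0 := by
    intro g
    obtain ⟨c, hc⟩ := AddSubgroup.ne_bot_iff_exists_ne_zero.1 (h𝒜 (Additive.ofMul g))
    exact ⟨c, c.2, fun h0 => hc (Subtype.ext h0)⟩
  choose α hα hα0 using h1
  have hxW : ∀ m, α (a' m) ∈ W 𝒜 {g | g ∈ U ∧ π g = S.r 0 m} := fun m =>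
    hom_mem 𝒜 (hα (a' m)) ⟨h.ha m, h.πa m⟩
  have hθW : ∀ σ ∈ Sg, α (t' σ) ∈ W 𝒜 ({t' σ} : Set G) := fun σ _ =>
    hom_mem 𝒜 (hα (t' σ)) rfl
  have hne : ∑ m, α (a' m) + ∑ σ ∈ Sg, α (t' σ) ≠ 0 := by
    intro h0
    have h2 : pr 𝒜 {g | g ∈ U ∧ π g = 1} (∑ m, α (a' m) + ∑ σ ∈ Sg, α (t' σ)) = α (a' 1) := by
      rw [map_add, map_sum, map_sum, Finset.sum_eq_single 1, Finset.sum_eq_zero, add_zero]
      · refine pr_eq_self 𝒜 (hxW 1) ?_
        intro g hg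
        refine ⟨hg.1, ?_⟩
        rw [hg.2, map_one]
      · intro σ hσ
        refine pr_zero_of 𝒜 ?_ (hθW σ hσ)
        intro g hg hg'
        rw [Set.mem_singleton_iff] at hg
        have h3 := hg'.2
        rw [hg, h.πt] at h3
        have h4 := S.τ_d 0 σ
        rw [h3, map_one] at h4
        exact hSg1 (by rw [h4]; exact hσ)
      · intro m _ hm
        refine pr_zero_of 𝒜 ?_ (hxW m)
        intro g hg hg'
        apply hm
        have h3 := hg'.2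
        rw [hg.2] at h3
        have h4 := S.c_r 0 m
        rw [h3, map_one] at h4
        exact h4.symm
      · intro h3
        exact absurd (Finset.mem_univ (1 : A)) h3
    rw [h0, map_zero] at h2
    exact hα0 (a' 1) h2.symm
  have hb : (∑ m, α (a' m) + ∑ σ ∈ Sg, α (t' σ)) *
      (∑ m, α (a' m) + ∑ σ ∈ Sg, α (t' σ))⁻¹ = 1 := mul_inv_cancel₀ hne
  obtain ⟨Bs, hBs⟩ := exists_finset 𝒜 (∑ m, α (a' m) + ∑ σ ∈ Sg, α (t' σ))⁻¹
  refine DSC_descent S 𝒜 hSTG hSTP h𝒜 Sg Cl hCl hAlg hω t' (fun σ => α (t' σ)) hθW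
    (fun σ _ => hα0 _) Bs.card 0 U π a' h (fun m => α (a' m)) hxW ?_ _ hb Bs hBs le_rfl
  have h2 : {m : A | α (a' m) ≠ 0} = Set.univ := by
    rw [Set.eq_univ_iff_forall]
    exact fun m => hα0 _
  rw [h2]
  exact hClu

end Pool.Agent.Work.MP87745.SP
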