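import Pool.Agent.Work.MP_87745a_sp.Interface
import Pool.Agent.Work.MP_87745a_al_gs.ELIM

set_option autoImplicit false

/-! # Block ELM (helper95; adapted from the elimination of helper92) -/

universe uD uA

namespace Pool.Agent.Work.MP87745.SP

open Pool.Agent.Work.MP87745.GS

theorem ELM_aux {D : Type uD} {I : Type uA} [DivisionRing D] [Fintype I] [DecidableEq I]
    (κ : I → I → D) (θ : I → D) (K : Finset I → Subfield D)
    (hmono : ∀ J J', J ⊆ J' → K J ≤ K J') (hκ : ∀ k l, κ k l ∈ K ∅) (J0 : Finset I)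
    (hθ1 : ∀ J ⊆ J0, ∀ i ∈ J0, i ∉ J → θ i ∉ K J) (hθ2 : ∀ i ∈ J0, θ i ∈ K {i}) (Q : D → Prop)
    (hQ : ∀ J ⊆ J0, ∀ i ∈ J0, i ∉ J → ∀ f ρ e r : D, f ∈ K J → ρ ∈ K J → e ∈ K J → r ∈ K J →
      Q (f - ρ * (e + θ i)⁻¹ * r) → Q f)
    (J : Finset I) : J ⊆ J0 →
    ∃ κ' : I → I → D, (∀ k l, κ' k l ∈ K J) ∧ (∀ k, ∀ l ∈ J, κ' k l = 0) ∧
      (∀ y : I → D, (∀ i ∈ J, (∑ l, κ i l * y l) + θ i * y i = 0) →
        ∀ k ∉ J, ∑ l, κ k l * y l = ∑ l, κ' k l * y l) ∧
      (∀ k ∉ J, ∀ l ∉ J,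
        (∃ m, Relation.ReflTransGen (fun u v => κ v u ≠ 0 ∧ v ∈ J) l m ∧ κ k m ≠ 0) →
          κ' k l ≠ 0) ∧
      (∀ l ∉ J, (∀ i ∈ J, κ i l = 0) → ∀ k ∉ J, κ' k l = κ k l) ∧
      (∀ k ∉ J, ∀ l ∉ J, Q (κ' k l) → Q (κ k l)) := by
  induction J using Finset.induction_on with
  | empty =>
    intro _
    refine ⟨κ, hκ, fun k l hl => absurd hl (Finset.notMem_empty _), fun y _ k _ => rfl,
      fun k _ l _ h => ?_, fun l _ _ k _ => rfl, fun k _ l _ h => h⟩
    obtain ⟨m, h1, h2⟩ := h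
    have : l = m := by
      clear h2
      induction h1 with
      | refl => rfl
      | tail _ hc _ => exact absurd hc.2 (Finset.notMem_empty _)
    rwa [this]
  | insert i J hi ih =>
    intro hJ
    have hJ1 : J ⊆ J0 := fun x hx => hJ (Finset.mem_insert_of_mem hx)
    have hi0 : i ∈ J0 := hJ (Finset.mem_insert_self _ _)
    obtain ⟨κ₁, a1, a0, a2, a3, a4, a5⟩ := ih hJ1
    have hθi : θ i ∉ K J := hθ1 J hJ1 i hi0 hi
    set P := κ₁ i i + θ i with hP
    have hP0 : P ≠ 0 := by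
      intro h0
      apply hθi
      have : θ i = - κ₁ i i := by
        rw [hP] at h0
        exact eq_neg_of_add_eq_zero_right h0
      rw [this]
      exact neg_mem (a1 i i)
    have hle : K J ≤ K (insert i J) := hmono _ _ (Finset.subset_insert _ _)
    have hθm : θ i ∈ K (insert i J) := hmono {i} _ (by simp) (hθ2 i hi0)
    have hPm : P ∈ K (insert i J) := add_mem (hle (a1 i i)) hθm
    refine ⟨fun k l => if l = i then 0 else κ₁ k l - κ₁ k i * P⁻¹ * κ₁ i l, fun k l => ?_,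
      fun k l hl => ?_, fun y hy k hk => ?_, fun k hk l hl h => ?_, fun l hl hz k hk => ?_,
      fun k hk l hl hq => ?_⟩
    · dsimp only
      split_ifs with h
      · exact zero_mem _
      · exact sub_mem (hle (a1 k l)) (mul_mem (mul_mem (hle (a1 k i)) (inv_mem hPm)) (hle (a1 i l)))
    · dsimp only
      split_ifs with h
      · rfl
      · have hlJ : l ∈ J := by
          rcases Finset.mem_insert.1 hl with h1 | h1
          · exact absurd h1 h
          · exact h1
        rw [a0 k l hlJ, a0 i l hlJ, mul_zero, sub_zero]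
    · have hy1 : ∀ j ∈ J, (∑ l, κ j l * y l) + θ j * y j = 0 :=
        fun j hj => hy j (Finset.mem_insert_of_mem hj)
      have hkJ : k ∉ J := fun h => hk (Finset.mem_insert_of_mem h)
      have e1 := a2 y hy1 k hkJ
      have e2 := a2 y hy1 i hi
      have e3 := hy i (Finset.mem_insert_self _ _)
      have s1 : ∀ j : I, ∑ l, κ₁ j l * y l =
          κ₁ j i * y i + ∑ l ∈ Finset.univ.erase i, κ₁ j l * y l := fun j =>
        (Finset.add_sum_erase _ (fun l => κ₁ j l * y l) (Finset.mem_univ i)).symm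
      have s2 : ∑ l, (if l = i then 0 else κ₁ k l - κ₁ k i * P⁻¹ * κ₁ i l) * y l =
          ∑ l ∈ Finset.univ.erase i, (κ₁ k l - κ₁ k i * P⁻¹ * κ₁ i l) * y l := by
        rw [← Finset.add_sum_erase _ _ (Finset.mem_univ i), if_pos rfl, zero_mul, zero_add]
        refine Finset.sum_congr rfl fun l hl => ?_
        rw [if_neg (Finset.ne_of_mem_erase hl)]
      rw [e2, s1 i] at e3
      have e4 : P * y i = - ∑ l ∈ Finset.univ.erase i, κ₁ i l * y l := by
        rw [hP, add_mul]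
        have : κ₁ i i * y i + θ i * y i + ∑ l ∈ Finset.univ.erase i, κ₁ i l * y l = 0 := by
          rw [← e3]; abel
        exact eq_neg_of_add_eq_zero_left this
      have e5 : y i = - (P⁻¹ * ∑ l ∈ Finset.univ.erase i, κ₁ i l * y l) := by
        calc y i = P⁻¹ * (P * y i) := by rw [← mul_assoc, inv_mul_cancel₀ hP0, one_mul]
          _ = _ := by rw [e4, mul_neg]
      have e6 : κ₁ k i * y i = - ∑ l ∈ Finset.univ.erase i, κ₁ k i * P⁻¹ * κ₁ i l * y l := by
        rw [e5, mul_neg, ← mul_assoc, Finset.mul_sum]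
        congr 1
        exact Finset.sum_congr rfl fun l _ => (mul_assoc _ _ _).symm
      change _ = ∑ l, (if l = i then 0 else κ₁ k l - κ₁ k i * P⁻¹ * κ₁ i l) * y l
      rw [e1, s1 k, s2, e6, ← Finset.sum_neg_distrib, ← Finset.sum_add_distrib]
      refine Finset.sum_congr rfl fun l _ => ?_
      rw [sub_mul]
      abel
    · have hkJ : k ∉ J := fun h => hk (Finset.mem_insert_of_mem h)
      have hlJ : l ∉ J := fun h => hl (Finset.mem_insert_of_mem h)
      have hli : l ≠ i := fun h => hl (h ▸ Finset.mem_insert_self _ _)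
      dsimp only
      rw [if_neg hli]
      have key : κ₁ k i ≠ 0 → κ₁ i l ≠ 0 → κ₁ k l - κ₁ k i * P⁻¹ * κ₁ i l ≠ 0 := by
        intro b1 b2 h0
        apply hθi
        have h1 : κ₁ k l = κ₁ k i * P⁻¹ * κ₁ i l := sub_eq_zero.1 h0
        have h2 : P⁻¹ = (κ₁ k i)⁻¹ * κ₁ k l * (κ₁ i l)⁻¹ := by
          rw [h1, mul_assoc (κ₁ k i), ← mul_assoc (κ₁ k i)⁻¹, inv_mul_cancel₀ b1, one_mul,
            mul_assoc, mul_inv_cancel₀ b2, mul_one]
        have h3 : P⁻¹ ∈ K J := by
          rw [h2]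
          exact mul_mem (mul_mem (inv_mem (a1 k i)) (a1 k l)) (inv_mem (a1 i l))
        have h4 : P ∈ K J := by
          have := inv_mem h3
          rwa [inv_inv] at this
        have h5 : θ i = P - κ₁ i i := by rw [hP]; abel
        rw [h5]
        exact sub_mem h4 (a1 i i)
      obtain ⟨m, h1, h2⟩ := h
      rcases elim_path κ J i l m h1 with h3 | ⟨h3, h4⟩
      · have hkl : κ₁ k l ≠ 0 := a3 k hkJ l hlJ ⟨m, h3, h2⟩
        by_cases b1 : κ₁ k i = 0
        · simpa [b1] using hkl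
        · by_cases b2 : κ₁ i l = 0
          · simpa [b2] using hkl
          · exact key b1 b2
      · exact key (a3 k hkJ i hi ⟨m, h4, h2⟩) (a3 i hi l hlJ h3)
    · have hkJ : k ∉ J := fun h => hk (Finset.mem_insert_of_mem h)
      have hlJ : l ∉ J := fun h => hl (Finset.mem_insert_of_mem h)
      have hli : l ≠ i := fun h => hl (h ▸ Finset.mem_insert_self _ _)
      have hz1 : ∀ i ∈ J, κ i l = 0 := fun j hj => hz j (Finset.mem_insert_of_mem hj)
      dsimp only
      rw [if_neg hli, a4 l hlJ hz1 i hi, hz i (Finset.mem_insert_self _ _), mul_zero, sub_zero]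
      exact a4 l hlJ hz1 k hkJ
    · have hkJ : k ∉ J := fun h => hk (Finset.mem_insert_of_mem h)
      have hlJ : l ∉ J := fun h => hl (Finset.mem_insert_of_mem h)
      have hli : l ≠ i := fun h => hl (h ▸ Finset.mem_insert_self _ _)
      dsimp only at hq
      rw [if_neg hli] at hq
      exact a5 k hkJ l hlJ (hQ J hJ1 i hi0 hi _ _ _ _ (a1 k l) (a1 k i) (a1 i i) (a1 i l) hq)

theorem p_ELM : Stmt_ELM.{uD, uA} := by
  intro D _ I _ _ κ θ K hmono hκ J0 hθ1 hθ2 Q hQ
  exact ELM_aux κ θ K hmono hκ J0 hθ1 hθ2 Q hQ J0 (Finset.Subset.refl _)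

end Pool.Agent.Work.MP87745.SP
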