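import Pool.Agent.Work.MP_87745a_sp.Interface

set_option autoImplicit false

/-! # MP_87745a_al, THEOREM SP, block GOD (typed by helper63) -/

universe uG uD uA uB uΓ

namespace Pool.Agent.Work.MP87745.SP

open Pool.Agent.Work.MP87745.GS

theorem p_GOD : Stmt_GOD.{uB} := by
  intro B _ _ _ s hs hgen
  obtain ⟨f, hf⟩ : ∃ f : B → ℕ, Function.Injective f :=
    ⟨fun b => (Finite.equivFin B b : ℕ), fun a b h => (Finite.equivFin B).injective (Fin.ext h)⟩
  set V : B → Prop := fun u => u * u ≠ 1 ∧ u ≠ s ∧ u ≠ s⁻¹ ∧ f u < f u⁻¹ with hV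
  have hfin : ({b : B | b = s ∨ ∃ u, V u ∧ b = s * u}).Finite := Set.toFinite _
  have hmem : ∀ b, b ∈ hfin.toFinset ↔ b = s ∨ ∃ u, V u ∧ b = s * u := fun b => by simp
  have hs1 : s ≠ 1 := by
    rintro rfl
    exact hs (mul_one _)
  have hsq : s * s ∉ insert 1 hfin.toFinset := by
    intro h
    rcases Finset.mem_insert.1 h with h | h
    · exact hs h
    · rcases (hmem _).1 h with h | ⟨u, hu, h⟩
      · exact hs1 (mul_eq_left.1 h)
      · exact hu.2.1 (mul_left_cancel h).symm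
  refine ⟨hfin.toFinset, ⟨?_, ?_, hsq, ?_, ?_⟩⟩
  · exact (hmem s).2 (Or.inl rfl)
  · intro h
    rcases (hmem _).1 h with h | ⟨u, hu, h⟩
    · exact hs1 h.symm
    · exact hu.2.2.1 (eq_inv_of_mul_eq_one_right h.symm)
  · intro σ hσ σ' hσ' h
    rcases Finset.mem_insert.1 hσ with h1 | h1
    · rw [h1, one_mul] at h
      exact absurd (h ▸ hσ') hsq
    rcases Finset.mem_insert.1 hσ' with h2 | h2
    · rw [h2, mul_one] at h
      exact absurd (h ▸ hσ) hsq
    rcases (hmem _).1 h1 with h3 | ⟨u, hu, h3⟩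
    · subst h3
      exact ⟨rfl, mul_left_cancel h⟩
    rcases (hmem _).1 h2 with h4 | ⟨u', hu', h4⟩
    · subst h4
      exact ⟨mul_right_cancel h, rfl⟩
    exfalso
    rw [h3, h4, mul_mul_mul_comm] at h
    have h5 : u * u' = 1 := mul_eq_left.1 h
    have h6 : u' = u⁻¹ := eq_inv_of_mul_eq_one_right h5
    have h7 := hu.2.2.2
    have h8 := hu'.2.2.2
    rw [h6, inv_inv] at h8
    omega
  · rw [eq_top_iff, ← hgen, Subgroup.closure_le]
    rintro u ⟨hu1, hu2, hu3⟩
    apply Subgroup.subset_closure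
    have hne : f u ≠ f u⁻¹ := by
      intro h
      have h1 := hf h
      apply hu1
      nth_rewrite 2 [h1]
      exact mul_inv_cancel u
    rcases lt_or_gt_of_ne hne with h | h
    · refine ⟨s * u, (hmem _).2 (Or.inr ⟨u, ⟨hu1, hu2, hu3, h⟩, rfl⟩), s, (hmem _).2 (Or.inl rfl), ?_⟩
      rw [mul_comm s u, mul_inv_cancel_right]
    · refine ⟨s, (hmem _).2 (Or.inl rfl), s * u⁻¹, (hmem _).2 (Or.inr ⟨u⁻¹, ⟨?_, ?_, ?_, ?_⟩, rfl⟩), ?_⟩
      · intro h1
        apply hu1
        rw [← mul_inv] at h1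
        exact inv_eq_one.1 h1
      · intro h1
        exact hu3 (by rw [← h1, inv_inv])
      · intro h1
        exact hu2 (inv_injective h1)
      · rw [inv_inv]
        exact h
      · rw [mul_inv, inv_inv, mul_inv_cancel_left]

end Pool.Agent.Work.MP87745.SP
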