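import Pool.Agent.Work.MP_87745a_sp.Interface

/-! Block PTH: pure combinatorics of paths. -/

set_option autoImplicit false

universe uA

namespace Pool.Agent.Work.MP87745.SP

open Pool.Agent.Work.MP87745.GS

theorem PTH_reach {A : Type uA} [Group A] [Fintype A] [DecidableEq A] (Z : Finset A) (C : Set A)
    (hC : Subgroup.closure C = ⊤) (E : A → A → Prop)
    (hE : ∀ k ∉ Z, ∀ l ∉ Z,
      (∃ m, Relation.ReflTransGen (fun u v => v * u⁻¹ ∈ C ∧ v ∈ Z) l m ∧ k * m⁻¹ ∈ C) → E k l)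
    (l : A) (hl : l ∉ Z) (k : A) (hk : k ∉ Z) :
    Relation.ReflTransGen (fun u v => E v u ∧ v ∉ Z) l k := by
  classical
  set P : A → Prop := fun k =>
    (k ∉ Z → Relation.ReflTransGen (fun u v => E v u ∧ v ∉ Z) l k) ∧
    (k ∈ Z → ∃ e, e ∉ Z ∧ Relation.ReflTransGen (fun u v => E v u ∧ v ∉ Z) l e ∧
      Relation.ReflTransGen (fun u v => v * u⁻¹ ∈ C ∧ v ∈ Z) e k) with hP
  have h0 : P l := ⟨fun _ => Relation.ReflTransGen.refl, fun h => absurd h hl⟩
  have hstep : ∀ m ∈ C, ∀ k, P k → P (m * k) := by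
    intro m hm k hk
    have hmk : m * k * k⁻¹ ∈ C := by rwa [mul_inv_cancel_right]
    by_cases hkZ : k ∈ Z
    · obtain ⟨e, heZ, hle, hek⟩ := hk.2 hkZ
      refine ⟨fun h => ?_, fun h => ⟨e, heZ, hle, hek.tail ⟨hmk, h⟩⟩⟩
      exact hle.tail ⟨hE _ h _ heZ ⟨k, hek, hmk⟩, h⟩
    · have hlk := hk.1 hkZ
      refine ⟨fun h => ?_, fun h => ⟨k, hkZ, hlk, Relation.ReflTransGen.single ⟨hmk, h⟩⟩⟩
      exact hlk.tail ⟨hE _ h _ hkZ ⟨k, Relation.ReflTransGen.refl, hmk⟩, h⟩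
  -- the elements preserving `P`
  have hpow : ∀ x : A, (∀ k, P k → P (x * k)) → ∀ n : ℕ, ∀ k, P k → P (x ^ n * k) := by
    intro x hx n
    induction n with
    | zero => intro k hk; simpa using hk
    | succ n ih => intro k hk; rw [pow_succ, mul_assoc]; exact ih _ (hx _ hk)
  let S : Subgroup A :=
    { carrier := {x | ∀ k, P k → P (x * k)}
      one_mem' := fun k hk => by rwa [one_mul]
      mul_mem' := fun {a b} ha hb k hk => by rw [mul_assoc]; exact ha _ (hb _ hk)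
      inv_mem' := fun {x} hx k hk => by
        have h1 : x⁻¹ = x ^ (orderOf x - 1) := by
          rw [inv_eq_iff_mul_eq_one, ← pow_succ', Nat.sub_add_cancel (orderOf_pos x),
            pow_orderOf_eq_one]
        rw [h1]
        exact hpow x hx _ k hk }
  have hS : S = ⊤ := by
    rw [eq_top_iff, ← hC, Subgroup.closure_le]
    intro m hm
    exact hstep m hm
  have hPk : P k := by
    have h1 : k * l⁻¹ ∈ S := by rw [hS]; trivial
    have h2 := h1 l h0
    rwa [inv_mul_cancel_right] at h2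
  exact hPk.1 hk

theorem p_PTH : Stmt_PTH.{uA} := by
  intro A _ _ _ Z h1Z hj C hC E hE
  obtain ⟨j, hj1, hjZ⟩ := hj
  have hreach := PTH_reach Z C hC E hE
  -- the index `p`
  have hp : ∃ p, p ≠ 1 ∧ p ∉ Z ∧ E p 1 := by
    have h := hreach 1 h1Z j hjZ
    have key : ∀ x, Relation.ReflTransGen (fun u v => E v u ∧ v ∉ Z) 1 x → x ≠ 1 →
        ∃ p, p ≠ 1 ∧ p ∉ Z ∧ E p 1 := by
      intro x hx
      induction hx with
      | refl => intro h; exact absurd rfl h
      | @tail b c hb hbc ih =>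
        intro hc
        by_cases hb1 : b = 1
        · subst hb1
          exact ⟨c, hc, hbc.2, hbc.1⟩
        · exact ih hb1
    exact key j h hj1
  obtain ⟨p, hp1, hpZ, hpE⟩ := hp
  have h := hreach p hpZ 1 h1Z
  have key : ∀ x, Relation.ReflTransGen (fun u v => E v u ∧ v ∉ Z) p x →
      (∃ k, k ≠ 1 ∧ k ∉ Z ∧ E k 1 ∧
        ∃ m, Relation.ReflTransGen (fun u v => E v u ∧ v ≠ 1 ∧ v ∉ Z ∧ ¬ E v 1) k m ∧ E 1 m) ∨
      ∃ k, k ≠ 1 ∧ k ∉ Z ∧ E k 1 ∧
        Relation.ReflTransGen (fun u v => E v u ∧ v ≠ 1 ∧ v ∉ Z ∧ ¬ E v 1) k x := by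
    intro x hx
    induction hx with
    | refl => exact Or.inr ⟨p, hp1, hpZ, hpE, Relation.ReflTransGen.refl⟩
    | @tail b c hb hbc ih =>
      rcases ih with ih | ⟨k, hk1, hkZ, hkE, hkb⟩
      · exact Or.inl ih
      · by_cases hc : c = 1
        · subst hc
          exact Or.inl ⟨k, hk1, hkZ, hkE, b, hkb, hbc.1⟩
        · by_cases hcE : E c 1
          · exact Or.inr ⟨c, hc, hbc.2, hcE, Relation.ReflTransGen.refl⟩
          · exact Or.inr ⟨k, hk1, hkZ, hkE, hkb.tail ⟨hbc.1, hc, hbc.2, hcE⟩⟩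
  rcases key 1 h with h | ⟨k, hk1, hkZ, hkE, hk⟩
  · exact h
  · exfalso
    rcases Relation.ReflTransGen.cases_tail hk with h | ⟨b, -, hb⟩
    · exact hk1 h.symm
    · exact hb.2.1 rfl

end Pool.Agent.Work.MP87745.SP
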