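import Pool.Agent.Work.MP_87745a_sp.Interface

/-!
# Block STG: the next stage
-/

set_option autoImplicit false

universe uG uD uA uB uΓ

namespace Pool.Agent.Work.MP87745.SP

open Pool.Agent.Work.MP87745.GS

section STG

variable {A : Type uA} {B : Type uB} [Group A] [DecidableEq A] [CommGroup B]
  {ω : ℕ → A → B →* A} {Γ : ℕ → Type uΓ} [∀ n, Group (Γ n)]

theorem STG_sec_one (S : Data A B ω Γ) (n : ℕ) (v : A) : S.sec n 1 v = 1 := by
  have h := S.sec_mul n 1 1 v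
  rw [map_one, one_mul, one_mul] at h
  exact (mul_eq_left.mp h.symm)

variable {S : Data A B ω Γ} {G : Type uG} [Group G] {n : ℕ} {U : Subgroup G} {π : G → Γ n}
  {a' : A → G} {t' : B → G}

theorem STG_π_one (h : Stg S n U π a' t') : π 1 = 1 := by
  have h1 := h.mul 1 U.one_mem 1 U.one_mem
  rw [one_mul] at h1
  exact (mul_eq_left.mp h1.symm)

theorem STG_π_inv (h : Stg S n U π a' t') {g : G} (hg : g ∈ U) : π g⁻¹ = (π g)⁻¹ := by
  have h1 := h.mul g⁻¹ (U.inv_mem hg) g hg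
  rw [inv_mul_cancel, STG_π_one h] at h1
  exact eq_inv_of_mul_eq_one_left h1.symm

/-- the subgroup of the next stage -/
def STG_U (h : Stg S n U π a' t') : Subgroup G where
  carrier := {g | g ∈ U ∧ S.c n (π g) = 1}
  one_mem' := ⟨U.one_mem, by rw [STG_π_one h, map_one]⟩
  mul_mem' := by
    rintro g g' ⟨h1, h2⟩ ⟨h3, h4⟩
    exact ⟨U.mul_mem h1 h3, by rw [h.mul g h1 g' h3, map_mul, h2, h4, one_mul]⟩
  inv_mem' := by
    rintro g ⟨h1, h2⟩
    exact ⟨U.inv_mem h1, by rw [STG_π_inv h h1, map_inv, h2, inv_one]⟩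

theorem STG_mem (h : Stg S n U π a' t') (g : G) :
    g ∈ STG_U h ↔ g ∈ U ∧ S.c n (π g) = 1 := Iff.rfl

theorem STG_mul (h : Stg S n U π a' t') {g g' : G} (hg : g ∈ STG_U h) (hg' : g' ∈ STG_U h) :
    S.sec n (π (g * g')) 1 = S.sec n (π g) 1 * S.sec n (π g') 1 := by
  rw [h.mul g hg.1 g' hg'.1, S.sec_mul, hg'.2, one_mul]

/-- the rooted elements which are reached -/
def STG_P (h : Stg S n U π a' t') : Subgroup A where
  carrier := {k | ∃ g ∈ STG_U h, S.sec n (π g) 1 = S.r (n + 1) k}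
  one_mem' := ⟨1, (STG_U h).one_mem, by rw [STG_π_one h, STG_sec_one, map_one]⟩
  mul_mem' := by
    rintro k k' ⟨g, hg, h1⟩ ⟨g', hg', h2⟩
    exact ⟨g * g', (STG_U h).mul_mem hg hg', by rw [STG_mul h hg hg', h1, h2, map_mul]⟩
  inv_mem' := by
    rintro k ⟨g, hg, h1⟩
    refine ⟨g⁻¹, (STG_U h).inv_mem hg, ?_⟩
    have h2 := STG_mul h ((STG_U h).inv_mem hg) hg
    rw [inv_mul_cancel, STG_π_one h, STG_sec_one] at h2
    rw [eq_inv_of_mul_eq_one_left h2.symm, h1, map_inv]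

theorem STG_gen (h : Stg S n U π a' t') (v : A) (hv : v ≠ 1) (β : B) :
    ω n v β ∈ STG_P h := by
  have e : π ((a' v)⁻¹ * t' β * a' v) = S.r n v⁻¹ * S.d n β * S.r n v := by
    rw [h.mul _ (U.mul_mem (U.inv_mem (h.ha v)) (h.ht β)) _ (h.ha v),
      h.mul _ (U.inv_mem (h.ha v)) _ (h.ht β), STG_π_inv h (h.ha v), h.πa, h.πt, map_inv]
  refine ⟨(a' v)⁻¹ * t' β * a' v,
    ⟨U.mul_mem (U.mul_mem (U.inv_mem (h.ha v)) (h.ht β)) (h.ha v), ?_⟩, ?_⟩
  · rw [e, map_mul, map_mul, S.c_r, S.c_r, S.c_d, mul_one, inv_mul_cancel]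
  · rw [e, S.sec_mul, S.sec_r, S.c_r, mul_one, mul_one, S.sec_mul, S.sec_r, one_mul, S.sec_d,
      if_neg hv]

end STG

theorem p_STG : Stmt_STG.{uG, uA, uB, uΓ} := by
  intro A B _ _ _ ω Γ _ S G _ n U π a' t' h hcl
  have htop : STG_P h = ⊤ := by
    rw [eq_top_iff, ← hcl, Subgroup.closure_le]
    rintro a ⟨v, hv, β, rfl⟩
    exact STG_gen h v hv β
  have hex : ∀ k : A, ∃ g ∈ STG_U h, S.sec n (π g) 1 = S.r (n + 1) k := by
    intro k
    have : k ∈ STG_P h := by rw [htop]; exact Subgroup.mem_top k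
    exact this
  choose f hf1 hf2 using hex
  refine ⟨STG_U h, fun k => if k = 1 then 1 else f k, STG_mem h, ?_⟩
  refine ⟨?_, ?_, ?_, ?_, ?_, ?_⟩
  · intro g hg g' hg'
    exact STG_mul h hg hg'
  · intro k
    by_cases hk : k = 1
    · simp only [hk, if_true]
      exact (STG_U h).one_mem
    · simp only [hk, if_false]
      exact hf1 k
  · simp only [if_true]
  · intro k
    by_cases hk : k = 1
    · simp only [hk, if_true]
      rw [STG_π_one h, STG_sec_one, map_one]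
    · simp only [hk, if_false]
      exact hf2 k
  · intro β
    exact ⟨h.ht β, by rw [h.πt, S.c_d]⟩
  · intro β
    show S.sec n (π (t' β)) 1 = S.d (n + 1) β
    rw [h.πt, S.sec_d, if_pos rfl]

end Pool.Agent.Work.MP87745.SP
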