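import Mathlib
import Pool.Agent.Work.MP_87745a_sp.Interface

/-!
Block STP (helper70): one step of the descent.
-/

set_option autoImplicit false

namespace Pool.Agent.Work.MP87745.SP

open Pool.Agent.Work.MP87745.GS

universe uG uD uA uB uΓ

theorem STP_mul_singleton {G : Type uG} [Group G] {D : Type uD} [DivisionRing D]
    [DecidableEq (Additive G)] (𝒜 : Additive G → AddSubgroup D) [GradedRing 𝒜] {g h : G} {a b : D}
    (ha : a ∈ W 𝒜 ({g} : Set G)) (hb : b ∈ W 𝒜 ({h} : Set G)) :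
    a * b ∈ W 𝒜 ({g * h} : Set G) :=
  mul_mem_W 𝒜 (fun u hu v hv => by
    rw [Set.mem_singleton_iff] at hu hv ⊢
    rw [hu, hv]) ha hb

section Data

variable {A : Type uA} {B : Type uB} [Group A] [DecidableEq A] [CommGroup B]
  {ω : ℕ → A → B →* A} {Γ : ℕ → Type uΓ} [∀ n, Group (Γ n)] (S : Data A B ω Γ)

theorem STP_sec_one (n : ℕ) (v : A) : S.sec n 1 v = 1 := by
  have h := S.sec_mul n 1 1 v
  rw [mul_one, map_one, one_mul] at h
  exact left_eq_mul.1 h

/-- sections of conjugates of `d` -/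
theorem STP_sec_conj (n : ℕ) (k v : A) (β : B) :
    S.sec n ((S.r n k)⁻¹ * S.d n β * S.r n k) v =
      if k * v = 1 then S.d (n + 1) β else S.r (n + 1) (ω n (k * v) β) := by
  rw [← map_inv, S.sec_mul, S.sec_mul, S.sec_r, S.sec_r, mul_one, one_mul, S.c_r, S.sec_d]

theorem STP_c_conj (n : ℕ) (k : A) (β : B) :
    S.c n ((S.r n k)⁻¹ * S.d n β * S.r n k) = 1 := by
  rw [map_mul, map_mul, map_inv, S.c_d, mul_one, inv_mul_cancel]

variable {S} {G : Type uG} [Group G] {n : ℕ} {U : Subgroup G} {π : G → Γ n} {a' : A → G}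
  {t' : B → G}

theorem STP_π_one (h : Stg S n U π a' t') : π 1 = 1 := by
  have h1 := h.mul 1 U.one_mem 1 U.one_mem
  rw [mul_one] at h1
  exact left_eq_mul.1 h1

theorem STP_π_inv (h : Stg S n U π a' t') {g : G} (hg : g ∈ U) : π g⁻¹ = (π g)⁻¹ := by
  have h1 := h.mul g hg g⁻¹ (U.inv_mem hg)
  rw [mul_inv_cancel, STP_π_one h] at h1
  exact (inv_eq_of_mul_eq_one_right h1.symm).symm

theorem STP_conj_mem (h : Stg S n U π a' t') (k : A) (β : B) : (a' k)⁻¹ * t' β * a' k ∈ U :=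
  U.mul_mem (U.mul_mem (U.inv_mem (h.ha k)) (h.ht β)) (h.ha k)

theorem STP_π_conj (h : Stg S n U π a' t') (k : A) (β : B) :
    π ((a' k)⁻¹ * t' β * a' k) = (S.r n k)⁻¹ * S.d n β * S.r n k := by
  rw [h.mul _ (U.mul_mem (U.inv_mem (h.ha k)) (h.ht β)) _ (h.ha k),
    h.mul _ (U.inv_mem (h.ha k)) _ (h.ht β), STP_π_inv h (h.ha k), h.πa, h.πt]

end Data

theorem p_STP : Stmt_STP.{uG, uD, uA, uB, uΓ} := by
  intro A B _ _ _ _ _ ω Γ _ S G _ D _ _ 𝒜 _ h𝒜 Sg Cl n hAlg U π a' t' h U' hU' θ hθ hθ0 x hx hCl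
    b hxb
  classical
  -- nonzero elements of degree `a' k`
  obtain ⟨α, hα, hα0, hα1⟩ : ∃ α : A → D, (∀ k, α k ∈ W 𝒜 ({a' k} : Set G)) ∧ (∀ k, α k ≠ 0) ∧
      α 1 = 1 := by
    have h1 : ∀ k, ∃ c ∈ W 𝒜 ({a' k} : Set G), c ≠ 0 := by
      intro k
      obtain ⟨c, hc⟩ := AddSubgroup.ne_bot_iff_exists_ne_zero.1 (h𝒜 (Additive.ofMul (a' k)))
      exact ⟨c, hom_mem 𝒜 c.2 rfl, fun h0 => hc (Subtype.ext h0)⟩
    choose c hc hc0 using h1
    refine ⟨fun k => if k = 1 then 1 else c k, ?_, ?_, if_pos rfl⟩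
    · intro k
      by_cases hk : k = 1
      · simp only [if_pos hk]
        refine one_mem_W 𝒜 ?_
        rw [hk, h.ha1]
        exact Set.mem_singleton 1
      · simp only [if_neg hk]
        exact hc k
    · intro k
      by_cases hk : k = 1
      · simp only [if_pos hk]
        exact one_ne_zero
      · simp only [if_neg hk]
        exact hc0 k
  have hαinv : ∀ k, (α k)⁻¹ ∈ W 𝒜 ({(a' k)⁻¹} : Set G) := fun k =>
    inv_mem_singleton 𝒜 (hα k) (hα0 k)
  -- the first letter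
  have cmul : ∀ g ∈ U, ∀ u ∈ U, S.c n (π (g * u)) = S.c n (π g) * S.c n (π u) := by
    intro g hg u hu
    rw [h.mul g hg u hu, map_mul]
  -- the parts of `b`
  set Bb : A → D := fun l => pr 𝒜 {g | g ∈ U ∧ S.c n (π g) = l} b with hB
  have hxc : ∀ m, x m ∈ W 𝒜 {g | g ∈ U ∧ S.c n (π g) = m} := by
    intro m
    refine W_mono 𝒜 ?_ (hx m)
    intro g hg
    exact ⟨hg.1, by rw [hg.2, S.c_r]⟩
  have hshift : ∀ (m k : A), ∀ g ∈ {g | g ∈ U ∧ S.c n (π g) = m}, ∀ u,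
      g * u ∈ {g | g ∈ U ∧ S.c n (π g) = k} ↔ u ∈ {g | g ∈ U ∧ S.c n (π g) = m⁻¹ * k} := by
    intro m k g hg u
    constructor
    · intro h1
      have hu : u ∈ U := (U.mul_mem_cancel_left hg.1).1 h1.1
      refine ⟨hu, ?_⟩
      rw [← h1.2, cmul g hg.1 u hu, hg.2, inv_mul_cancel_left]
    · intro h1
      refine ⟨U.mul_mem hg.1 h1.1, ?_⟩
      rw [cmul g hg.1 u h1.1, hg.2, h1.2, mul_inv_cancel_left]
  have hmain : ∀ k, ∑ l, x (k * l⁻¹) * Bb l + (∑ σ ∈ Sg, θ σ) * Bb k = if k = 1 then 1 else 0 := by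
    intro k
    have h1 : pr 𝒜 {g | g ∈ U ∧ S.c n (π g) = k} ((∑ m, x m + ∑ σ ∈ Sg, θ σ) * b) =
        if k = 1 then 1 else 0 := by
      rw [hxb, pr_one]
      have h2 : ((1 : G) ∈ {g | g ∈ U ∧ S.c n (π g) = k}) ↔ k = 1 := by
        constructor
        · intro h3
          rw [← h3.2, STP_π_one h, map_one]
        · intro h3
          refine ⟨U.one_mem, ?_⟩
          rw [h3, STP_π_one h, map_one]
      by_cases hk : k = 1
      · rw [if_pos hk, if_pos (h2.2 hk)]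
      · rw [if_neg hk, if_neg (fun h3 => hk (h2.1 h3))]
    have e1 : (∑ m, x m) * b = ∑ m, x m * b := Finset.sum_mul _ _ _
    have e2 : (∑ σ ∈ Sg, θ σ) * b = ∑ σ ∈ Sg, θ σ * b := Finset.sum_mul _ _ _
    rw [← h1, add_mul, map_add, e1, e2, map_sum, map_sum, Finset.sum_mul]
    congr 1
    · refine (Fintype.sum_equiv ((Equiv.inv A).trans (Equiv.mulRight k)) _ _ (fun m => ?_)).symm
      rw [pr_mul_left 𝒜 (hshift m k) (hxc m)]
      simp only [Equiv.trans_apply, Equiv.inv_apply, Equiv.coe_mulRight, mul_inv_rev, inv_inv,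
        mul_inv_cancel_left]
      rfl
    · refine Finset.sum_congr rfl (fun σ hσ => ?_)
      have h3 : θ σ ∈ W 𝒜 {g | g ∈ U ∧ S.c n (π g) = 1} := by
        refine W_mono 𝒜 ?_ (hθ σ hσ)
        intro g hg
        rw [Set.mem_singleton_iff] at hg
        rw [hg]
        exact ⟨h.ht σ, by rw [h.πt, S.c_d]⟩
      rw [pr_mul_left 𝒜 (hshift 1 k) h3, inv_one, one_mul]
  -- sections at `1` are multiplicative on `U'`
  have secmul : ∀ g ∈ U', ∀ u ∈ U', ∀ v, S.sec n (π (g * u)) v = S.sec n (π g) v *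
      S.sec n (π u) v := by
    intro g hg u hu v
    rw [h.mul g ((hU' g).1 hg).1 u ((hU' u).1 hu).1, S.sec_mul, ((hU' u).1 hu).2, one_mul]
  have secone : ∀ v, S.sec n (π 1) v = 1 := by
    intro v
    rw [STP_π_one h, STP_sec_one]
  -- the group
  let K : Subgroup G :=
    { carrier := {g | g ∈ U' ∧ ∃ a, S.r (n + 1) a = S.sec n (π g) 1}
      one_mem' := ⟨U'.one_mem, 1, by rw [secone, map_one]⟩
      mul_mem' := fun {g u} hg hu => ⟨U'.mul_mem hg.1 hu.1, by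
        obtain ⟨a1, h1⟩ := hg.2
        obtain ⟨a2, h2⟩ := hu.2
        exact ⟨a1 * a2, by rw [secmul g hg.1 u hu.1, map_mul, h1, h2]⟩⟩
      inv_mem' := fun {g} hg => ⟨U'.inv_mem hg.1, by
        obtain ⟨a1, h1⟩ := hg.2
        refine ⟨a1⁻¹, ?_⟩
        have h2 := secmul g hg.1 g⁻¹ (U'.inv_mem hg.1) 1
        rw [mul_inv_cancel, secone] at h2
        rw [map_inv, h1]
        exact inv_eq_of_mul_eq_one_right h2.symm⟩ }
  have memK : ∀ g, g ∈ K ↔ g ∈ U' ∧ ∃ a, S.r (n + 1) a = S.sec n (π g) 1 := fun g => Iff.rfl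
  let X : A → G → B := fun l g => S.τ (n + 1) (S.sec n (π g) l⁻¹)
  let cc : G → A := fun g => S.c (n + 1) (S.sec n (π g) 1)
  let T : A → B → G := fun k σ => (a' k)⁻¹ * t' σ * a' k
  let Θ : A → B → D := fun k σ => (α k)⁻¹ * θ σ * α k
  let κ : A → A → D := fun k l => (α k)⁻¹ * x (k * l⁻¹) * α l
  let y : A → D := fun l => (α l)⁻¹ * Bb l
  have secT : ∀ k σ v, S.sec n (π (T k σ)) v =
      if k * v = 1 then S.d (n + 1) σ else S.r (n + 1) (ω n (k * v) σ) := by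
    intro k σ v
    have h1 : π (T k σ) = (S.r n k)⁻¹ * S.d n σ * S.r n k := STP_π_conj h k σ
    rw [h1, STP_sec_conj]
  have hTU : ∀ k σ, T k σ ∈ U' := by
    intro k σ
    refine (hU' _).2 ⟨STP_conj_mem h k σ, ?_⟩
    have h1 : π (T k σ) = (S.r n k)⁻¹ * S.d n σ * S.r n k := STP_π_conj h k σ
    rw [h1, STP_c_conj]
  have hκW : ∀ k l, κ k l ∈ W 𝒜 {g | g ∈ U ∧ π g = 1} := by
    intro k l
    refine mul_mem_W 𝒜 (P := {g | g ∈ U ∧ π g = (S.r n l)⁻¹}) ?_
      (mul_mem_W 𝒜 ?_ (hαinv k) (hx _)) (hα l)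
    · intro g hg u hu
      rw [Set.mem_singleton_iff] at hu
      rw [hu]
      refine ⟨U.mul_mem hg.1 (h.ha l), ?_⟩
      rw [h.mul g hg.1 _ (h.ha l), hg.2, h.πa, inv_mul_cancel]
    · intro g hg u hu
      rw [Set.mem_singleton_iff] at hg
      rw [hg]
      have h2 := U.inv_mem (h.ha k)
      refine ⟨U.mul_mem h2 hu.1, ?_⟩
      rw [h.mul _ h2 u hu.1, hu.2, STP_π_inv h (h.ha k), h.πa, map_mul, map_inv,
        inv_mul_cancel_left]
  have hA : Alg 𝒜 Sg (ω n) K X cc T Θ κ x y :=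
    { hX := by
        intro l g hg u hu
        show S.τ (n + 1) (S.sec n (π (g * u)) l⁻¹) = _
        rw [secmul g hg.1 u hu.1, map_mul]
      hcc := by
        intro g hg u hu
        show S.c (n + 1) (S.sec n (π (g * u)) 1) = _
        rw [secmul g hg.1 u hu.1, map_mul]
      hT := by
        intro k hk σ _
        refine (memK _).2 ⟨hTU k σ, ω n k σ, ?_⟩
        rw [secT, mul_one, if_neg hk]
      hXT := by
        intro k hk σ _ l hl
        show S.τ (n + 1) (S.sec n (π (T k σ)) l⁻¹) = _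
        rw [secT]
        by_cases hkl : l = k
        · rw [if_pos hkl, if_pos (by rw [hkl, mul_inv_cancel]), S.τ_d]
        · rw [if_neg hkl, if_neg (fun h1 => hkl (mul_inv_eq_one.1 h1).symm), S.τ_r]
      hcT := by
        intro k hk σ _
        show S.c (n + 1) (S.sec n (π (T k σ)) 1) = _
        rw [secT, mul_one, if_neg hk, S.c_r]
      hθ := fun k σ hσ => STP_mul_singleton 𝒜 (STP_mul_singleton 𝒜 (hαinv k) (hθ σ hσ)) (hα k)
      hθ0 := fun k σ hσ => mul_ne_zero (mul_ne_zero (inv_ne_zero (hα0 k)) (hθ0 σ hσ)) (hα0 k)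
      hκ := by
        intro k l
        refine W_mono 𝒜 ?_ (hκW k l)
        intro g hg
        have h1 : ∀ v, S.sec n (π g) v = 1 := by
          intro v
          rw [hg.2, STP_sec_one]
        refine ⟨(memK g).2 ⟨(hU' g).2 ⟨hg.1, by rw [hg.2, map_one]⟩, 1, by rw [h1, map_one]⟩,
          ?_, ?_⟩
        · show S.c (n + 1) (S.sec n (π g) 1) = 1
          rw [h1, map_one]
        · intro j _
          show S.τ (n + 1) (S.sec n (π g) j⁻¹) = 1
          rw [h1, map_one]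
      hκx := by
        intro k l
        show (α k)⁻¹ * x (k * l⁻¹) * α l ≠ 0 ↔ _
        constructor
        · intro h1 h2
          rw [h2, mul_zero, zero_mul] at h1
          exact h1 rfl
        · intro h1
          exact mul_ne_zero (mul_ne_zero (inv_ne_zero (hα0 _)) h1) (hα0 _)
      heq := by
        intro k
        have h1 : ∑ l, κ k l * y l + (∑ σ ∈ Sg, Θ k σ) * y k =
            (α k)⁻¹ * (∑ l, x (k * l⁻¹) * Bb l + (∑ σ ∈ Sg, θ σ) * Bb k) := by
          rw [mul_add, Finset.mul_sum, Finset.sum_mul, Finset.sum_mul, Finset.mul_sum]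
          congr 1
          · refine Finset.sum_congr rfl (fun l _ => ?_)
            show (α k)⁻¹ * x (k * l⁻¹) * α l * ((α l)⁻¹ * Bb l) = _
            rw [mul_assoc, mul_inv_cancel_left₀ (hα0 _), mul_assoc]
          · refine Finset.sum_congr rfl (fun σ _ => ?_)
            show (α k)⁻¹ * θ σ * α k * ((α k)⁻¹ * Bb k) = _
            rw [mul_assoc, mul_inv_cancel_left₀ (hα0 _), mul_assoc]
        rw [h1, hmain k]
        by_cases hk : k = 1
        · rw [if_pos hk, hk, hα1, inv_one, one_mul]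
        · rw [if_neg hk, mul_zero] }
  obtain ⟨F, hF, hFy, hFC⟩ := hAlg K X cc T Θ κ x y hA hCl
  have hy1 : y 1 = pr 𝒜 (U' : Set G) b := by
    show (α 1)⁻¹ * Bb 1 = _
    rw [hα1, inv_one, one_mul, hB]
    have h1 : {g | g ∈ U ∧ S.c n (π g) = 1} = (U' : Set G) := by
      ext g
      exact (hU' g).symm
    show pr 𝒜 {g | g ∈ U ∧ S.c n (π g) = 1} b = _
    rw [h1]
  have hΘ1 : ∑ σ ∈ Sg, Θ 1 σ = ∑ σ ∈ Sg, θ σ := by
    refine Finset.sum_congr rfl (fun σ _ => ?_)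
    show (α 1)⁻¹ * θ σ * α 1 = θ σ
    rw [hα1, inv_one, one_mul, mul_one]
  rw [hy1, hΘ1] at hFy
  refine ⟨fun m => pr 𝒜 {g | g ∈ (K : Set G) ∧ cc g = m} F, ?_, hFC, ?_⟩
  · intro m
    refine W_mono 𝒜 ?_ (pr_mem 𝒜 _ F)
    intro g hg
    obtain ⟨hgK, hgm⟩ := hg
    obtain ⟨hgU, a, ha⟩ := (memK g).1 hgK
    refine ⟨hgU, ?_⟩
    have h1 : S.c (n + 1) (S.sec n (π g) 1) = m := hgm
    rw [← ha, S.c_r] at h1
    rw [← ha, h1]
  · rw [sum_pr 𝒜 (K : Set G) cc F, (mem_W 𝒜).1 hF]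
    exact hFy

end Pool.Agent.Work.MP87745.SP
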