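import Pool.Agent.Work.MP_87745a_sp.Interface

/-! # MP_87745a_al, spinal groups, block TAU: the content is well defined -/

set_option autoImplicit false

universe uG uD uA uB uΓ

namespace Pool.Agent.Work.MP87745.SP

open Pool.Agent.Work.MP87745.GS

/-- the value of a word -/
def TAU_ev {A : Type uA} {B : Type uB} [Group A] [CommGroup B] {P : Type uG} [Group P]
    (r : A →* P) (d : B →* P) (L : List (A × B)) : P :=
  (L.map fun p => r p.1 * d p.2).prod

/-- the content of a word -/
def TAU_ct {A : Type uA} {B : Type uB} [CommGroup B] (L : List (A × B)) : B :=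
  (L.map Prod.snd).prod

theorem TAU_pre {A : Type uA} {B : Type uB} [Group A] [CommGroup B] {P : Type uG} [Group P]
    (r : A →* P) (d : B →* P) (γ : A) (L : List (A × B)) (a : A) :
    ∃ (L2 : List (A × B)) (a2 : A),
      r γ * (TAU_ev r d L * r a) = TAU_ev r d L2 * r a2 ∧ L2.length = L.length ∧
        TAU_ct L2 = TAU_ct L := by
  cases L with
  | nil => exact ⟨[], γ * a, by simp [TAU_ev], rfl, rfl⟩
  | cons p L' =>
    refine ⟨(γ * p.1, p.2) :: L', a, ?_, rfl, rfl⟩
    simp only [TAU_ev, List.map_cons, List.prod_cons, map_mul, mul_assoc]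

section

variable {A : Type uA} {B : Type uB} [Group A] [Fintype A] [DecidableEq A] [CommGroup B]
  (ω : ℕ → A → B →* A) (r : A →* Equiv.Perm (Stream' A))
  (hr : ∀ a x y, r a (Stream'.cons x y) = Stream'.cons (a * x) y)
  (d : ℕ → B →* Equiv.Perm (Stream' A))
  (hd : ∀ n β x y, d n β (Stream'.cons x y) =
      Stream'.cons x (if x = 1 then d (n + 1) β y else r (ω n x β) y))

include hr hd in
theorem TAU_sec (n : ℕ) (L : List (A × B)) :
    ∃ (c : A) (S : A → Equiv.Perm (Stream' A)) (W : A → List (A × B)) (e : A → A),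
      (∀ v y, TAU_ev r (d n) L (Stream'.cons v y) = Stream'.cons (c * v) (S v y)) ∧
      (∀ v, S v = TAU_ev r (d (n + 1)) (W v) * r (e v)) ∧
      (∀ v, (W v).length ≤ L.length) ∧
      (∀ v, (W v).length = L.length → S v = d (n + 1) (TAU_ct L)) ∧
      ∏ v, TAU_ct (W v) = TAU_ct L := by
  induction L with
  | nil =>
    refine ⟨1, fun _ => 1, fun _ => [], fun _ => 1, ?_, ?_, ?_, ?_, ?_⟩
    · intro v y
      simp [TAU_ev]
    · intro v
      simp [TAU_ev]
    · intro v
      exact le_refl _
    · intro v _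
      simp [TAU_ct]
    · simp [TAU_ct]
  | cons p L' ih =>
    obtain ⟨c', S', W', e', h1, h2, h3, h4, h5⟩ := ih
    have key : ∀ v, ∃ (Wv : List (A × B)) (ev : A),
        (if c' * v = 1 then d (n + 1) p.2 else r (ω n (c' * v) p.2)) * S' v =
          TAU_ev r (d (n + 1)) Wv * r ev ∧
        Wv.length = (if c' * v = 1 then 1 else 0) + (W' v).length ∧
        TAU_ct Wv = (if v = c'⁻¹ then p.2 else 1) * TAU_ct (W' v) := by
      intro v
      by_cases hv : c' * v = 1
      · refine ⟨(1, p.2) :: W' v, e' v, ?_, ?_, ?_⟩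
        · rw [if_pos hv, h2 v]
          simp only [TAU_ev, List.map_cons, List.prod_cons, map_one, one_mul, mul_assoc]
        · rw [if_pos hv, List.length_cons, Nat.add_comm]
        · rw [if_pos (by rw [← mul_eq_one_iff_inv_eq.1 hv])]
          simp [TAU_ct]
      · obtain ⟨L2, a2, g1, g2, g3⟩ :=
          TAU_pre r (d (n + 1)) (ω n (c' * v) p.2) (W' v) (e' v)
        refine ⟨L2, a2, ?_, ?_, ?_⟩
        · rw [if_neg hv, h2 v, g1]
        · rw [if_neg hv, g2, Nat.zero_add]
        · rw [if_neg (fun h => hv (by rw [h, mul_inv_cancel])), one_mul, g3]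
    choose W e k1 k2 k3 using key
    refine ⟨p.1 * c', fun v =>
      (if c' * v = 1 then d (n + 1) p.2 else r (ω n (c' * v) p.2)) * S' v, W, e, ?_, k1, ?_, ?_, ?_⟩
    · intro v y
      have h0 : TAU_ev r (d n) (p :: L') = r p.1 * d n p.2 * TAU_ev r (d n) L' := by
        simp [TAU_ev]
      rw [h0, Equiv.Perm.mul_apply, Equiv.Perm.mul_apply, h1, hd, hr, mul_assoc]
      congr 1
      by_cases hv : c' * v = 1
      · simp only [if_pos hv, Equiv.Perm.mul_apply]
      · simp only [if_neg hv, Equiv.Perm.mul_apply]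
    · intro v
      rw [k2 v, List.length_cons]
      have := h3 v
      split_ifs <;> omega
    · intro v hv
      rw [k2 v, List.length_cons] at hv
      have h6 := h3 v
      by_cases hc : c' * v = 1
      · rw [if_pos hc] at hv
        have h7 := h4 v (by omega)
        simp only [if_pos hc, h7]
        rw [← map_mul]
        simp [TAU_ct]
      · rw [if_neg hc] at hv
        omega
    · rw [Finset.prod_congr rfl (fun v _ => k3 v), Finset.prod_mul_distrib, h5,
        Finset.prod_ite_eq']
      simp [TAU_ct]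

include hr hd in
theorem TAU_claim (hinj : ∀ n, Function.Injective (d n)) (m : ℕ) :
    ∀ (n : ℕ) (L : List (A × B)) (a : A), L.length = m → TAU_ev r (d n) L = r a →
      TAU_ct L = 1 := by
  induction m using Nat.strong_induction_on with
  | _ m ih =>
    intro n L a hL hev
    obtain ⟨c, S, W, e, h1, h2, h3, h4, h5⟩ := TAU_sec ω r hr d hd n L
    have hS : ∀ v, S v = 1 := by
      intro v
      apply Equiv.ext
      intro y
      have h6 := h1 v y
      rw [hev, hr] at h6
      have h7 := (Stream'.cons_injective2 h6).2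
      rw [← h7]
      rfl
    by_cases hex : ∃ v, (W v).length = L.length
    · obtain ⟨v, hv⟩ := hex
      have h6 := h4 v hv
      rw [hS v] at h6
      apply hinj (n + 1)
      rw [← h6, map_one]
    · push Not at hex
      rw [← h5]
      apply Finset.prod_eq_one
      intro v _
      refine ih (W v).length ?_ (n + 1) (W v) (e v)⁻¹ rfl ?_
      · exact lt_of_lt_of_eq (lt_of_le_of_ne (h3 v) (hex v)) hL
      · rw [map_inv, eq_inv_iff_mul_eq_one, ← h2 v, hS v]

end

theorem TAU_word {A : Type uA} {B : Type uB} [Group A] [CommGroup B]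
    (x : Monoid.Coprod A B) : ∃ (L : List (A × B)) (a : A),
      x = TAU_ev (Monoid.Coprod.inl) (Monoid.Coprod.inr) L * Monoid.Coprod.inl a := by
  induction x using Monoid.Coprod.induction_on' with
  | one => exact ⟨[], 1, by simp [TAU_ev]⟩
  | inl_mul γ x ih =>
    obtain ⟨L, a, rfl⟩ := ih
    obtain ⟨L2, a2, g1, -, -⟩ :=
      TAU_pre (Monoid.Coprod.inl : A →* Monoid.Coprod A B) Monoid.Coprod.inr γ L a
    exact ⟨L2, a2, g1⟩
  | inr_mul β x ih =>
    obtain ⟨L, a, rfl⟩ := ih
    refine ⟨(1, β) :: L, a, ?_⟩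
    simp [TAU_ev, mul_assoc]

theorem TAU_map {A : Type uA} {B : Type uB} [Group A] [CommGroup B] {P Q : Type*} [Group P]
    [Group Q] (f : P →* Q) (r : A →* P) (d : B →* P) (L : List (A × B)) :
    f (TAU_ev r d L) = TAU_ev (f.comp r) (f.comp d) L := by
  induction L with
  | nil => simp [TAU_ev]
  | cons p L ih =>
    simp only [TAU_ev, List.map_cons, List.prod_cons, map_mul, MonoidHom.comp_apply] at ih ⊢
    rw [ih]

theorem TAU_one {A : Type uA} {B : Type uB} [Group A] [CommGroup B] (L : List (A × B)) :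
    TAU_ev (1 : A →* B) (MonoidHom.id B) L = TAU_ct L := by
  induction L with
  | nil => simp [TAU_ev, TAU_ct]
  | cons p L ih =>
    simp only [TAU_ev, TAU_ct, List.map_cons, List.prod_cons, MonoidHom.one_apply, one_mul,
      MonoidHom.id_apply] at ih ⊢

theorem p_TAU : Stmt_TAU.{uA, uB} := by
  intro A B _ _ _ _ ω r hr d hd hinj n
  set Γ : Subgroup (Equiv.Perm (Stream' A)) :=
    Subgroup.closure (Set.range r ∪ Set.range (d n)) with hΓ
  let r' : A →* Γ := r.codRestrict Γ fun a => Subgroup.subset_closure (Or.inl ⟨a, rfl⟩)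
  let d' : B →* Γ := (d n).codRestrict Γ fun β => Subgroup.subset_closure (Or.inr ⟨β, rfl⟩)
  let f : Monoid.Coprod A B →* Γ := Monoid.Coprod.lift r' d'
  let g : Monoid.Coprod A B →* B := Monoid.Coprod.lift (1 : A →* B) (MonoidHom.id B)
  have hf : Function.Surjective f := by
    rintro ⟨x, hx⟩
    have : ∀ x (_ : x ∈ Subgroup.closure (Set.range r ∪ Set.range (d n))),
        ∃ z, ((f z : Γ) : Equiv.Perm (Stream' A)) = x := by
      intro x hx
      induction hx using Subgroup.closure_induction with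
      | mem x hx =>
        rcases hx with ⟨a, rfl⟩ | ⟨β, rfl⟩
        · exact ⟨Monoid.Coprod.inl a, rfl⟩
        · exact ⟨Monoid.Coprod.inr β, rfl⟩
      | one => exact ⟨1, by simp⟩
      | mul x y _ _ hx hy =>
        obtain ⟨z, hz⟩ := hx
        obtain ⟨w, hw⟩ := hy
        exact ⟨z * w, by rw [map_mul, Subgroup.coe_mul, hz, hw]⟩
      | inv x _ hx =>
        obtain ⟨z, hz⟩ := hx
        exact ⟨z⁻¹, by rw [map_inv, Subgroup.coe_inv, hz]⟩
    obtain ⟨z, hz⟩ := this x hx
    exact ⟨z, Subtype.ext hz⟩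
  have hker : f.ker ≤ g.ker := by
    intro x hx
    rw [MonoidHom.mem_ker] at hx ⊢
    obtain ⟨L, a, rfl⟩ := TAU_word x
    have h1 : ((f (TAU_ev Monoid.Coprod.inl Monoid.Coprod.inr L * Monoid.Coprod.inl a) : Γ) :
        Equiv.Perm (Stream' A)) = 1 := by rw [hx]; rfl
    have h2 : Γ.subtype (f (TAU_ev Monoid.Coprod.inl Monoid.Coprod.inr L *
        Monoid.Coprod.inl a)) = TAU_ev r (d n) L * r a := by
      rw [map_mul, map_mul, TAU_map, TAU_map]
      rfl
    have h3 : TAU_ev r (d n) L = r a⁻¹ := by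
      rw [map_inv, eq_inv_iff_mul_eq_one, ← h2]
      exact h1
    have h4 := TAU_claim ω r hr d hd hinj L.length n L a⁻¹ rfl h3
    rw [map_mul, TAU_map]
    have h5 : TAU_ev (g.comp Monoid.Coprod.inl) (g.comp Monoid.Coprod.inr) L = TAU_ct L :=
      TAU_one L
    rw [h5, h4, one_mul]
    rfl
  refine ⟨(MonoidHom.liftOfSurjective f hf) ⟨g, hker⟩, ?_, ?_⟩
  · intro a
    exact MonoidHom.liftOfRightInverse_comp_apply f _ _ ⟨g, hker⟩ (Monoid.Coprod.inl a)
  · intro β
    exact MonoidHom.liftOfRightInverse_comp_apply f _ _ ⟨g, hker⟩ (Monoid.Coprod.inr β)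

end Pool.Agent.Work.MP87745.SP
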