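import Pool.Agent.Work.MP_87745a_sp.Interface

set_option autoImplicit false

universe uA uB

namespace Pool.Agent.Work.MP87745.SP

open Pool.Agent.Work.MP87745.GS

section DATaux

variable {A : Type uA} {B : Type uB} [Group A] [CommGroup B] {r : A →* Equiv.Perm (Stream' A)}
  {d : ℕ → B →* Equiv.Perm (Stream' A)}

/-- the groups -/
abbrev DAT_Gm (r : A →* Equiv.Perm (Stream' A)) (d : ℕ → B →* Equiv.Perm (Stream' A))
    (n : ℕ) : Type uA := ↥(Subgroup.closure (Set.range r ∪ Set.range (d n)))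

/-- first letters and sections of the elements of the groups -/
theorem DAT_exists_sec (ω : ℕ → A → B →* A) [DecidableEq A]
    (hr : ∀ a x y, r a (Stream'.cons x y) = Stream'.cons (a * x) y)
    (hd : ∀ n β x y, d n β (Stream'.cons x y) =
      Stream'.cons x (if x = 1 then d (n + 1) β y else r (ω n x β) y)) (n : ℕ)
    (g : Equiv.Perm (Stream' A)) (hg : g ∈ Subgroup.closure (Set.range r ∪ Set.range (d n))) :
    ∃ c : A, ∃ s : A → Equiv.Perm (Stream' A),
      (∀ v, s v ∈ Subgroup.closure (Set.range r ∪ Set.range (d (n + 1)))) ∧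
        ∀ v y, g (Stream'.cons v y) = Stream'.cons (c * v) (s v y) := by
  induction hg using Subgroup.closure_induction with
  | mem x hx =>
    rcases hx with ⟨a, rfl⟩ | ⟨β, rfl⟩
    · exact ⟨a, fun _ => 1, fun _ => one_mem _, fun v y => by rw [hr]; rfl⟩
    · refine ⟨1, fun v => if v = 1 then d (n + 1) β else r (ω n v β), fun v => ?_, fun v y => ?_⟩
      · dsimp only
        split_ifs
        · exact Subgroup.subset_closure (Or.inr ⟨β, rfl⟩)
        · exact Subgroup.subset_closure (Or.inl ⟨_, rfl⟩)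
      · rw [hd, one_mul]
        congr 1
        dsimp only
        split_ifs <;> rfl
  | one => exact ⟨1, fun _ => 1, fun _ => one_mem _, fun v y => by rw [one_mul]; rfl⟩
  | mul g h _ _ ihg ihh =>
    obtain ⟨c₁, s₁, h₁, e₁⟩ := ihg
    obtain ⟨c₂, s₂, h₂, e₂⟩ := ihh
    refine ⟨c₁ * c₂, fun v => s₁ (c₂ * v) * s₂ v, fun v => mul_mem (h₁ _) (h₂ _), fun v y => ?_⟩
    rw [Equiv.Perm.mul_apply, e₂, e₁, mul_assoc]
    rfl
  | inv g _ ihg =>
    obtain ⟨c, s, h, e⟩ := ihg
    refine ⟨c⁻¹, fun v => (s (c⁻¹ * v))⁻¹, fun v => inv_mem (h _), fun v y => ?_⟩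
    rw [Equiv.Perm.inv_eq_iff_eq, e]
    simp

/-- first letters and sections -/
structure DAT_Sec (r : A →* Equiv.Perm (Stream' A)) (d : ℕ → B →* Equiv.Perm (Stream' A)) where
  c : ∀ n, DAT_Gm r d n → A
  s : ∀ n, DAT_Gm r d n → A → DAT_Gm r d (n + 1)
  spec : ∀ n (g : DAT_Gm r d n) v y, (g : Equiv.Perm (Stream' A)) (Stream'.cons v y) =
    Stream'.cons (c n g * v) ((s n g v : Equiv.Perm (Stream' A)) y)

theorem DAT_Sec.uniq (T : DAT_Sec r d) (n : ℕ) (g : DAT_Gm r d n) (c : A)
    (s : A → DAT_Gm r d (n + 1))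
    (h : ∀ v y, (g : Equiv.Perm (Stream' A)) (Stream'.cons v y) =
      Stream'.cons (c * v) ((s v : Equiv.Perm (Stream' A)) y)) :
    T.c n g = c ∧ ∀ v, T.s n g v = s v := by
  have h1 : ∀ v y, T.c n g * v = c * v ∧ (T.s n g v : Equiv.Perm (Stream' A)) y =
      (s v : Equiv.Perm (Stream' A)) y := by
    intro v y
    exact Stream'.cons_injective2 ((T.spec n g v y).symm.trans (h v y))
  refine ⟨?_, fun v => ?_⟩
  · exact mul_right_cancel (h1 1 (Stream'.const 1)).1
  · apply Subtype.ext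
    apply Equiv.ext
    intro y
    exact (h1 v y).2

theorem DAT_Sec.mul (T : DAT_Sec r d) (n : ℕ) (g h : DAT_Gm r d n) :
    T.c n (g * h) = T.c n g * T.c n h ∧
      ∀ v, T.s n (g * h) v = T.s n g (T.c n h * v) * T.s n h v := by
  apply T.uniq n (g * h) (T.c n g * T.c n h) (fun v => T.s n g (T.c n h * v) * T.s n h v)
  intro v y
  rw [Subgroup.coe_mul, Equiv.Perm.mul_apply, T.spec, T.spec, Subgroup.coe_mul,
    Equiv.Perm.mul_apply, mul_assoc]

theorem DAT_Sec.one (T : DAT_Sec r d) (n : ℕ) : T.c n 1 = 1 ∧ ∀ v, T.s n 1 v = 1 := by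
  apply T.uniq n 1 1 (fun _ => 1)
  intro v y
  rw [one_mul]
  rfl

end DATaux

theorem p_DAT (hTAU : Stmt_TAU.{uA, uB}) : Stmt_DAT.{uA, uB} := by
  intro A B _ _ _ _ ω r hr d hd hinj
  have hex : ∀ n (g : DAT_Gm r d n), ∃ c : A, ∃ s : A → DAT_Gm r d (n + 1),
      ∀ v y, (g : Equiv.Perm (Stream' A)) (Stream'.cons v y) =
        Stream'.cons (c * v) ((s v : Equiv.Perm (Stream' A)) y) := by
    intro n g
    obtain ⟨c, s, hs, h⟩ := DAT_exists_sec ω hr hd n g.1 g.2
    exact ⟨c, fun v => ⟨s v, hs v⟩, h⟩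
  choose cc ss hspec using hex
  let T : DAT_Sec r d := ⟨cc, ss, hspec⟩
  have hRm : ∀ n a, r a ∈ Subgroup.closure (Set.range r ∪ Set.range (d n)) :=
    fun n a => Subgroup.subset_closure (Or.inl ⟨a, rfl⟩)
  have hDm : ∀ n β, d n β ∈ Subgroup.closure (Set.range r ∪ Set.range (d n)) :=
    fun n β => Subgroup.subset_closure (Or.inr ⟨β, rfl⟩)
  let R : ∀ n, A →* DAT_Gm r d n := fun n => r.codRestrict _ (hRm n)
  let U : ∀ n, B →* DAT_Gm r d n := fun n => (d n).codRestrict _ (hDm n)
  have hR : ∀ n a, T.c n (R n a) = a ∧ ∀ v, T.s n (R n a) v = 1 := by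
    intro n a
    apply T.uniq n (R n a) a (fun _ => 1)
    intro v y
    exact hr a v y
  have hU : ∀ n β, T.c n (U n β) = 1 ∧ ∀ v, T.s n (U n β) v = if v = 1 then U (n + 1) β else
      R (n + 1) (ω n v β) := by
    intro n β
    apply T.uniq n (U n β) 1 (fun v => if v = 1 then U (n + 1) β else R (n + 1) (ω n v β))
    intro v y
    change d n β (Stream'.cons v y) = _
    rw [hd, one_mul]
    congr 1
    split_ifs <;> rfl
  choose τ hτ1 hτ2 using hTAU A B ω r hr d hd hinj
  refine ⟨{ r := R, d := U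
            c := fun n => { toFun := T.c n, map_one' := (T.one n).1
                            map_mul' := fun g h => (T.mul n g h).1 }
            sec := T.s, τ := τ
            c_r := fun n a => (hR n a).1
            c_d := fun n β => (hU n β).1
            sec_mul := fun n g h v => (T.mul n g h).2 v
            sec_r := fun n a v => (hR n a).2 v
            sec_d := fun n β v => (hU n β).2 v
            τ_r := fun n a => hτ1 n a
            τ_d := fun n β => hτ2 n β }, fun _ _ => rfl, fun _ _ => rfl⟩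

end Pool.Agent.Work.MP87745.SP
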