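import Mathlib

/-!
Spinal groups exist: for all homomorphisms `ω n v : B → A` there are permutations `r a`, `d n β` of
the infinite sequences over `A` as in `Results/MP_87745a_al/SpinalGroups.lean`, and all `d n` are
injective if for all `n` and `β ≠ 1` there are `m ≥ n` and `v ≠ 1` with `ω m v β ≠ 1`.
-/

set_option autoImplicit false

namespace Pool.Agent.Work.MP87745.SP.Exist

variable {A : Type*} [Group A] {B : Type*} [CommGroup B]

/-- `k` is the first index with a letter different from `1` -/
def Fst (y : Stream' A) (k : ℕ) : Prop := (∀ i, i < k → y i = 1) ∧ y k ≠ 1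

theorem Fst.uniq {y : Stream' A} {j k : ℕ} (hj : Fst y j) (hk : Fst y k) : j = k := by
  rcases lt_trichotomy j k with h | h | h
  · exact absurd (hk.1 j h) hj.2
  · exact h
  · exact absurd (hj.1 k h) hk.2

open Classical in
/-- the map of `β` at level `n` -/
noncomputable def F (ω : ℕ → A → B →* A) (n : ℕ) (β : B) (y : Stream' A) : Stream' A :=
  fun k => match k with
    | 0 => y 0
    | (k + 1) => if Fst y k then ω (n + k) (y k) β * y (k + 1) else y (k + 1)

theorem F_zero (ω : ℕ → A → B →* A) (n : ℕ) (β : B) (y : Stream' A) : F ω n β y 0 = y 0 := rfl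

open Classical in
theorem F_succ (ω : ℕ → A → B →* A) (n : ℕ) (β : B) (y : Stream' A) (k : ℕ) :
    F ω n β y (k + 1) = if Fst y k then ω (n + k) (y k) β * y (k + 1) else y (k + 1) := rfl

theorem F_le (ω : ℕ → A → B →* A) (n : ℕ) (β : B) (y : Stream' A) (k : ℕ) (hk : Fst y k) (i : ℕ)
    (hi : i ≤ k) : F ω n β y i = y i := by
  cases i with
  | zero => rfl
  | succ j =>
    rw [F_succ, if_neg]
    intro hj
    have := hj.uniq hk
    omega

theorem Fst_F (ω : ℕ → A → B →* A) (n : ℕ) (β : B) (y : Stream' A) (k : ℕ) :
    Fst (F ω n β y) k ↔ Fst y k := by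
  classical
  have h1 : ∀ k, Fst y k → Fst (F ω n β y) k := by
    intro k hk
    refine ⟨fun i hi => ?_, ?_⟩
    · rw [F_le ω n β y k hk i hi.le]
      exact hk.1 i hi
    · rw [F_le ω n β y k hk k le_rfl]
      exact hk.2
  refine ⟨fun hk => ?_, h1 k⟩
  by_cases hex : ∃ j, y j ≠ 1
  · have hj : Fst y (Nat.find hex) :=
      ⟨fun i hi => not_not.1 (Nat.find_min hex hi), Nat.find_spec hex⟩
    have := (h1 _ hj).uniq hk
    rw [← this]
    exact hj
  · push Not at hex
    have hn : ∀ j, ¬ Fst y j := fun j hj => hj.2 (hex j)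
    have he : F ω n β y = y := by
      funext i
      cases i with
      | zero => rfl
      | succ j => rw [F_succ, if_neg (hn j)]
    rw [he] at hk
    exact hk

theorem F_one (ω : ℕ → A → B →* A) (n : ℕ) (y : Stream' A) : F ω n 1 y = y := by
  classical
  funext i
  cases i with
  | zero => rfl
  | succ j =>
    rw [F_succ, map_one, one_mul, ite_self]

theorem F_mul (ω : ℕ → A → B →* A) (n : ℕ) (β γ : B) (y : Stream' A) :
    F ω n (β * γ) y = F ω n β (F ω n γ y) := by
  classical
  funext i
  cases i with
  | zero => rfl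
  | succ j =>
    rw [F_succ ω n β, F_succ ω n (β * γ)]
    by_cases hj : Fst y j
    · rw [if_pos hj, if_pos ((Fst_F ω n γ y j).2 hj), F_le ω n γ y j hj j le_rfl, F_succ,
        if_pos hj, map_mul, mul_assoc]
    · rw [if_neg hj, if_neg (fun h => hj ((Fst_F ω n γ y j).1 h)), F_succ, if_neg hj]

/-- multiplication of the first letter -/
def R (a : A) (y : Stream' A) : Stream' A :=
  fun k => match k with
    | 0 => a * y 0
    | (k + 1) => y (k + 1)

theorem R_cons (a x : A) (y : Stream' A) : R a (Stream'.cons x y) = Stream'.cons (a * x) y := by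
  funext i
  cases i with
  | zero => rfl
  | succ j => rfl

theorem R_one (y : Stream' A) : R 1 y = y := by
  funext i
  cases i with
  | zero => exact one_mul _
  | succ j => rfl

theorem R_mul (a b : A) (y : Stream' A) : R (a * b) y = R a (R b y) := by
  funext i
  cases i with
  | zero => exact mul_assoc _ _ _
  | succ j => rfl

theorem cons_succ (x : A) (y : Stream' A) (k : ℕ) : (Stream'.cons x y) (k + 1) = y k := rfl

theorem cons_zero (x : A) (y : Stream' A) : (Stream'.cons x y) 0 = x := rfl

theorem Fst_cons_succ (x : A) (y : Stream' A) (k : ℕ) :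
    Fst (Stream'.cons x y) (k + 1) ↔ x = 1 ∧ Fst y k := by
  constructor
  · rintro ⟨h1, h2⟩
    exact ⟨h1 0 (Nat.succ_pos k), fun i hi => h1 (i + 1) (Nat.succ_lt_succ hi), h2⟩
  · rintro ⟨h1, h2, h3⟩
    refine ⟨fun i hi => ?_, h3⟩
    cases i with
    | zero => exact h1
    | succ j => exact h2 j (Nat.lt_of_succ_lt_succ hi)

theorem Fst_cons_zero (x : A) (y : Stream' A) : Fst (Stream'.cons x y) 0 ↔ x ≠ 1 :=
  ⟨fun h => h.2, fun h => ⟨fun i hi => absurd hi (Nat.not_lt_zero i), h⟩⟩

theorem F_cons [DecidableEq A] (ω : ℕ → A → B →* A) (n : ℕ) (β : B) (x : A) (y : Stream' A) :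
    F ω n β (Stream'.cons x y) =
      Stream'.cons x (if x = 1 then F ω (n + 1) β y else R (ω n x β) y) := by
  classical
  funext i
  cases i with
  | zero => rfl
  | succ j =>
    rw [F_succ, cons_succ x y j, cons_succ]
    by_cases hx : x = 1
    · rw [if_pos hx]
      cases j with
      | zero =>
        rw [if_neg, F_zero]
        rw [Fst_cons_zero]
        exact fun h => h hx
      | succ k =>
        rw [F_succ, cons_succ]
        by_cases hk : Fst y k
        · rw [if_pos hk, if_pos ((Fst_cons_succ x y k).2 ⟨hx, hk⟩)]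
          have : n + (k + 1) = n + 1 + k := by omega
          rw [this]
        · rw [if_neg hk, if_neg]
          intro h
          exact hk ((Fst_cons_succ x y k).1 h).2
    · rw [if_neg hx]
      cases j with
      | zero =>
        rw [if_pos ((Fst_cons_zero x y).2 hx)]
        rfl
      | succ k =>
        rw [if_neg]
        · rfl
        · intro h
          exact hx ((Fst_cons_succ x y k).1 h).1

/-- Spinal groups exist. -/
theorem exists_spinal (A : Type*) [Group A] [DecidableEq A] (B : Type*) [CommGroup B]
    (ω : ℕ → A → B →* A) :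
    ∃ (r : A →* Equiv.Perm (Stream' A)) (d : ℕ → B →* Equiv.Perm (Stream' A)),
      (∀ a x y, r a (Stream'.cons x y) = Stream'.cons (a * x) y) ∧
      (∀ n β x y, d n β (Stream'.cons x y) =
        Stream'.cons x (if x = 1 then d (n + 1) β y else r (ω n x β) y)) ∧
      ((∀ n β, β ≠ 1 → ∃ m, n ≤ m ∧ ∃ v, v ≠ 1 ∧ ω m v β ≠ 1) →
        ∀ n, Function.Injective (d n)) := by
  classical
  let r : A →* Equiv.Perm (Stream' A) :=
    { toFun := fun a =>
        { toFun := R a
          invFun := R a⁻¹
          left_inv := fun y => by rw [← R_mul, inv_mul_cancel, R_one]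
          right_inv := fun y => by rw [← R_mul, mul_inv_cancel, R_one] }
      map_one' := Equiv.ext fun y => R_one y
      map_mul' := fun a b => Equiv.ext fun y => R_mul a b y }
  let d : ℕ → B →* Equiv.Perm (Stream' A) := fun n =>
    { toFun := fun β =>
        { toFun := F ω n β
          invFun := F ω n β⁻¹
          left_inv := fun y => by rw [← F_mul, inv_mul_cancel, F_one]
          right_inv := fun y => by rw [← F_mul, mul_inv_cancel, F_one] }
      map_one' := Equiv.ext fun y => F_one ω n y
      map_mul' := fun a b => Equiv.ext fun y => F_mul ω n a b y }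
  refine ⟨r, d, fun a x y => R_cons a x y, fun n β x y => F_cons ω n β x y, ?_⟩
  intro h n
  rw [injective_iff_map_eq_one]
  intro β hβ
  by_contra hne
  obtain ⟨m, hm, v, hv, hω⟩ := h n β hne
  let y : Stream' A := fun i => if i = m - n then v else 1
  have hy : Fst y (m - n) := by
    refine ⟨fun i hi => ?_, ?_⟩
    · show (if i = m - n then v else 1) = 1
      rw [if_neg hi.ne]
    · show (if m - n = m - n then v else 1) ≠ 1
      rw [if_pos rfl]
      exact hv
  have h1 : F ω n β y = y := by
    have := congrArg (fun e : Equiv.Perm (Stream' A) => e y) hβ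
    exact this
  have h2 := congrFun h1 (m - n + 1)
  rw [F_succ, if_pos hy] at h2
  have h3 : y (m - n) = v := if_pos rfl
  have h4 : y (m - n + 1) = 1 := if_neg (by omega)
  have h5 : n + (m - n) = m := by omega
  rw [h3, h4, h5, mul_one] at h2
  exact hω h2

end Pool.Agent.Work.MP87745.SP.Exist
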